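import Pool.Agent.P.MP_5c18f4_pr.Defs

namespace Pool.Agent.P.MP_5c18f4_pr

variable {d : ℕ}

section basic

variable {ω ω' : Set (Sym2 (Site d))} {x y z : Site d}

lemma self_mem_cluster (ω : Set (Sym2 (Site d))) (x : Site d) : x ∈ cluster ω x :=
  SimpleGraph.Reachable.refl x

lemma cluster_symm (h : y ∈ cluster ω x) : x ∈ cluster ω y := SimpleGraph.Reachable.symm h

lemma cluster_trans (h : y ∈ cluster ω x) (h' : z ∈ cluster ω y) : z ∈ cluster ω x :=
  SimpleGraph.Reachable.trans h h'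

lemma cluster_eq (h : y ∈ cluster ω x) : cluster ω y = cluster ω x :=
  Set.ext fun _ => ⟨cluster_trans h, cluster_trans (cluster_symm h)⟩

lemma mem_cluster_of_edge (h : s(x, y) ∈ ω) : y ∈ cluster ω x := by
  by_cases hxy : x = y
  · subst hxy; exact self_mem_cluster ω x
  · exact SimpleGraph.Adj.reachable ((SimpleGraph.fromEdgeSet_adj ω).2 ⟨h, hxy⟩)

lemma cluster_step (h : y ∈ cluster ω x) (h' : s(y, z) ∈ ω) : z ∈ cluster ω x :=
  cluster_trans h (mem_cluster_of_edge h')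

lemma cluster_subset {T : Set (Site d)} (hx : x ∈ T)
    (hT : ∀ a b, a ∈ T → s(a, b) ∈ ω → b ∈ T) : cluster ω x ⊆ T := by
  intro y hy
  have h := (SimpleGraph.reachable_iff_reflTransGen x y).1 hy
  clear hy
  induction h with
  | refl => exact hx
  | tail _ h2 ih => exact hT _ _ ih ((SimpleGraph.fromEdgeSet_adj ω).1 h2).1

lemma cluster_mono (h : ω ⊆ ω') (x : Site d) : cluster ω x ⊆ cluster ω' x :=
  cluster_subset (self_mem_cluster _ _) fun _ _ ha hab => cluster_step ha (h hab)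

lemma cluster_eq_of_closed (h : ω' ⊆ ω)
    (h' : ∀ a b, a ∈ cluster ω' x → s(a, b) ∈ ω → s(a, b) ∈ ω') : cluster ω x = cluster ω' x :=
  Set.Subset.antisymm
    (cluster_subset (self_mem_cluster _ _) fun a b ha hab => cluster_step ha (h' a b ha hab))
    (cluster_mono h x)

lemma cluster_map (τ : Site d ≃ Site d) (ω : Set (Sym2 (Site d))) (x : Site d) :
    cluster (Sym2.map τ '' ω) (τ x) = τ '' cluster ω x := by
  apply Set.Subset.antisymm
  · refine cluster_subset ⟨x, self_mem_cluster _ _, rfl⟩ ?_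
    rintro _ b ⟨a, ha, rfl⟩ ⟨e, he, h⟩
    refine ⟨τ.symm b, cluster_step ha ?_, by simp⟩
    have : e = s(a, τ.symm b) := by
      apply Sym2.map.injective τ.injective
      rw [h]; simp
    rwa [← this]
  · rintro _ ⟨y, hy, rfl⟩
    have := cluster_subset (ω := ω) (T := {y | τ y ∈ cluster (Sym2.map τ '' ω) (τ x)})
      (self_mem_cluster _ _) fun a b ha hab => cluster_step ha ⟨_, hab, by simp⟩
    exact this hy

end basic

/-- number of clusters -/
noncomputable def kk (Λ : Finset (Site d)) (ω : Finset (Sym2 (Site d))) : ℕ :=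
  (cluster (ω : Set (Sym2 (Site d))) '' (Λ : Set (Site d))).ncard

lemma cluster_subset_of_sym2 {Λ : Finset (Site d)} {ω : Finset (Sym2 (Site d))} (h : ω ⊆ Λ.sym2)
    {x : Site d} (hx : x ∈ Λ) : cluster (ω : Set (Sym2 (Site d))) x ⊆ Λ :=
  cluster_subset hx fun _ _ _ hab => (Finset.mk_mem_sym2_iff.1 (h hab)).2

lemma cluster_union_left {V : Finset (Site d)} {ω₁ ω₂ : Finset (Sym2 (Site d))} (h₁ : ω₁ ⊆ V.sym2)
    (h₂ : ∀ e ∈ ω₂, ∀ a ∈ e, a ∉ V) {x : Site d} (hx : x ∈ V) :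
    cluster ((ω₁ ∪ ω₂ : Finset _) : Set (Sym2 (Site d))) x = cluster (ω₁ : Set _) x := by
  refine cluster_eq_of_closed (by simp) fun a b ha hab => ?_
  rcases Finset.mem_union.1 hab with h | h
  · exact h
  · exact absurd (cluster_subset_of_sym2 h₁ hx ha) (h₂ _ h a (by simp))

lemma cluster_subset_compl {V : Finset (Site d)} {ω₂ : Finset (Sym2 (Site d))}
    (h₂ : ∀ e ∈ ω₂, ∀ a ∈ e, a ∉ V) {x : Site d} (hx : x ∉ V) :
    cluster (ω₂ : Set (Sym2 (Site d))) x ⊆ (V : Set (Site d))ᶜ :=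
  cluster_subset hx fun _ b _ hab => h₂ _ hab b (by simp)

lemma kk_union {Λ V : Finset (Site d)} {ω₁ ω₂ : Finset (Sym2 (Site d))} (hV : V ⊆ Λ)
    (h₁ : ω₁ ⊆ V.sym2) (h₂ : ∀ e ∈ ω₂, ∀ a ∈ e, a ∉ V) :
    kk Λ (ω₁ ∪ ω₂) = kk V ω₁ + kk (Λ \ V) ω₂ := by
  have hr : ∀ x, x ∉ V →
      cluster ((ω₁ ∪ ω₂ : Finset _) : Set (Sym2 (Site d))) x = cluster (ω₂ : Set _) x := by
    intro x hx
    refine cluster_eq_of_closed (by simp) fun a b ha hab => ?_
    rcases Finset.mem_union.1 hab with h | h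
    · exact absurd (Finset.mk_mem_sym2_iff.1 (h₁ h)).1 (cluster_subset_compl h₂ hx ha)
    · exact h
  have e : (Λ : Set (Site d)) = (V : Set (Site d)) ∪ ((Λ \ V : Finset _) : Set (Site d)) := by
    rw [← Finset.coe_union, Finset.union_sdiff_of_subset hV]
  unfold kk
  rw [← Set.ncard_union_eq _ (V.finite_toSet.image _) ((Λ \ V).finite_toSet.image _)]
  · conv_lhs => rw [e, Set.image_union]
    rw [Set.image_congr fun x hx => cluster_union_left h₁ h₂ hx,
      Set.image_congr fun x hx => hr x (Finset.mem_sdiff.1 hx).2]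
  · rw [Set.disjoint_left]
    rintro _ ⟨x, hx, rfl⟩ ⟨y, hy, e⟩
    exact cluster_subset_compl h₂ (Finset.mem_sdiff.1 hy).2 (e ▸ self_mem_cluster _ x) hx

lemma kk_map (τ : Site d ≃ Site d) (Λ : Finset (Site d)) (ω : Finset (Sym2 (Site d))) :
    kk (Λ.image τ) (ω.image (Sym2.map τ)) = kk Λ ω := by
  unfold kk
  rw [Finset.coe_image, Finset.coe_image, Set.image_image]
  simp only [cluster_map]
  rw [← Set.image_image (Set.image τ) (cluster (ω : Set (Sym2 (Site d))))]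
  exact Set.ncard_image_of_injective _ (Set.image_injective.2 τ.injective)

/-- colourings that are constant along the edges of `ω` -/
def Comp {β : Type*} (Λ : Finset (Site d)) (ω : Finset (Sym2 (Site d))) (σ : Λ → β) : Prop :=
  ∀ a b : Λ, s(a.1, b.1) ∈ ω → σ a = σ b

lemma Comp.eq_of_mem {β : Type*} {Λ : Finset (Site d)} {ω : Finset (Sym2 (Site d))}
    (hω : ω ⊆ Λ.sym2) {σ : Λ → β} (h : Comp Λ ω σ) {a b : Λ}
    (hab : b.1 ∈ cluster (ω : Set (Sym2 (Site d))) a.1) : σ a = σ b := by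
  have := cluster_subset (ω := (ω : Set (Sym2 (Site d)))) (x := a.1)
    (T := {y | ∃ hy : y ∈ Λ, σ a = σ ⟨y, hy⟩}) ⟨a.2, rfl⟩ (by
      rintro u v ⟨hu, e⟩ huv
      have hv := (Finset.mk_mem_sym2_iff.1 (hω huv)).2
      exact ⟨hv, e.trans (h ⟨u, hu⟩ ⟨v, hv⟩ huv)⟩) hab
  obtain ⟨_, e⟩ := this
  exact e

/-- the map from sites to clusters -/
def cmap (Λ : Finset (Site d)) (ω : Finset (Sym2 (Site d))) (a : Λ) :
    (cluster (ω : Set (Sym2 (Site d))) '' (Λ : Set (Site d)) : Set (Set (Site d))) :=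
  ⟨cluster (ω : Set (Sym2 (Site d))) a.1, a.1, a.2, rfl⟩

lemma card_comp_aux {β : Type*} {Λ : Finset (Site d)} {ω : Finset (Sym2 (Site d))}
    (hω : ω ⊆ Λ.sym2) (p : (Λ → β) → Prop) :
    Nat.card {σ : Λ → β // Comp Λ ω σ ∧ p σ} = Nat.card {τ : (cluster (ω : Set (Sym2 (Site d))) ''
      (Λ : Set (Site d)) : Set (Set (Site d))) → β // p (τ ∘ cmap Λ ω)} := by
  have hs : Function.Surjective (cmap Λ ω) := by
    rintro ⟨_, a, ha, rfl⟩
    exact ⟨⟨a, ha⟩, rfl⟩
  symm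
  refine Nat.card_eq_of_bijective (fun τ => ⟨τ.1 ∘ cmap Λ ω, fun a b hab => ?_, τ.2⟩) ⟨?_, ?_⟩
  · have : cmap Λ ω a = cmap Λ ω b := Subtype.ext (cluster_eq (mem_cluster_of_edge hab)).symm
    simp only [Function.comp, this]
  · intro τ τ' h
    exact Subtype.ext (hs.injective_comp_right (congrArg Subtype.val h))
  · rintro ⟨σ, h1, h2⟩
    have e : (σ ∘ Function.surjInv hs) ∘ cmap Λ ω = σ := by
      funext a
      have h3 := congrArg Subtype.val (Function.surjInv_eq hs (cmap Λ ω a))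
      exact h1.eq_of_mem hω (by
        simp only [cmap] at h3
        simp only [cmap]
        rw [h3]; exact self_mem_cluster _ _)
    exact ⟨⟨σ ∘ Function.surjInv hs, by rw [e]; exact h2⟩, Subtype.ext e⟩

lemma card_comp {β : Type*} {Λ : Finset (Site d)} {ω : Finset (Sym2 (Site d))}
    (hω : ω ⊆ Λ.sym2) : Nat.card {σ : Λ → β // Comp Λ ω σ} = Nat.card β ^ kk Λ ω := by
  have h := card_comp_aux (β := β) hω (fun _ => True)
  simp only [and_true] at h
  have : Finite (cluster (ω : Set (Sym2 (Site d))) '' (Λ : Set (Site d)) : Set (Set (Site d))) :=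
    (Λ.finite_toSet.image _).to_subtype
  rw [h, Nat.card_congr (Equiv.subtypeUnivEquiv fun _ => trivial), Nat.card_fun]
  rfl

lemma card_eq_mul {C β : Type*} {a b : C} (hab : a ≠ b) :
    Nat.card {τ : C → β // τ a = τ b} * Nat.card β = Nat.card (C → β) := by
  classical
  rw [← Nat.card_prod]
  refine Nat.card_eq_of_bijective (fun p => Function.update p.1.1 b p.2) ⟨?_, fun τ => ?_⟩
  · rintro ⟨⟨τ, h⟩, t⟩ ⟨⟨τ', h'⟩, t'⟩ e
    have e1 : t = t' := by simpa using congrFun e b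
    have e2 : τ a = τ' a := by simpa [hab] using congrFun e a
    refine Prod.ext (Subtype.ext (funext fun c => ?_)) e1
    by_cases hc : c = b
    · subst hc; simp only; rw [← h, ← h', e2]
    · simpa [hc] using congrFun e c
  · exact ⟨⟨⟨Function.update τ b (τ a), by simp [hab]⟩, τ b⟩, by simp⟩

lemma card_comp_eq {β : Type*} {Λ : Finset (Site d)} {ω : Finset (Sym2 (Site d))}
    (hω : ω ⊆ Λ.sym2) {x y : Λ} (hxy : y.1 ∉ cluster (ω : Set (Sym2 (Site d))) x.1) :
    Nat.card {σ : Λ → β // Comp Λ ω σ ∧ σ x = σ y} * Nat.card β = Nat.card β ^ kk Λ ω := by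
  have : Finite (cluster (ω : Set (Sym2 (Site d))) '' (Λ : Set (Site d)) : Set (Set (Site d))) :=
    (Λ.finite_toSet.image _).to_subtype
  have hne : cmap Λ ω x ≠ cmap Λ ω y := fun h => hxy (by
    have h3 := congrArg Subtype.val h
    simp only [cmap] at h3
    rw [h3]; exact self_mem_cluster _ _)
  rw [card_comp_aux hω (fun σ => σ x = σ y)]
  refine (card_eq_mul hne).trans ?_
  rw [Nat.card_fun]
  rfl

/-- the space of compatible colourings -/
def compSub (Λ : Finset (Site d)) (ω : Finset (Sym2 (Site d))) : Submodule (ZMod 2) (Λ → ZMod 2) where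
  carrier := {σ | Comp Λ ω σ}
  add_mem' h h' a b hab := by simp only [Pi.add_apply, h a b hab, h' a b hab]
  zero_mem' _ _ _ := rfl
  smul_mem' c _ h a b hab := by simp only [Pi.smul_apply, h a b hab]

lemma finrank_compSub {Λ : Finset (Site d)} {ω : Finset (Sym2 (Site d))} (hω : ω ⊆ Λ.sym2) :
    Module.finrank (ZMod 2) (compSub Λ ω) = kk Λ ω := by
  have h1 := Module.natCard_eq_pow_finrank (K := ZMod 2) (V := compSub Λ ω)
  have h2 : Nat.card (compSub Λ ω) = Nat.card (ZMod 2) ^ kk Λ ω := card_comp hω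
  rw [h1, Nat.card_zmod] at h2
  exact Nat.pow_right_injective le_rfl h2

lemma kk_supermod {Λ : Finset (Site d)} {s t : Finset (Sym2 (Site d))} (hs : s ⊆ Λ.sym2)
    (ht : t ⊆ Λ.sym2) : kk Λ s + kk Λ t ≤ kk Λ (s ∩ t) + kk Λ (s ∪ t) := by
  rw [← finrank_compSub hs, ← finrank_compSub ht,
    ← finrank_compSub (Finset.inter_subset_left.trans hs),
    ← finrank_compSub (Finset.union_subset hs ht), ← Submodule.finrank_sup_add_finrank_inf_eq]
  refine add_le_add (Submodule.finrank_mono (sup_le ?_ ?_)) (Submodule.finrank_mono ?_)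
  · exact fun σ h a b hab => h a b (Finset.mem_inter.1 hab).1
  · exact fun σ h a b hab => h a b (Finset.mem_inter.1 hab).2
  · exact fun σ h a b hab => (Finset.mem_union.1 hab).elim (h.1 a b) (h.2 a b)

open Classical in
/-- the open edges of the cluster of `x` -/
noncomputable def CE (ω : Finset (Sym2 (Site d))) (x : Site d) : Finset (Sym2 (Site d)) :=
  ω.filter fun e => ∃ y ∈ e, y ∈ cluster (ω : Set (Sym2 (Site d))) x

lemma mem_CE {ω : Finset (Sym2 (Site d))} {x : Site d} {e : Sym2 (Site d)} :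
    e ∈ CE ω x ↔ e ∈ ω ∧ ∃ y ∈ e, y ∈ cluster (ω : Set (Sym2 (Site d))) x := by
  simp [CE]

lemma CE_subset (ω : Finset (Sym2 (Site d))) (x : Site d) : CE ω x ⊆ ω := fun _ h => (mem_CE.1 h).1

lemma CE_mono {ω ω' : Finset (Sym2 (Site d))} (h : ω ⊆ ω') (x : Site d) : CE ω x ⊆ CE ω' x := by
  intro e he
  obtain ⟨h1, y, h2, h3⟩ := mem_CE.1 he
  exact mem_CE.2 ⟨h h1, y, h2, cluster_mono (Finset.coe_subset.2 h) x h3⟩

lemma mem_cluster_of_mem_CE {ω : Finset (Sym2 (Site d))} {x : Site d} {e : Sym2 (Site d)}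
    (he : e ∈ CE ω x) {a : Site d} (ha : a ∈ e) : a ∈ cluster (ω : Set (Sym2 (Site d))) x := by
  obtain ⟨h1, y, h2, h3⟩ := mem_CE.1 he
  obtain ⟨b, rfl⟩ := Sym2.mem_iff_exists.1 h2
  rcases Sym2.mem_iff.1 ha with rfl | rfl
  · exact h3
  · exact cluster_step h3 h1

lemma cluster_CE (ω : Finset (Sym2 (Site d))) (x : Site d) :
    cluster (CE ω x : Set (Sym2 (Site d))) x = cluster (ω : Set (Sym2 (Site d))) x :=
  (cluster_eq_of_closed (Finset.coe_subset.2 (CE_subset ω x)) fun a _ ha hab => mem_CE.2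
    ⟨hab, a, by simp, cluster_mono (Finset.coe_subset.2 (CE_subset ω x)) x ha⟩).symm

lemma CE_eq_of_mem {ω : Finset (Sym2 (Site d))} {x y : Site d}
    (h : y ∈ cluster (ω : Set (Sym2 (Site d))) x) : CE ω y = CE ω x := by
  ext e
  simp only [mem_CE, cluster_eq h]

lemma CE_map (τ : Site d ≃ Site d) (ω : Finset (Sym2 (Site d))) (x : Site d) :
    CE (ω.image (Sym2.map τ)) (τ x) = (CE ω x).image (Sym2.map τ) := by
  ext e
  simp only [mem_CE, Finset.mem_image, Finset.coe_image, cluster_map]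
  constructor
  · rintro ⟨⟨e, he, rfl⟩, y, hy, z, hz, rfl⟩
    refine ⟨e, ⟨he, z, ?_, hz⟩, rfl⟩
    obtain ⟨a, ha, e⟩ := Sym2.mem_map.1 hy
    rwa [← τ.injective e]
  · rintro ⟨e, ⟨he, y, hy, hz⟩, rfl⟩
    exact ⟨⟨e, he, rfl⟩, τ y, Sym2.mem_map.2 ⟨y, hy, rfl⟩, y, hz, rfl⟩

lemma card_CE_map (τ : Site d ≃ Site d) (ω : Finset (Sym2 (Site d))) (x : Site d) :
    (CE (ω.image (Sym2.map τ)) (τ x)).card = (CE ω x).card := by
  rw [CE_map, Finset.card_image_of_injective _ (Sym2.map.injective τ.injective)]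

end Pool.Agent.P.MP_5c18f4_pr
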