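import Mathlib

open MeasureTheory Filter Topology
open scoped ENNReal

namespace Pool.Agent.P.MP_5c18f4_pr

/-- Sites of the lattice `ℤ^d`. -/
abbrev Site (d : ℕ) := Fin d → ℤ

variable {d : ℕ}

/-- The lattice site `[x]`, characterised by `x ∈ [x] + [-1/2, 1/2)^d`. -/
noncomputable def site (x : Fin d → ℝ) : Site d := fun i => ⌊x i + 1 / 2⌋

/-- The coupling constants `J_x = ψ(x) e^{-|x|}` for `x ≠ 0`, and `J_0 = 0`. -/
noncomputable def coupling (N : Seminorm ℝ (Fin d → ℝ)) (ψ : Site d → ℝ) (x : Site d) : ℝ :=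
  if x = 0 then 0 else ψ x * Real.exp (-N fun i => (x i : ℝ))

/-- The standing assumptions: `N` is a norm, `ψ > 0` is subexponential, both are invariant under
permutations and reflections of the coordinates, and `∑ J_x = 1`. -/
structure Admissible (N : Seminorm ℝ (Fin d → ℝ)) (ψ : Site d → ℝ) : Prop where
  definite : ∀ x, N x = 0 → x = 0
  pos : ∀ y, y ≠ 0 → 0 < ψ y
  subexp : Tendsto (fun y : Site d => Real.log (ψ y) / N fun i => (y i : ℝ)) cofinite (𝓝 0)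
  norm_perm : ∀ (σ : Equiv.Perm (Fin d)) (x : Fin d → ℝ), N (x ∘ σ) = N x
  norm_refl : ∀ (i : Fin d) (x : Fin d → ℝ), N (Function.update x i (-x i)) = N x
  psi_perm : ∀ (σ : Equiv.Perm (Fin d)) (y : Site d), ψ (y ∘ σ) = ψ y
  psi_refl : ∀ (i : Fin d) (y : Site d), ψ (Function.update y i (-y i)) = ψ y
  total : HasSum (coupling N ψ) 1

/-- `G l x = G_l(0,x)` is positive for `l ∈ I`; in every direction `s` the inverse correlation
length `ν_s(l) = - lim (1/n) log G_l(0,[ns])` exists for all `l ∈ I` and is continuous on `I`. -/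
def CorrContinuous (G : ℝ → Site d → ℝ) (I : Set ℝ) : Prop :=
  (∀ l ∈ I, ∀ x, 0 < G l x) ∧ ∀ s : Fin d → ℝ, ∃ ν : ℝ → ℝ,
    (∀ l ∈ I, Tendsto (fun n : ℕ => -Real.log (G l (site ((n : ℝ) • s))) / n) atTop (𝓝 (ν l))) ∧
      ContinuousOn ν I

/-- The interval `(0, c)`. -/
def below (c : ℝ≥0∞) : Set ℝ := {l | 0 < l ∧ ENNReal.ofReal l < c}

/-- Sum of `∏ l J(step)` over all walks from `0` to `x` (given by their lists of steps) that
satisfy `P`. -/
noncomputable def walkG (J : Site d → ℝ) (P : List (Site d) → Prop) (l : ℝ) (x : Site d) : ℝ≥0∞ :=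
  ∑' γ : {γ : List (Site d) // γ.sum = x ∧ P γ}, (γ.1.map fun y => ENNReal.ofReal (l * J y)).prod

/-- The successive positions of the walk with steps `γ` are pairwise distinct. -/
def SelfAvoiding (γ : List (Site d)) : Prop :=
  ∀ i j, i < j → j ≤ γ.length → (γ.take i).sum ≠ (γ.take j).sum

/-- `λ_c = sup {λ : ∑_x G_λ(0,x) < ∞}` for the self-avoiding walk. -/
noncomputable def sawThreshold (J : Site d → ℝ) : ℝ≥0∞ :=
  ⨆ (l : ℝ) (_ : 0 ≤ l ∧ ∑' x, walkG J SelfAvoiding l x < ∞), ENNReal.ofReal l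

/-- The box `[-n,n]^d`. -/
noncomputable def box (d n : ℕ) : Finset (Site d) :=
  Fintype.piFinset fun _ => Finset.Icc (-(n : ℤ)) n

/-- The open cluster of `x` in the edge set `ω`. -/
def cluster (ω : Set (Sym2 (Site d))) (x : Site d) : Set (Site d) :=
  {y | (SimpleGraph.fromEdgeSet ω).Reachable x y}

/-- Expectation of `F` under the free FK measure in the finite volume `Λ`: `ω` runs over the sets
of pairs `{x,y} ⊆ Λ`, `x ≠ y`, with weight `∏_{{x,y} ∈ ω} (e^{β J_{xy}} - 1) q^{κ(ω)}`. -/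
noncomputable def fkExp (J : Site d → ℝ) (q β : ℝ) (Λ : Finset (Site d))
    (F : Finset (Sym2 (Site d)) → ℝ) : ℝ :=
  let E := Λ.sym2.filter fun e => ¬e.IsDiag
  let Je : Sym2 (Site d) → ℝ :=
    Sym2.lift ⟨fun x y => (J (x - y) + J (y - x)) / 2, fun _ _ => congrArg (· / 2) (add_comm _ _)⟩
  let w : Finset (Sym2 (Site d)) → ℝ := fun ω =>
    (∏ e ∈ ω, (Real.exp (β * Je e) - 1)) * q ^ (cluster (ω : Set (Sym2 (Site d))) '' (Λ : Set (Site d))).ncard
  (∑ ω ∈ E.powerset, w ω * F ω) / ∑ ω ∈ E.powerset, w ω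

/-- `Φ` is the weak limit of the free FK measures in boxes: all cylinder probabilities converge. -/
def IsFKLimit (J : Site d → ℝ) (q β : ℝ) (Φ : Measure (Set (Sym2 (Site d)))) : Prop :=
  IsProbabilityMeasure Φ ∧ ∀ F P : Finset (Sym2 (Site d)),
    Tendsto (fun n => fkExp J q β (box d n) fun ω => if ω ∩ F = P then 1 else 0) atTop
      (𝓝 (Φ.real {ω | ω ∩ F = P}))

/-- The percolation threshold of the family `Φ`. -/
noncomputable def fkThreshold (Φ : ℝ → Measure (Set (Sym2 (Site d)))) : ℝ≥0∞ :=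
  ⨅ (β : ℝ) (_ : 0 < β ∧ Φ β {ω | (cluster ω 0).Infinite} ≠ 0), ENNReal.ofReal β

/-- `G β x` is the limit along boxes of the finite-volume two-point functions `g β Λ 0 x`. -/
def IsBoxLimit (g : ℝ → (Λ : Finset (Site d)) → Λ → Λ → ℝ) (G : ℝ → Site d → ℝ) : Prop :=
  ∀ β, 0 < β → ∀ x, Tendsto (fun n => if h : 0 ∈ box d n ∧ x ∈ box d n then
    g β (box d n) ⟨0, h.1⟩ ⟨x, h.2⟩ else 0) atTop (𝓝 (G β x))

/-- `μ(σ_x = σ_y) - 1/q` for the free `q`-state Potts model in `Λ`. -/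
noncomputable def pottsCorr (J : Site d → ℝ) (q : ℕ) (β : ℝ) (Λ : Finset (Site d)) (x y : Λ) : ℝ :=
  let w : (Λ → Fin q) → ℝ := fun σ =>
    Real.exp (β / 2 * ∑ i : Λ, ∑ j : Λ, if σ i = σ j then J (i.1 - j.1) else 0)
  (∑ σ, if σ x = σ y then w σ else 0) / (∑ σ, w σ) - 1 / q

/-- `μ(σ_x σ_y)` for the free Ising model without field in `Λ` (spins in `ℤˣ = {1,-1}`). -/
noncomputable def isingCorr (J : Site d → ℝ) (β : ℝ) (Λ : Finset (Site d)) (x y : Λ) : ℝ :=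
  let w : (Λ → ℤˣ) → ℝ := fun σ =>
    Real.exp (β / 2 * ∑ i : Λ, ∑ j : Λ, J (i.1 - j.1) * ((σ i : ℤ) * (σ j : ℤ)))
  (∑ σ : Λ → ℤˣ, ((σ x : ℤ) * (σ y : ℤ)) * w σ) / ∑ σ, w σ

/-- `μ(cos(θ_x - θ_y))` for the free XY model in `Λ` (angles uniform on `(0, 2π]`). -/
noncomputable def xyCorr (J : Site d → ℝ) (β : ℝ) (Λ : Finset (Site d)) (x y : Λ) : ℝ :=
  let m : Measure (Λ → ℝ) := Measure.pi fun _ => volume.restrict (Set.Ioc 0 (2 * Real.pi))
  let w : (Λ → ℝ) → ℝ := fun θ =>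
    Real.exp (β / 2 * ∑ i : Λ, ∑ j : Λ, J (i.1 - j.1) * Real.cos (θ i - θ j))
  (∫ θ, Real.cos (θ x - θ y) * w θ ∂m) / ∫ θ, w θ ∂m

end Pool.Agent.P.MP_5c18f4_pr
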