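import Mathlib

open Finset

namespace Pool.Agent.P.MP_5c18f4_pr

variable {α : Type*} [DecidableEq α]

/-- expectation under the weight `w` on subsets of `u` -/
noncomputable def Ex (u : Finset α) (w f : Finset α → ℝ) : ℝ :=
  (∑ s ∈ u.powerset, w s * f s) / ∑ s ∈ u.powerset, w s

/-- indicator of the presence of `e` -/
def ind (e : α) (s : Finset α) : ℝ := if e ∈ s then 1 else 0

lemma ind_mono (e : α) : Monotone (ind e) := by
  intro s t h
  unfold ind
  split_ifs with h1 h2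
  · exact le_rfl
  · exact absurd (h h1) h2
  · exact zero_le_one
  · exact le_rfl

lemma ind_nonneg (e : α) (s : Finset α) : 0 ≤ ind e s := by unfold ind; split_ifs <;> norm_num

lemma ind_le (e : α) (s : Finset α) : ind e s ≤ 1 := by unfold ind; split_ifs <;> norm_num

section Ex

variable {u : Finset α} {w f g : Finset α → ℝ}

omit [DecidableEq α] in
lemma Ex_add (f g : Finset α → ℝ) : Ex u w (fun s => f s + g s) = Ex u w f + Ex u w g := by
  simp only [Ex, mul_add, sum_add_distrib, add_div]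

omit [DecidableEq α] in
lemma Ex_sub (f g : Finset α → ℝ) : Ex u w (fun s => f s - g s) = Ex u w f - Ex u w g := by
  simp only [Ex, mul_sub, sum_sub_distrib, sub_div]

omit [DecidableEq α] in
lemma Ex_mul (c : ℝ) (f : Finset α → ℝ) : Ex u w (fun s => c * f s) = c * Ex u w f := by
  simp only [Ex, mul_left_comm _ c, ← mul_sum, mul_div_assoc]

omit [DecidableEq α] in
lemma Ex_sum {ι : Type*} (t : Finset ι) (f : ι → Finset α → ℝ) :
    Ex u w (fun s => ∑ i ∈ t, f i s) = ∑ i ∈ t, Ex u w (f i) := by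
  simp only [Ex, mul_sum, ← sum_div]
  rw [sum_comm]

omit [DecidableEq α] in
lemma Ex_const (hZ : 0 < ∑ s ∈ u.powerset, w s) (c : ℝ) : Ex u w (fun _ => c) = c := by
  simp only [Ex, ← sum_mul]
  field_simp

omit [DecidableEq α] in
lemma Ex_mono' (hw : ∀ s, 0 ≤ w s) (h : ∀ s, s ⊆ u → w s ≠ 0 → f s ≤ g s) :
    Ex u w f ≤ Ex u w g := by
  refine div_le_div_of_nonneg_right (sum_le_sum fun s hs => ?_) (sum_nonneg fun s _ => hw s)
  by_cases h0 : w s = 0
  · simp [h0]
  · exact mul_le_mul_of_nonneg_left (h s (mem_powerset.1 hs) h0) (hw s)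

omit [DecidableEq α] in
lemma Ex_mono (hw : ∀ s, 0 ≤ w s) (h : ∀ s, s ⊆ u → f s ≤ g s) : Ex u w f ≤ Ex u w g :=
  Ex_mono' hw fun s hs _ => h s hs

omit [DecidableEq α] in
lemma Ex_congr' (h : ∀ s, s ⊆ u → w s ≠ 0 → f s = g s) : Ex u w f = Ex u w g := by
  unfold Ex
  congr 1
  refine sum_congr rfl fun s hs => ?_
  by_cases h0 : w s = 0
  · simp [h0]
  · rw [h s (mem_powerset.1 hs) h0]

omit [DecidableEq α] in
lemma Ex_congr (h : ∀ s, s ⊆ u → f s = g s) : Ex u w f = Ex u w g :=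
  Ex_congr' fun s hs _ => h s hs

omit [DecidableEq α] in
lemma Ex_nonneg (hw : ∀ s, 0 ≤ w s) (h : ∀ s, s ⊆ u → 0 ≤ f s) : 0 ≤ Ex u w f :=
  div_nonneg (sum_nonneg fun s hs => mul_nonneg (hw s) (h s (mem_powerset.1 hs)))
    (sum_nonneg fun s _ => hw s)

omit [DecidableEq α] in
lemma Ex_le (hw : ∀ s, 0 ≤ w s) (hZ : 0 < ∑ s ∈ u.powerset, w s) {c : ℝ}
    (h : ∀ s, s ⊆ u → f s ≤ c) : Ex u w f ≤ c :=
  (Ex_mono hw h).trans_eq (Ex_const hZ c)

lemma ad (u : Finset α) {f₁ f₂ f₃ f₄ : Finset α → ℝ} (h₁ : ∀ s, 0 ≤ f₁ s) (h₂ : ∀ s, 0 ≤ f₂ s)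
    (h₃ : ∀ s, 0 ≤ f₃ s) (h₄ : ∀ s, 0 ≤ f₄ s)
    (h : ∀ s, s ⊆ u → ∀ t, t ⊆ u → f₁ s * f₂ t ≤ f₃ (s ∩ t) * f₄ (s ∪ t)) :
    (∑ s ∈ u.powerset, f₁ s) * ∑ s ∈ u.powerset, f₂ s ≤
      (∑ s ∈ u.powerset, f₃ s) * ∑ s ∈ u.powerset, f₄ s := by
  have := Finset.four_functions_theorem u (f₁ := f₁) (f₂ := f₂) (f₃ := f₃) (f₄ := f₄) h₁ h₂ h₃ h₄
    (fun s hs t ht => h s hs t ht) (Subset.refl u.powerset) (Subset.refl u.powerset)
  simpa only [powerset_sups_powerset_self, powerset_infs_powerset_self] using this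

lemma holley {w₁ w₂ : Finset α → ℝ} (h₁ : ∀ s, 0 ≤ w₁ s) (h₂ : ∀ s, 0 ≤ w₂ s)
    (hZ₁ : 0 < ∑ s ∈ u.powerset, w₁ s) (hZ₂ : 0 < ∑ s ∈ u.powerset, w₂ s)
    (h : ∀ s, s ⊆ u → ∀ t, t ⊆ u → w₁ s * w₂ t ≤ w₁ (s ∩ t) * w₂ (s ∪ t)) (hf : Monotone f) :
    Ex u w₁ f ≤ Ex u w₂ f := by
  have h0 : ∀ s, 0 ≤ f s - f ∅ := fun s => sub_nonneg.2 (hf (empty_subset s))
  have key : Ex u w₁ (fun s => f s - f ∅) ≤ Ex u w₂ (fun s => f s - f ∅) := by
    unfold Ex
    rw [div_le_div_iff₀ hZ₁ hZ₂, mul_comm _ (∑ s ∈ u.powerset, w₁ s)]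
    refine ad u (fun s => mul_nonneg (h₁ s) (h0 s)) h₂ h₁ (fun s => mul_nonneg (h₂ s) (h0 s))
      fun s hs t ht => ?_
    have h3 : f s - f ∅ ≤ f (s ∪ t) - f ∅ := sub_le_sub_right (hf subset_union_left) _
    calc w₁ s * (f s - f ∅) * w₂ t = w₁ s * w₂ t * (f s - f ∅) := by ring
      _ ≤ w₁ (s ∩ t) * w₂ (s ∪ t) * (f (s ∪ t) - f ∅) :=
        mul_le_mul (h s hs t ht) h3 (h0 s) (mul_nonneg (h₁ _) (h₂ _))
      _ = _ := by ring
  rw [Ex_sub, Ex_sub, Ex_const hZ₁, Ex_const hZ₂] at key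
  linarith

end Ex

/-- positive weight with the FKG lattice condition -/
structure Latt (u : Finset α) (w : Finset α → ℝ) : Prop where
  nonneg : ∀ s, 0 ≤ w s
  pos : ∀ s, s ⊆ u → 0 < w s
  lat : ∀ s, s ⊆ u → ∀ t, t ⊆ u → w s * w t ≤ w (s ∩ t) * w (s ∪ t)

/-- restricted weight -/
noncomputable def rw' (w : Finset α → ℝ) (S η s : Finset α) : ℝ :=
  if s ∩ S = η ∩ S then w s else 0

/-- conditional expectation -/
noncomputable def cE (u : Finset α) (w : Finset α → ℝ) (S : Finset α) (f : Finset α → ℝ)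
    (η : Finset α) : ℝ := Ex u (rw' w S η) f

lemma ag_insert {e : α} {S : Finset α} (he : e ∉ S) (s η : Finset α) :
    s ∩ insert e S = insert e η ∩ insert e S ↔ s ∩ S = η ∩ S ∧ e ∈ s := by
  simp only [Finset.ext_iff, mem_inter, mem_insert]
  constructor
  · intro h
    refine ⟨fun a => ?_, by simpa using h e⟩
    have := h a
    by_cases ha : a = e
    · subst ha; simp [he]
    · simpa [ha] using this
  · rintro ⟨h, h'⟩ a
    by_cases ha : a = e
    · subst ha; simp [h']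
    · simpa [ha] using h a

lemma ag_erase {e : α} {S : Finset α} (he : e ∉ S) (s η : Finset α) :
    s ∩ insert e S = η.erase e ∩ insert e S ↔ s ∩ S = η ∩ S ∧ e ∉ s := by
  simp only [Finset.ext_iff, mem_inter, mem_insert, mem_erase]
  constructor
  · intro h
    refine ⟨fun a => ?_, by simpa using h e⟩
    have := h a
    by_cases ha : a = e
    · subst ha; simp [he]
    · simpa [ha] using this
  · rintro ⟨h, h'⟩ a
    by_cases ha : a = e
    · subst ha; simp [h']
    · simpa [ha] using h a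

lemma op_le {p P P' a1 b1 a0 b0 a1' b1' a0' b0' : ℝ} (hp0 : 0 ≤ p) (hp1 : p ≤ 1) (hP0 : 0 ≤ P)
    (hP1 : P' ≤ 1) (hPP : P ≤ P') (h1 : a1 ≤ a1') (h2 : b1 ≤ b1') (h3 : a0 ≤ a0') (h4 : b0 ≤ b0')
    (h5 : b1' ≤ a1') (h6 : b0' ≤ a0') :
    p * b1 + (1 - p) * b0 + min p P * (a1 - b1) + (P - min p P) * (a0 - b0) ≤
      p * b1' + (1 - p) * b0' + min p P' * (a1' - b1') + (P' - min p P') * (a0' - b0') := by
  have m1 : 0 ≤ min p P := le_min hp0 hP0
  have m2 : min p P ≤ p := min_le_left _ _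
  have m3 : min p P ≤ P := min_le_right _ _
  have m4 : 0 ≤ 1 - p - P + min p P := by
    rcases le_total p P with h | h
    · rw [min_eq_left h]; linarith
    · rw [min_eq_right h]; linarith
  have m5 : min p P ≤ min p P' := min_le_min_left _ hPP
  have m6 : P - min p P ≤ P' - min p P' := by
    rcases le_total p P with h | h
    · rw [min_eq_left h, min_eq_left (h.trans hPP)]; linarith
    · rw [min_eq_right h]; linarith [min_le_right p P']
  have e1 := mul_le_mul_of_nonneg_left h1 m1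
  have e2 := mul_le_mul_of_nonneg_left h2 (sub_nonneg.2 m2)
  have e3 := mul_le_mul_of_nonneg_left h3 (sub_nonneg.2 m3)
  have e4 := mul_le_mul_of_nonneg_left h4 m4
  have e5 := mul_le_mul_of_nonneg_right m5 (sub_nonneg.2 h5)
  have e6 := mul_le_mul_of_nonneg_right m6 (sub_nonneg.2 h6)
  nlinarith

namespace Latt

variable {u : Finset α} {w : Finset α → ℝ} (h : Latt u w)
include h

lemma Zpos : 0 < ∑ s ∈ u.powerset, w s :=
  sum_pos (fun s hs => h.pos s (mem_powerset.1 hs)) ⟨∅, by simp⟩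

lemma fkg {f g : Finset α → ℝ} (hf : Monotone f) (hg : Monotone g) :
    Ex u w f * Ex u w g ≤ Ex u w (fun s => f s * g s) := by
  have f0 : ∀ s, 0 ≤ f s - f ∅ := fun s => sub_nonneg.2 (hf (empty_subset s))
  have g0 : ∀ s, 0 ≤ g s - g ∅ := fun s => sub_nonneg.2 (hg (empty_subset s))
  have hZ := h.Zpos
  have key : Ex u w (fun s => f s - f ∅) * Ex u w (fun s => g s - g ∅) ≤
      Ex u w (fun s => (f s - f ∅) * (g s - g ∅)) := by
    unfold Ex
    rw [div_mul_div_comm, div_le_div_iff₀ (mul_pos hZ hZ) hZ, ← mul_assoc]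
    refine mul_le_mul_of_nonneg_right ?_ hZ.le
    rw [mul_comm _ (∑ s ∈ u.powerset, w s)]
    refine ad u (fun s => mul_nonneg (h.nonneg s) (f0 s)) (fun s => mul_nonneg (h.nonneg s) (g0 s))
      h.nonneg (fun s => mul_nonneg (h.nonneg s) (mul_nonneg (f0 s) (g0 s))) fun s hs t ht => ?_
    have h3 : f s - f ∅ ≤ f (s ∪ t) - f ∅ := sub_le_sub_right (hf subset_union_left) _
    have h4 : g t - g ∅ ≤ g (s ∪ t) - g ∅ := sub_le_sub_right (hg subset_union_right) _
    calc w s * (f s - f ∅) * (w t * (g t - g ∅)) = w s * w t * ((f s - f ∅) * (g t - g ∅)) := by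
          ring
      _ ≤ w (s ∩ t) * w (s ∪ t) * ((f (s ∪ t) - f ∅) * (g (s ∪ t) - g ∅)) :=
        mul_le_mul (h.lat s hs t ht) (mul_le_mul h3 h4 (g0 _) (f0 _))
          (mul_nonneg (f0 s) (g0 t)) (mul_nonneg (h.nonneg _) (h.nonneg _))
      _ = _ := by ring
  have e : (fun s => (f s - f ∅) * (g s - g ∅)) =
      fun s => (f s * g s - g ∅ * f s) - (f ∅ * g s - f ∅ * g ∅) := by
    funext s; ring
  rw [e, Ex_sub, Ex_sub, Ex_sub, Ex_sub, Ex_sub, Ex_mul, Ex_mul, Ex_const hZ, Ex_const hZ,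
    Ex_const hZ] at key
  linarith

lemma rw_nonneg (S η s : Finset α) : 0 ≤ rw' w S η s := by
  unfold rw'; split_ifs
  · exact h.nonneg s
  · exact le_rfl

lemma rw_Zpos {S : Finset α} (hS : S ⊆ u) (η : Finset α) :
    0 < ∑ s ∈ u.powerset, rw' w S η s := by
  refine sum_pos' (fun s _ => h.rw_nonneg S η s)
    ⟨η ∩ S, mem_powerset.2 (inter_subset_right.trans hS), ?_⟩
  simp only [rw', inter_assoc, inter_self, if_true]
  exact h.pos _ (inter_subset_right.trans hS)

lemma cE_mono {S : Finset α} (hS : S ⊆ u) {f : Finset α → ℝ} (hf : Monotone f) :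
    Monotone (cE u w S f) := by
  intro η η' hη
  refine holley (h.rw_nonneg S η) (h.rw_nonneg S η') (h.rw_Zpos hS η) (h.rw_Zpos hS η')
    (fun s hs t ht => ?_) hf
  by_cases h1 : s ∩ S = η ∩ S
  · by_cases h2 : t ∩ S = η' ∩ S
    · have h3 : (s ∩ t) ∩ S = η ∩ S := by
        rw [inter_inter_distrib_right, h1, h2, ← inter_inter_distrib_right, inter_eq_left.2 hη]
      have h4 : (s ∪ t) ∩ S = η' ∩ S := by
        rw [union_inter_distrib_right, h1, h2, ← union_inter_distrib_right, union_eq_right.2 hη]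
      simp only [rw', h1, h2, h3, h4, if_true]
      exact h.lat s hs t ht
    · have : rw' w S η' t = 0 := by simp [rw', h2]
      rw [this, mul_zero]
      exact mul_nonneg (h.rw_nonneg _ _ _) (h.rw_nonneg _ _ _)
  · have : rw' w S η s = 0 := by simp [rw', h1]
    rw [this, zero_mul]
    exact mul_nonneg (h.rw_nonneg _ _ _) (h.rw_nonneg _ _ _)

omit h in
lemma cE_congr {S η : Finset α} {f g : Finset α → ℝ}
    (hfg : ∀ s, s ⊆ u → s ∩ S = η ∩ S → f s = g s) : cE u w S f η = cE u w S g η :=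
  Ex_congr' fun s hs h0 => hfg s hs (by by_contra h1; simp [rw', h1] at h0)

lemma cE_eq {S η : Finset α} (hS : S ⊆ u) {f : Finset α → ℝ} {c : ℝ}
    (hf : ∀ s, s ⊆ u → s ∩ S = η ∩ S → f s = c) : cE u w S f η = c :=
  (cE_congr (g := fun _ => c) hf).trans (Ex_const (h.rw_Zpos hS η) c)

omit h in
lemma cE_meas {S s t : Finset α} (hst : s ∩ S = t ∩ S) (f : Finset α → ℝ) :
    cE u w S f s = cE u w S f t := by
  unfold cE rw'
  rw [hst]

lemma Ex_cE {S : Finset α} (hS : S ⊆ u) (f : Finset α → ℝ) : Ex u w (cE u w S f) = Ex u w f := by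
  unfold cE Ex
  congr 1
  simp only [sum_div, mul_sum]
  rw [sum_comm]
  refine sum_congr rfl fun t _ => ?_
  have hZ := h.rw_Zpos hS t
  have e : ∀ s ∈ u.powerset, w s * (rw' w S s t * f t / ∑ r ∈ u.powerset, rw' w S s r) =
      rw' w S t s * (w t * f t / ∑ r ∈ u.powerset, rw' w S t r) := by
    intro s _
    by_cases h1 : s ∩ S = t ∩ S
    · simp only [rw', h1, if_true]
    · have h2 : ¬t ∩ S = s ∩ S := fun h => h1 h.symm
      simp only [rw', h1, h2, if_false, zero_mul, zero_div, mul_zero]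
  rw [sum_congr rfl e, ← sum_mul]
  field_simp

lemma cE_split {S : Finset α} (hS : S ⊆ u) {e : α} (heu : e ∈ u) (he : e ∉ S)
    (f : Finset α → ℝ) (η : Finset α) :
    cE u w S f η = cE u w S (ind e) η * cE u w (insert e S) f (insert e η) +
      (1 - cE u w S (ind e) η) * cE u w (insert e S) f (η.erase e) := by
  have hS' : insert e S ⊆ u := insert_subset heu hS
  have Z1 := h.rw_Zpos hS' (insert e η)
  have Z0 := h.rw_Zpos hS' (η.erase e)
  have e1 : ∀ s, rw' w S η s = rw' w (insert e S) (insert e η) s +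
      rw' w (insert e S) (η.erase e) s := by
    intro s
    simp only [rw', ag_insert he, ag_erase he]
    by_cases h1 : s ∩ S = η ∩ S <;> by_cases h2 : e ∈ s <;> simp [h1, h2]
  have e2 : ∀ s, rw' w S η s * ind e s = rw' w (insert e S) (insert e η) s := by
    intro s
    simp only [rw', ag_insert he, ind]
    by_cases h1 : s ∩ S = η ∩ S <;> by_cases h2 : e ∈ s <;> simp [h1, h2]
  unfold cE Ex
  simp only [e2]
  simp only [e1, add_mul, sum_add_distrib]
  field_simp
  ring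

lemma cE_ind_nonneg (S : Finset α) (e : α) (η : Finset α) : 0 ≤ cE u w S (ind e) η :=
  Ex_nonneg (h.rw_nonneg S η) fun s _ => ind_nonneg e s

lemma cE_ind_le {S : Finset α} (hS : S ⊆ u) (e : α) (η : Finset α) : cE u w S (ind e) η ≤ 1 :=
  Ex_le (h.rw_nonneg S η) (h.rw_Zpos hS η) fun s _ => ind_le e s

lemma cov_ge {S : Finset α} (hS : S ⊆ u) {e : α} (heu : e ∈ u) (he : e ∉ S) {f : Finset α → ℝ}
    (hf : Monotone f) :
    Ex u w (fun η => cE u w S (ind e) η * (1 - cE u w S (ind e) η) *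
      (cE u w (insert e S) f (insert e η) - cE u w (insert e S) f (η.erase e))) ≤
      Ex u w (fun s => f s * ind e s) - Ex u w f * Ex u w (ind e) := by
  have hS' : insert e S ⊆ u := insert_subset heu hS
  have h1 := h.fkg (h.cE_mono hS hf) (h.cE_mono hS (ind_mono e))
  rw [h.Ex_cE hS, h.Ex_cE hS] at h1
  rw [← h.Ex_cE hS (fun s => f s * ind e s)]
  refine le_trans (le_of_eq ?_) (sub_le_sub_left h1 _)
  rw [← Ex_sub]
  refine Ex_congr fun η _ => ?_
  have e1 : cE u w (insert e S) (fun s => f s * ind e s) (insert e η) =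
      cE u w (insert e S) f (insert e η) :=
    cE_congr fun s _ hs => by simp [ind, ((ag_insert he s η).1 hs).2]
  have e2 : cE u w (insert e S) (fun s => f s * ind e s) (η.erase e) = 0 :=
    h.cE_eq hS' fun s _ hs => by simp [ind, ((ag_erase he s η).1 hs).2]
  rw [h.cE_split hS heu he (fun s => f s * ind e s), h.cE_split hS heu he f, e1, e2]
  ring

lemma osss_aux {f g : Finset α → ℝ} (hf : Monotone f) (R : α → Finset α → ℝ)
    (hR0 : ∀ e s, 0 ≤ R e s)
    (hR : ∀ S, S ⊆ u → ∀ ξ : Finset α,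
      (∃ c, 0 ≤ c ∧ c ≤ 1 ∧ ∀ s, s ⊆ u → s ∩ S = ξ ∩ S → g s = c) ∨
        ∃ e ∈ u, e ∉ S ∧ ∀ s, s ⊆ u → s ∩ S = ξ ∩ S → R e s = 1)
    (n : ℕ) : ∀ S, S ⊆ u → (u \ S).card = n → ∀ ξ : Finset α, ∃ H : Finset α → ℝ,
      (∀ s t, s ∩ S = t ∩ S → H s = H t) ∧ H ξ = cE u w S (fun s => f s * g s) ξ ∧ Monotone H ∧
      Monotone (fun s => cE u w S f s - H s) ∧
      Ex u w H - cE u w S g ξ * Ex u w f ≤ ∑ e ∈ u \ S, cE u w S (R e) ξ *
        (Ex u w (fun s => f s * ind e s) - Ex u w f * Ex u w (ind e)) := by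
  induction n using Nat.strong_induction_on with
  | _ n ih =>
  intro S hS hn ξ
  rcases hR S hS ξ with ⟨c, hc0, hc1, hc⟩ | ⟨e, heu, he, hRe⟩
  · refine ⟨fun s => c * cE u w S f s, fun s t hst => by simp only [cE_meas hst], ?_, ?_, ?_, ?_⟩
    · rw [cE_congr (g := fun s => c * f s) (fun s hs h1 => by rw [hc s hs h1, mul_comm])]
      exact (Ex_mul c f).symm
    · exact fun s t hst => mul_le_mul_of_nonneg_left (h.cE_mono hS hf hst) hc0
    · intro s t hst
      have := mul_le_mul_of_nonneg_left (h.cE_mono hS hf hst) (sub_nonneg.2 hc1)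
      beta_reduce
      linarith
    · rw [Ex_mul, h.Ex_cE hS, h.cE_eq hS hc, sub_self]
      exact sum_nonneg fun e _ => mul_nonneg (Ex_nonneg (h.rw_nonneg S ξ) fun s _ => hR0 e s)
        (sub_nonneg.2 (h.fkg hf (ind_mono e)))
  have hS' : insert e S ⊆ u := insert_subset heu hS
  have hmem : e ∈ u \ S := mem_sdiff.2 ⟨heu, he⟩
  have hsd : u \ insert e S = (u \ S).erase e := by
    ext a; simp only [mem_sdiff, mem_insert, mem_erase]; tauto
  have hlt : (u \ insert e S).card < n := by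
    rw [hsd, ← hn]; exact card_erase_lt_of_mem hmem
  obtain ⟨H1, m1, a1, b1, d1, c1⟩ := ih _ hlt (insert e S) hS' rfl (insert e ξ)
  obtain ⟨H0, m0, a0, b0, d0, c0⟩ := ih _ hlt (insert e S) hS' rfl (ξ.erase e)
  set P := cE u w S (ind e) with hP
  set p := P ξ with hp
  set F := cE u w (insert e S) f with hF
  have P0 : ∀ η, 0 ≤ P η := h.cE_ind_nonneg S e
  have P1 : ∀ η, P η ≤ 1 := h.cE_ind_le hS e
  have Pm : Monotone P := h.cE_mono hS (ind_mono e)
  let op : (Finset α → ℝ) → (Finset α → ℝ) → Finset α → ℝ := fun A1 A0 η =>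
    p * A1 (η.erase e) + (1 - p) * A0 (η.erase e) +
      min p (P η) * (A1 (insert e η) - A1 (η.erase e)) +
      (P η - min p (P η)) * (A0 (insert e η) - A0 (η.erase e))
  have hle : ∀ η : Finset α, η.erase e ≤ insert e η := fun η =>
    (erase_subset e η).trans (subset_insert e η)
  have opm : ∀ A1 A0, Monotone A1 → Monotone A0 → Monotone (op A1 A0) := by
    intro A1 A0 hA1 hA0 η η' hη
    exact op_le (P0 ξ) (P1 ξ) (P0 η) (P1 η') (Pm hη) (hA1 (insert_subset_insert e hη))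
      (hA1 (erase_subset_erase e hη)) (hA0 (insert_subset_insert e hη))
      (hA0 (erase_subset_erase e hη)) (hA1 (hle η')) (hA0 (hle η'))
  have split := h.cE_split hS heu he
  refine ⟨op H1 H0, fun s t hst => ?_, ?_, opm _ _ b1 b0, ?_, ?_⟩
  · have e1 : insert e s ∩ insert e S = insert e t ∩ insert e S := by
      rw [ag_insert he]
      refine ⟨?_, mem_insert_self _ _⟩
      rw [insert_inter_of_notMem he, hst]
    have e2 : s.erase e ∩ insert e S = t.erase e ∩ insert e S := by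
      rw [ag_erase he]
      refine ⟨?_, notMem_erase _ _⟩
      rw [← hst, erase_inter, erase_eq_of_notMem (fun h => he (mem_inter.1 h).2)]
    simp only [op, hP, cE_meas hst, m1 _ _ e1, m1 _ _ e2, m0 _ _ e1, m0 _ _ e2]
  · rw [split (fun s => f s * g s) ξ, ← a1, ← a0]
    simp only [op, ← hp, ← hP, min_self]
    ring
  · have : (fun s => cE u w S f s - op H1 H0 s) =
        op (fun s => F s - H1 s) (fun s => F s - H0 s) := by
      funext η
      rw [split f η]
      simp only [op, ← hP, ← hF]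
      ring
    rw [this]
    exact opm _ _ d1 d0
  · have k1 : ∀ η, cE u w (insert e S) H1 η = H1 η := fun η =>
      h.cE_eq hS' fun s _ hs => m1 _ _ hs
    have k0 : ∀ η, cE u w (insert e S) H0 η = H0 η := fun η =>
      h.cE_eq hS' fun s _ hs => m0 _ _ hs
    have k2 : Ex u w (op H1 H0) ≤ Ex u w (fun η => (p * cE u w S H1 η + (1 - p) * cE u w S H0 η) +
        P η * (1 - P η) * (F (insert e η) - F (η.erase e))) := by
      refine Ex_mono h.nonneg fun η _ => ?_
      rw [split H1 η, split H0 η, k1, k1, k0, k0]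
      simp only [op, ← hP]
      have q1 := d1 (hle η)
      have q0 := b0 (hle η)
      have q2 := b1 (hle η)
      simp only at q1
      have g0 : 0 ≤ min p (P η) - p * P η := by
        rcases le_total p (P η) with h | h
        · rw [min_eq_left h]; nlinarith [P0 ξ, P1 η]
        · rw [min_eq_right h]; nlinarith [P0 η, P1 ξ]
      have g1 : min p (P η) - p * P η ≤ P η * (1 - P η) := by
        rcases le_total p (P η) with h | h
        · rw [min_eq_left h]; nlinarith [P1 η]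
        · rw [min_eq_right h]; nlinarith [P0 η]
      have g2 := mul_le_mul g1 (show (H1 (insert e η) - H1 (η.erase e)) ≤
        F (insert e η) - F (η.erase e) by linarith) (by linarith)
        (mul_nonneg (P0 η) (sub_nonneg.2 (P1 η)))
      have g3 := mul_nonneg g0 (sub_nonneg.2 q0)
      nlinarith
    rw [Ex_add (fun η => p * cE u w S H1 η + (1 - p) * cE u w S H0 η),
      Ex_add (fun η => p * cE u w S H1 η), Ex_mul, Ex_mul, h.Ex_cE hS, h.Ex_cE hS] at k2
    have k3 := h.cov_ge hS heu he hf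
    rw [← add_sum_erase _ _ hmem, ← hsd, h.cE_eq hS hRe, one_mul, split g ξ]
    have k4 : ∑ e' ∈ u \ insert e S, cE u w S (R e') ξ *
        (Ex u w (fun s => f s * ind e' s) - Ex u w f * Ex u w (ind e')) =
        p * ∑ e' ∈ u \ insert e S, cE u w (insert e S) (R e') (insert e ξ) *
          (Ex u w (fun s => f s * ind e' s) - Ex u w f * Ex u w (ind e')) +
        (1 - p) * ∑ e' ∈ u \ insert e S, cE u w (insert e S) (R e') (ξ.erase e) *
          (Ex u w (fun s => f s * ind e' s) - Ex u w f * Ex u w (ind e')) := by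
      rw [mul_sum, mul_sum, ← sum_add_distrib]
      refine sum_congr rfl fun e' _ => ?_
      rw [split (R e') ξ]
      ring
    rw [k4]
    have k5 := mul_le_mul_of_nonneg_left c1 (P0 ξ)
    have k6 := mul_le_mul_of_nonneg_left c0 (sub_nonneg.2 (P1 ξ))
    simp only [← hP, ← hp, ← hF] at k3 k5 k6 ⊢
    nlinarith

theorem osss {f g : Finset α → ℝ} (hf : Monotone f) (R : α → Finset α → ℝ)
    (hR0 : ∀ e s, 0 ≤ R e s)
    (hR : ∀ S, S ⊆ u → ∀ ξ : Finset α,
      (∃ c, 0 ≤ c ∧ c ≤ 1 ∧ ∀ s, s ⊆ u → s ∩ S = ξ ∩ S → g s = c) ∨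
        ∃ e ∈ u, e ∉ S ∧ ∀ s, s ⊆ u → s ∩ S = ξ ∩ S → R e s = 1) :
    Ex u w (fun s => f s * g s) - Ex u w g * Ex u w f ≤ ∑ e ∈ u, Ex u w (R e) *
        (Ex u w (fun s => f s * ind e s) - Ex u w f * Ex u w (ind e)) := by
  obtain ⟨H, m, a, -, -, c⟩ := h.osss_aux hf R hR0 hR _ ∅ (empty_subset u) rfl ∅
  have e : ∀ A : Finset α → ℝ, cE u w ∅ A ∅ = Ex u w A := by
    intro A
    unfold cE rw'
    simp
  have e2 : Ex u w H = Ex u w (fun s => f s * g s) := by
    rw [← e (fun s => f s * g s), ← a, ← Ex_const h.Zpos (H ∅)]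
    exact Ex_congr fun s _ => m _ _ (by simp)
  simpa only [e, e2, sdiff_empty] using c

end Latt

end Pool.Agent.P.MP_5c18f4_pr
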