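import Pool.Agent.P.MP_5c18f4_pr.Cluster
import Pool.Agent.P.MP_5c18f4_pr.OSSS

open Finset

namespace Pool.Agent.P.MP_5c18f4_pr

variable {d : ℕ}

/-- the edges inside `Λ` -/
def edges (Λ : Finset (Site d)) : Finset (Sym2 (Site d)) := Λ.sym2.filter fun e => ¬e.IsDiag

/-- coupling of an edge -/
noncomputable def edgeJ (J : Site d → ℝ) : Sym2 (Site d) → ℝ :=
  Sym2.lift ⟨fun x y => (J (x - y) + J (y - x)) / 2, fun _ _ => congrArg (· / 2) (add_comm _ _)⟩

/-- product part of the weight -/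
noncomputable def pw (J : Site d → ℝ) (β : ℝ) (ω : Finset (Sym2 (Site d))) : ℝ :=
  ∏ e ∈ ω, (Real.exp (β * edgeJ J e) - 1)

/-- FK weight -/
noncomputable def fw (J : Site d → ℝ) (q β : ℝ) (Λ : Finset (Site d))
    (ω : Finset (Sym2 (Site d))) : ℝ := pw J β ω * q ^ kk Λ ω

lemma fkExp_eq (J : Site d → ℝ) (q β : ℝ) (Λ : Finset (Site d)) (F : Finset (Sym2 (Site d)) → ℝ) :
    fkExp J q β Λ F = Ex (edges Λ) (fw J q β Λ) F := rfl

/-- hypotheses on the coupling -/
structure JOK (J : Site d → ℝ) : Prop where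
  nonneg : ∀ x, 0 ≤ J x
  pos : ∀ x, x ≠ 0 → 0 < J x
  le_one : ∀ x, J x ≤ 1

lemma edges_subset (Λ : Finset (Site d)) : edges Λ ⊆ Λ.sym2 := filter_subset _ _

lemma edges_mono {Λ Λ' : Finset (Site d)} (h : Λ ⊆ Λ') : edges Λ ⊆ edges Λ' :=
  filter_subset_filter _ (sym2_mono h)

lemma mk_mem_edges {Λ : Finset (Site d)} {x y : Site d} :
    s(x, y) ∈ edges Λ ↔ x ∈ Λ ∧ y ∈ Λ ∧ x ≠ y := by
  simp [edges, and_assoc]

lemma edgeJ_mk (J : Site d → ℝ) (x y : Site d) : edgeJ J s(x, y) = (J (x - y) + J (y - x)) / 2 :=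
  rfl

lemma edges_image (τ : Site d ≃ Site d) (Λ : Finset (Site d)) :
    edges (Λ.image τ) = (edges Λ).image (Sym2.map τ) := by
  unfold edges
  rw [sym2_image, filter_image]
  congr 1
  exact filter_congr fun e _ => by rw [Sym2.isDiag_map τ.injective]

lemma fkExp_map {J : Site d → ℝ} (τ : Site d ≃ Site d) (hτ : ∀ x y, J (τ x - τ y) = J (x - y))
    (q β : ℝ) (Λ : Finset (Site d)) (F : Finset (Sym2 (Site d)) → ℝ) :
    fkExp J q β (Λ.image τ) F = fkExp J q β Λ fun ω => F (ω.image (Sym2.map τ)) := by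
  have hi := Sym2.map.injective τ.injective
  have h1 : ∀ e, edgeJ J (Sym2.map τ e) = edgeJ J e := by
    intro e
    induction e using Sym2.ind with
    | _ x y => simp only [Sym2.map_mk, edgeJ_mk, hτ]
  have h2 : ∀ ω, fw J q β (Λ.image τ) (ω.image (Sym2.map τ)) = fw J q β Λ ω := by
    intro ω
    simp only [fw, pw, kk_map, prod_image (fun a _ b _ h => hi h), h1]
  simp only [fkExp_eq, Ex, edges_image, powerset_image,
    sum_image (fun a _ b _ h => image_injective hi h), h2]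

namespace JOK

variable {J : Site d → ℝ} (hJ : JOK J)
include hJ

lemma edgeJ_nonneg (e : Sym2 (Site d)) : 0 ≤ edgeJ J e := by
  induction e using Sym2.ind with
  | _ x y => rw [edgeJ_mk]; linarith [hJ.nonneg (x - y), hJ.nonneg (y - x)]

lemma edgeJ_le (e : Sym2 (Site d)) : edgeJ J e ≤ 1 := by
  induction e using Sym2.ind with
  | _ x y => rw [edgeJ_mk]; linarith [hJ.le_one (x - y), hJ.le_one (y - x)]

lemma edgeJ_pos {Λ : Finset (Site d)} {e : Sym2 (Site d)} (he : e ∈ edges Λ) : 0 < edgeJ J e := by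
  induction e using Sym2.ind with
  | _ x y =>
    rw [edgeJ_mk]
    linarith [hJ.pos (x - y) (sub_ne_zero.2 (mk_mem_edges.1 he).2.2), hJ.nonneg (y - x)]

lemma fac_nonneg {β : ℝ} (hβ : 0 ≤ β) (e : Sym2 (Site d)) : 0 ≤ Real.exp (β * edgeJ J e) - 1 :=
  sub_nonneg.2 (Real.one_le_exp (mul_nonneg hβ (hJ.edgeJ_nonneg e)))

lemma fac_pos {β : ℝ} (hβ : 0 < β) {Λ : Finset (Site d)} {e : Sym2 (Site d)} (he : e ∈ edges Λ) :
    0 < Real.exp (β * edgeJ J e) - 1 :=
  sub_pos.2 (Real.one_lt_exp_iff.2 (mul_pos hβ (hJ.edgeJ_pos he)))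

lemma pw_nonneg {β : ℝ} (hβ : 0 ≤ β) (ω : Finset (Sym2 (Site d))) : 0 ≤ pw J β ω :=
  prod_nonneg fun e _ => hJ.fac_nonneg hβ e

lemma pw_pos {β : ℝ} (hβ : 0 < β) {Λ : Finset (Site d)} {ω : Finset (Sym2 (Site d))}
    (hω : ω ⊆ edges Λ) : 0 < pw J β ω := prod_pos fun _ he => hJ.fac_pos hβ (hω he)

lemma pw_mono {a b : ℝ} (ha : 0 ≤ a) (hab : a ≤ b) (ω : Finset (Sym2 (Site d))) :
    pw J a ω ≤ pw J b ω :=
  prod_le_prod (fun e _ => hJ.fac_nonneg ha e) fun e _ => sub_le_sub_right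
    (Real.exp_le_exp.2 (mul_le_mul_of_nonneg_right hab (hJ.edgeJ_nonneg e))) 1

lemma pw_ratio {a b : ℝ} (ha : 0 < a) (hab : a ≤ b) (ω : Finset (Sym2 (Site d))) :
    pw J b ω ≤ (1 + (b - a) * Real.exp b / a) ^ ω.card * pw J a ω := by
  unfold pw
  rw [← prod_const, ← prod_mul_distrib]
  refine prod_le_prod (fun e _ => hJ.fac_nonneg (ha.le.trans hab) e) fun e _ => ?_
  have h0 := hJ.edgeJ_nonneg e
  have h1 := hJ.edgeJ_le e
  set t := edgeJ J e
  have e1 : a * t ≤ Real.exp (a * t) - 1 := by linarith [Real.add_one_le_exp (a * t)]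
  have e2 : Real.exp (b * t) * (1 - (b - a) * t) ≤ Real.exp (a * t) := by
    have := Real.add_one_le_exp (-((b - a) * t))
    calc Real.exp (b * t) * (1 - (b - a) * t) ≤ Real.exp (b * t) * Real.exp (-((b - a) * t)) :=
          mul_le_mul_of_nonneg_left (by linarith) (Real.exp_pos _).le
      _ = Real.exp (a * t) := by rw [← Real.exp_add]; congr 1; ring
  have e3 : Real.exp (b * t) ≤ Real.exp b := Real.exp_le_exp.2 (by nlinarith)
  have e4 : (b - a) * t * Real.exp (b * t) ≤ (b - a) * Real.exp b / a * (a * t) := by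
    have : (b - a) * Real.exp b / a * (a * t) = (b - a) * t * Real.exp b := by field_simp
    rw [this]
    exact mul_le_mul_of_nonneg_left e3 (mul_nonneg (by linarith) h0)
  have e5 : (b - a) * Real.exp b / a * (a * t) ≤
      (b - a) * Real.exp b / a * (Real.exp (a * t) - 1) :=
    mul_le_mul_of_nonneg_left e1 (div_nonneg (mul_nonneg (by linarith) (Real.exp_pos _).le) ha.le)
  nlinarith

variable {q : ℝ} (hq : 1 ≤ q)
include hq

lemma fw_nonneg {β : ℝ} (hβ : 0 ≤ β) (Λ : Finset (Site d)) (ω : Finset (Sym2 (Site d))) :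
    0 ≤ fw J q β Λ ω := mul_nonneg (hJ.pw_nonneg hβ ω) (pow_nonneg (by linarith) _)

lemma fw_lat {a b : ℝ} (ha : 0 ≤ a) (hab : a ≤ b) {Λ : Finset (Site d)}
    {s t : Finset (Sym2 (Site d))} (hs : s ⊆ edges Λ) (ht : t ⊆ edges Λ) :
    fw J q a Λ s * fw J q b Λ t ≤ fw J q a Λ (s ∩ t) * fw J q b Λ (s ∪ t) := by
  have h1 : pw J a s * pw J b t ≤ pw J a (s ∩ t) * pw J b (s ∪ t) := by
    have e1 : pw J a s = pw J a (s ∩ t) * pw J a (s \ t) := (prod_inter_mul_prod_sdiff s t _).symm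
    have e2 : pw J b (s ∪ t) = pw J b (s \ t) * pw J b t := by
      unfold pw
      rw [← prod_union sdiff_disjoint, sdiff_union_self_eq_union]
    rw [e1, e2, mul_assoc]
    exact mul_le_mul_of_nonneg_left (mul_le_mul_of_nonneg_right (hJ.pw_mono ha hab _)
      (hJ.pw_nonneg (ha.trans hab) _)) (hJ.pw_nonneg ha _)
  have h2 : q ^ kk Λ s * q ^ kk Λ t ≤ q ^ kk Λ (s ∩ t) * q ^ kk Λ (s ∪ t) := by
    rw [← pow_add, ← pow_add]
    exact pow_le_pow_right₀ hq
      (kk_supermod (hs.trans (edges_subset Λ)) (ht.trans (edges_subset Λ)))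
  have h3 : (0 : ℝ) ≤ q := by linarith
  unfold fw
  rw [mul_mul_mul_comm, mul_mul_mul_comm (pw J a (s ∩ t))]
  exact mul_le_mul h1 h2 (by positivity)
    (mul_nonneg (hJ.pw_nonneg ha _) (hJ.pw_nonneg (ha.trans hab) _))

lemma latt {β : ℝ} (hβ : 0 < β) (Λ : Finset (Site d)) : Latt (edges Λ) (fw J q β Λ) :=
  ⟨hJ.fw_nonneg hq hβ.le Λ, fun _ hs => mul_pos (hJ.pw_pos hβ hs) (pow_pos (by linarith) _),
    fun _ hs _ ht => hJ.fw_lat hq hβ.le le_rfl hs ht⟩

lemma beta_mono {a b : ℝ} (ha : 0 < a) (hab : a ≤ b) (Λ : Finset (Site d))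
    {F : Finset (Sym2 (Site d)) → ℝ} (hF : Monotone F) : fkExp J q a Λ F ≤ fkExp J q b Λ F :=
  holley (hJ.fw_nonneg hq ha.le Λ) (hJ.fw_nonneg hq (ha.le.trans hab) Λ) (hJ.latt hq ha Λ).Zpos
    (hJ.latt hq (ha.trans_le hab) Λ).Zpos (fun _ hs _ ht => hJ.fw_lat hq ha.le hab hs ht) hF

lemma vol_mono {β : ℝ} (hβ : 0 < β) {Λ Λ' : Finset (Site d)} (h : Λ ⊆ Λ')
    {F : Finset (Sym2 (Site d)) → ℝ} (hF : Monotone F) : fkExp J q β Λ F ≤ fkExp J q β Λ' F := by
  have L := hJ.latt hq hβ Λ'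
  have hc : (0 : ℝ) < q ^ kk (Λ' \ Λ) ∅ := pow_pos (by linarith) _
  have e1 : ∀ G : Finset (Sym2 (Site d)) → ℝ,
      ∑ s ∈ (edges Λ').powerset, (if s ⊆ edges Λ then fw J q β Λ' s else 0) * G s =
        q ^ kk (Λ' \ Λ) ∅ * ∑ s ∈ (edges Λ).powerset, fw J q β Λ s * G s := by
    intro G
    rw [mul_sum, ← sum_subset (powerset_mono.2 (edges_mono h))
      (fun s _ hs => by rw [if_neg (by simpa using hs), zero_mul])]
    refine sum_congr rfl fun s hs => ?_
    have hs' := mem_powerset.1 hs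
    have := kk_union (ω₂ := ∅) h (hs'.trans (edges_subset Λ)) (by simp)
    rw [union_empty] at this
    rw [if_pos hs', fw, fw, this, pow_add]
    ring
  have e2 := e1 fun _ => 1
  simp only [mul_one] at e2
  have e3 : fkExp J q β Λ F =
      Ex (edges Λ') (fun s => if s ⊆ edges Λ then fw J q β Λ' s else 0) F := by
    rw [fkExp_eq, Ex, Ex, e1, e2, mul_div_mul_left _ _ hc.ne']
  rw [e3]
  refine holley (fun s => ?_) L.nonneg ?_ L.Zpos (fun s hs t ht => ?_) hF
  · split_ifs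
    · exact L.nonneg s
    · exact le_rfl
  · rw [e2]; exact mul_pos hc (hJ.latt hq hβ Λ).Zpos
  · by_cases h1 : s ⊆ edges Λ
    · rw [if_pos h1, if_pos (inter_subset_left.trans h1)]
      exact L.lat s hs t ht
    · rw [if_neg h1, zero_mul]
      refine mul_nonneg ?_ (L.nonneg _)
      split_ifs
      · exact L.nonneg _
      · exact le_rfl

lemma ratio_one {a b : ℝ} (ha : 0 < a) (hab : a ≤ b) {Λ : Finset (Site d)} {x : Site d}
    (hx : x ∈ Λ) (C : Finset (Sym2 (Site d))) :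
    fkExp J q b Λ (fun ω => if CE ω x = C then 1 else 0) ≤
      (1 + (b - a) * Real.exp b / a) ^ C.card *
        fkExp J q a Λ (fun ω => if CE ω x = C then 1 else 0) := by
  classical
  have hb := ha.trans_le hab
  by_cases hC : ∃ ω₀ ⊆ edges Λ, CE ω₀ x = C
  swap
  · push Not at hC
    have : ∀ β, fkExp J q β Λ (fun ω => if CE ω x = C then 1 else 0) = 0 := fun β => by
      rw [fkExp_eq, Ex, sum_eq_zero, zero_div]
      intro s hs
      rw [if_neg (hC s (mem_powerset.1 hs)), mul_zero]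
    rw [this, this, mul_zero]
  obtain ⟨ω₀, hω₀, hC⟩ := hC
  have hCE : C ⊆ edges Λ := hC ▸ (CE_subset ω₀ x).trans hω₀
  set V := Λ.filter (· ∈ cluster (C : Set (Sym2 (Site d))) x) with hV
  have hVΛ : V ⊆ Λ := filter_subset _ _
  have hmem : ∀ y, y ∈ V ↔ y ∈ cluster (C : Set (Sym2 (Site d))) x := fun y => by
    rw [hV, mem_filter]
    exact ⟨fun h => h.2, fun h => ⟨cluster_subset_of_sym2 (hCE.trans (edges_subset Λ)) hx h, h⟩⟩
  have hxV : x ∈ V := (hmem x).2 (self_mem_cluster _ _)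
  have hCV : C ⊆ V.sym2 := by
    intro e he
    rw [mem_sym2_iff]
    intro y hy
    rw [hmem, ← hC, cluster_CE]
    exact mem_cluster_of_mem_CE (hC ▸ he) hy
  let D : Finset (Sym2 (Site d)) → Prop := fun s => ∀ e ∈ s, ∀ y ∈ e, y ∉ V
  have hdisj : ∀ s, D s → Disjoint C s := fun s hs => disjoint_left.2 fun e he he' => by
    induction e using Sym2.ind with
    | _ u v => exact hs _ he' u (by simp) (mk_mem_sym2_iff.1 (hCV he)).1
  have hsum : ∀ β, q ^ kk V ∅ * ∑ s ∈ (edges Λ).powerset,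
      fw J q β Λ s * (if CE s x = C then 1 else 0) =
      pw J β C * q ^ kk V C * ∑ s ∈ (edges Λ).powerset, fw J q β Λ s * (if D s then 1 else 0) := by
    intro β
    simp only [mul_ite, mul_one, mul_zero]
    rw [← sum_filter, ← sum_filter, mul_sum, mul_sum]
    symm
    refine sum_bij' (fun s _ => C ∪ s) (fun ω _ => ω \ C) ?_ ?_ ?_ ?_ ?_
    · intro s hs
      obtain ⟨h1, h2⟩ := mem_filter.1 hs
      refine mem_filter.2 ⟨mem_powerset.2 (union_subset hCE (mem_powerset.1 h1)), ?_⟩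
      ext e
      rw [mem_CE, cluster_union_left hCV h2 hxV]
      constructor
      · rintro ⟨h3, y, h4, h5⟩
        exact (mem_union.1 h3).resolve_right fun h => h2 e h y h4 ((hmem y).2 h5)
      · intro he
        refine ⟨mem_union_left _ he, ?_⟩
        induction e using Sym2.ind with
        | _ u v => exact ⟨u, by simp, (hmem u).1 (mk_mem_sym2_iff.1 (hCV he)).1⟩
    · intro ω hω
      obtain ⟨h1, h2⟩ := mem_filter.1 hω
      refine mem_filter.2 ⟨mem_powerset.2 (sdiff_subset.trans (mem_powerset.1 h1)), ?_⟩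
      intro e he y hy hyV
      refine (mem_sdiff.1 he).2 (h2 ▸ mem_CE.2 ⟨(mem_sdiff.1 he).1, y, hy, ?_⟩)
      rw [← cluster_CE, h2]
      exact (hmem y).1 hyV
    · intro s hs
      exact union_sdiff_cancel_left (hdisj s (mem_filter.1 hs).2)
    · intro ω hω
      exact union_sdiff_of_subset ((mem_filter.1 hω).2 ▸ CE_subset ω x)
    · intro s hs
      have h2 := (mem_filter.1 hs).2
      have k1 := kk_union hVΛ hCV h2
      have k2 := kk_union (ω₁ := ∅) hVΛ (empty_subset _) h2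
      rw [empty_union] at k2
      have k3 : pw J β (C ∪ s) = pw J β C * pw J β s := prod_union (hdisj s h2)
      simp only [fw, k1, k2, k3, pow_add]
      ring
  have hq0 : (0 : ℝ) < q := by linarith
  have hE : ∀ β, fkExp J q β Λ (fun ω => if CE ω x = C then 1 else 0) =
      pw J β C * (q ^ kk V C / q ^ kk V ∅) * fkExp J q β Λ (fun s => if D s then 1 else 0) := by
    intro β
    have := hsum β
    rw [fkExp_eq, fkExp_eq, Ex, Ex, ← mul_div_assoc _ _ (∑ s ∈ _, _)]
    congr 1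
    field_simp
    linarith
  have hD : fkExp J q b Λ (fun s => if D s then 1 else 0) ≤
      fkExp J q a Λ (fun s => if D s then 1 else 0) := by
    have := hJ.beta_mono hq ha hab Λ (F := fun s => -1 * (if D s then (1 : ℝ) else 0)) (by
      intro s t hst
      by_cases h : D t
      · have : D s := fun e he => h e (hst he)
        simp [h, this]
      · simp only [h, if_false, mul_zero]
        split_ifs <;> norm_num)
    rw [fkExp_eq, fkExp_eq, Ex_mul, Ex_mul] at this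
    rw [fkExp_eq, fkExp_eq]
    linarith
  have hD0 : 0 ≤ fkExp J q b Λ (fun s => if D s then 1 else 0) :=
    Ex_nonneg (hJ.fw_nonneg hq hb.le Λ) fun s _ => by split_ifs <;> norm_num
  rw [hE, hE, ← mul_assoc, ← mul_assoc]
  have hr : 0 ≤ (1 + (b - a) * Real.exp b / a) ^ C.card * pw J a C :=
    (hJ.pw_nonneg hb.le C).trans (hJ.pw_ratio ha hab C)
  exact mul_le_mul (mul_le_mul_of_nonneg_right (hJ.pw_ratio ha hab C) (by positivity)) hD hD0
    (mul_nonneg hr (by positivity))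

lemma ratio {a b : ℝ} (ha : 0 < a) (hab : a ≤ b) {Λ : Finset (Site d)} {x : Site d}
    (hx : x ∈ Λ) (g : Finset (Sym2 (Site d)) → ℝ) (hg : ∀ C, 0 ≤ g C) :
    fkExp J q b Λ (fun ω => g (CE ω x)) ≤ fkExp J q a Λ
      (fun ω => g (CE ω x) * (1 + (b - a) * Real.exp b / a) ^ (CE ω x).card) := by
  have e : ∀ (β : ℝ) (G : Finset (Sym2 (Site d)) → ℝ), fkExp J q β Λ (fun ω => G (CE ω x)) =
      ∑ C ∈ (edges Λ).powerset, G C * fkExp J q β Λ (fun ω => if CE ω x = C then 1 else 0) := by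
    intro β G
    simp only [fkExp_eq, ← Ex_mul, ← Ex_sum]
    refine Ex_congr fun s hs => ?_
    simp [mem_powerset.2 ((CE_subset s x).trans hs)]
  rw [e b g, e a fun C => g C * (1 + (b - a) * Real.exp b / a) ^ C.card]
  refine sum_le_sum fun C _ => ?_
  rw [mul_assoc]
  exact mul_le_mul_of_nonneg_left (hJ.ratio_one hq ha hab hx C) (hg C)

omit hq in
lemma hasDerivAt_pw {β : ℝ} (hβ : 0 < β) {Λ : Finset (Site d)} {s : Finset (Sym2 (Site d))}
    (hs : s ⊆ edges Λ) : HasDerivAt (fun b => pw J b s) (pw J β s * ∑ e ∈ s,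
      edgeJ J e * Real.exp (β * edgeJ J e) / (Real.exp (β * edgeJ J e) - 1)) β := by
  induction s using Finset.induction with
  | empty => simpa [pw] using hasDerivAt_const β (1 : ℝ)
  | insert e s he ih =>
    have h1 := hJ.fac_pos hβ (hs (mem_insert_self e s))
    have h2 : HasDerivAt (fun b => Real.exp (b * edgeJ J e) - 1)
        (Real.exp (β * edgeJ J e) * edgeJ J e) β :=
      ((hasDerivAt_mul_const (edgeJ J e)).exp).sub_const 1
    have h3 := h2.mul (ih ((subset_insert e s).trans hs))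
    simp only [pw, prod_insert he, sum_insert he] at h3 ⊢
    refine h3.congr_deriv ?_
    field_simp

lemma hasDerivAt_fk {β : ℝ} (hβ : 0 < β) (Λ : Finset (Site d)) (F : Finset (Sym2 (Site d)) → ℝ) :
    HasDerivAt (fun b => fkExp J q b Λ F) (∑ e ∈ edges Λ,
      edgeJ J e * Real.exp (β * edgeJ J e) / (Real.exp (β * edgeJ J e) - 1) *
        (fkExp J q β Λ (fun s => F s * ind e s) - fkExp J q β Λ F * fkExp J q β Λ (ind e))) β := by
  set c : Sym2 (Site d) → ℝ := fun e =>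
    edgeJ J e * Real.exp (β * edgeJ J e) / (Real.exp (β * edgeJ J e) - 1) with hc
  have h1 : ∀ G : Finset (Sym2 (Site d)) → ℝ,
      HasDerivAt (fun b => ∑ s ∈ (edges Λ).powerset, fw J q b Λ s * G s)
        (∑ s ∈ (edges Λ).powerset, fw J q β Λ s * ∑ e ∈ edges Λ, c e * (G s * ind e s)) β := by
    intro G
    refine HasDerivAt.fun_sum fun s hs => ?_
    have hs' := mem_powerset.1 hs
    refine (((hJ.hasDerivAt_pw hβ hs').mul_const (q ^ kk Λ s)).mul_const (G s)).congr_deriv ?_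
    have : ∑ e ∈ edges Λ, c e * (G s * ind e s) = G s * ∑ e ∈ s, c e := by
      rw [mul_sum, ← sum_subset hs' (fun e _ he => by simp [ind, he])]
      exact sum_congr rfl fun e he => by simp [ind, he, mul_comm]
    rw [this, fw]
    ring
  have hZ := (hJ.latt hq hβ Λ).Zpos
  have h2 := h1 fun _ => 1
  simp only [mul_one, one_mul] at h2
  refine ((h1 F).div h2 hZ.ne').congr_deriv ?_
  have e1 : ∑ e ∈ edges Λ, c e *
      (fkExp J q β Λ (fun s => F s * ind e s) - fkExp J q β Λ F * fkExp J q β Λ (ind e)) =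
      fkExp J q β Λ (fun s => ∑ e ∈ edges Λ, c e * (F s * ind e s)) -
        fkExp J q β Λ F * fkExp J q β Λ (fun s => ∑ e ∈ edges Λ, c e * ind e s) := by
    simp only [fkExp_eq, Ex_sum, Ex_mul, mul_sub, sum_sub_distrib, mul_sum]
    congr 1
    exact sum_congr rfl fun e _ => by ring
  rw [e1]
  simp only [fkExp_eq, Ex]
  field_simp

omit hq in
lemma one_le_c {β : ℝ} (hβ : 0 < β) {Λ : Finset (Site d)} {e : Sym2 (Site d)} (he : e ∈ edges Λ) :
    1 ≤ β * (edgeJ J e * Real.exp (β * edgeJ J e) / (Real.exp (β * edgeJ J e) - 1)) := by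
  have h1 := hJ.fac_pos hβ he
  rw [← mul_div_assoc, ← mul_assoc, le_div_iff₀ h1]
  set t := β * edgeJ J e
  have h2 := Real.add_one_le_exp (-t)
  have h3 : Real.exp t * Real.exp (-t) = 1 := by rw [← Real.exp_add]; simp
  nlinarith [Real.exp_pos t]

end JOK

end Pool.Agent.P.MP_5c18f4_pr
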