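import Pool.Agent.P.MP_5c18f4_pr.Rate

open Filter Topology
open scoped ENNReal

namespace Pool.Agent.P.MP_5c18f4_pr

variable {d : ℕ}

lemma exists_eta {f : ℝ × ℝ → ℝ} {l c : ℝ} (hf : ContinuousAt f (l, l)) (h : f (l, l) < c) :
    ∃ η > 0, ∀ a b, |a - l| < η → |b - l| < η → f (a, b) < c := by
  obtain ⟨η, hη, H⟩ := Metric.eventually_nhds_iff.1 (hf.eventually (gt_mem_nhds h))
  refine ⟨η, hη, fun a b ha hb => H ?_⟩
  rw [Prod.dist_eq, Real.dist_eq, Real.dist_eq]
  exact max_lt ha hb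

namespace Walk

/-- weight of a walk -/
noncomputable def wt (J : Site d → ℝ) (l : ℝ) (γ : List (Site d)) : ℝ≥0∞ :=
  (γ.map fun y => ENNReal.ofReal (l * J y)).prod

/-- total weight -/
noncomputable def chi (J : Site d → ℝ) (P : List (Site d) → Prop) (l : ℝ) : ℝ≥0∞ :=
  ∑' γ : {γ : List (Site d) // P γ}, wt J l γ.1

variable {J : Site d → ℝ} {P : List (Site d) → Prop}

lemma walkG_eq (l : ℝ) (x : Site d) :
    walkG J P l x = ∑' γ : {γ : List (Site d) // γ.sum = x ∧ P γ}, wt J l γ.1 := rfl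

lemma wt_append (l : ℝ) (a b : List (Site d)) : wt J l (a ++ b) = wt J l a * wt J l b := by
  simp [wt]

lemma prod_nonneg' (hJ : ∀ x, 0 ≤ J x) (γ : List (Site d)) : 0 ≤ (γ.map J).prod :=
  List.prod_nonneg (by simp only [List.mem_map]; rintro _ ⟨y, _, rfl⟩; exact hJ y)

lemma wt_eq (hJ : ∀ x, 0 ≤ J x) {l : ℝ} (hl : 0 ≤ l) (γ : List (Site d)) :
    wt J l γ = ENNReal.ofReal (l ^ γ.length * (γ.map J).prod) := by
  induction γ with
  | nil => simp [wt]
  | cons y γ ih =>
    have : wt J l (y :: γ) = ENNReal.ofReal (l * J y) * wt J l γ := by simp [wt]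
    rw [this, ih, ← ENNReal.ofReal_mul (mul_nonneg hl (hJ y))]
    congr 1
    simp only [List.length_cons, List.map_cons, List.prod_cons]
    ring

lemma wt_mono (hJ : ∀ x, 0 ≤ J x) {a b : ℝ} (ha : 0 ≤ a) (hab : a ≤ b) (γ : List (Site d)) :
    wt J a γ ≤ wt J b γ := by
  rw [wt_eq hJ ha, wt_eq hJ (ha.trans hab)]
  exact ENNReal.ofReal_le_ofReal
    (mul_le_mul_of_nonneg_right (pow_le_pow_left₀ ha hab _) (prod_nonneg' hJ γ))

lemma walkG_le_chi (l : ℝ) (x : Site d) : walkG J P l x ≤ chi J P l :=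
  ENNReal.tsum_comp_le_tsum_of_injective
    (f := fun γ : {γ : List (Site d) // γ.sum = x ∧ P γ} => (⟨γ.1, γ.2.2⟩ : {γ // P γ}))
    (fun a b h => Subtype.ext (by simpa using h)) (fun γ => wt J l γ.1)

lemma chi_le_tsum (l : ℝ) : chi J P l ≤ ∑' x, walkG J P l x := by
  simp only [walkG_eq]
  rw [← ENNReal.tsum_sigma' (β := fun x => {γ : List (Site d) // γ.sum = x ∧ P γ})
    (fun p => wt J l p.2.1)]
  exact ENNReal.tsum_comp_le_tsum_of_injective
    (f := fun γ : {γ : List (Site d) // P γ} =>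
      (⟨γ.1.sum, ⟨γ.1, rfl, γ.2⟩⟩ : Σ x, {γ : List (Site d) // γ.sum = x ∧ P γ}))
    (fun a b h => Subtype.ext
      (congrArg (fun p : Σ x, {γ : List (Site d) // γ.sum = x ∧ P γ} => p.2.1) h))
    (fun p => wt J l p.2.1)

/-- closure properties of the class of walks -/
structure Hered (P : List (Site d) → Prop) : Prop where
  nil : P []
  single : ∀ x, x ≠ 0 → P [x]
  drop : ∀ γ i, P γ → P (γ.drop i)
  take : ∀ γ i, P γ → P (γ.take i)
  glue : ∀ a b i j, P a → P b → i ≤ a.length → j ≤ b.length →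
    (a.take i).sum = a.sum + (b.take j).sum →
    (∀ i' < i, ∀ j' ≤ b.length, (a.take i').sum ≠ a.sum + (b.take j').sum) →
    P (a.take i ++ b.drop j)

lemma exists_cut (a b : List (Site d)) : ∃ i j, i ≤ a.length ∧ j ≤ b.length ∧
    (a.take i).sum = a.sum + (b.take j).sum ∧
    ∀ i' < i, ∀ j' ≤ b.length, (a.take i').sum ≠ a.sum + (b.take j').sum := by
  classical
  have h : ∃ i, ∃ j ≤ b.length, (a.take i).sum = a.sum + (b.take j).sum :=
    ⟨a.length, 0, Nat.zero_le _, by simp⟩
  obtain ⟨j, hj, e⟩ := Nat.find_spec h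
  refine ⟨Nat.find h, j, Nat.find_min' h ⟨0, Nat.zero_le _, by simp⟩, hj, e,
    fun i' hi' j' hj' e' => Nat.find_min h hi' ⟨j', hj', e'⟩⟩

lemma walkG_mul (hP : Hered P) (l : ℝ) (x y : Site d) :
    walkG J P l x * walkG J P l y ≤ chi J P l * chi J P l * walkG J P l (x + y) := by
  choose i j hi hj he hm using exists_cut (d := d)
  let φ : {γ : List (Site d) // γ.sum = x ∧ P γ} × {γ : List (Site d) // γ.sum = y ∧ P γ} →
      ({γ : List (Site d) // P γ} × {γ : List (Site d) // P γ}) ×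
        {γ : List (Site d) // γ.sum = x + y ∧ P γ} := fun p =>
    ((⟨p.1.1.drop (i p.1.1 p.2.1), hP.drop _ _ p.1.2.2⟩,
      ⟨p.2.1.take (j p.1.1 p.2.1), hP.take _ _ p.2.2.2⟩),
      ⟨p.1.1.take (i p.1.1 p.2.1) ++ p.2.1.drop (j p.1.1 p.2.1), by
        rw [List.sum_append, he, add_assoc, ← List.sum_append, List.take_append_drop, p.1.2.1,
          p.2.2.1],
        hP.glue _ _ _ _ p.1.2.2 p.2.2.2 (hi _ _) (hj _ _) (he _ _) (hm _ _)⟩)
  have key : ∀ a b a' b' : List (Site d), a.sum = a'.sum → a.drop (i a b) = a'.drop (i a' b') →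
      b.take (j a b) = b'.take (j a' b') →
      a.take (i a b) ++ b.drop (j a b) = a'.take (i a' b') ++ b'.drop (j a' b') →
      i a' b' ≤ i a b := by
    intro a b a' b' hs h1 h2 h3
    by_contra hlt
    push Not at hlt
    refine hm a' b' (i a b) hlt (j a' b') (hj _ _) ?_
    have h4 := congrArg (List.take (i a b)) h3
    rw [List.take_append_of_le_length (by simp [hi]), List.take_append_of_le_length
      (by simp [hi, hlt.le]), List.take_take, List.take_take,
      min_self, min_eq_left hlt.le] at h4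
    rw [← h4, he, hs, h2]
  have hφ : Function.Injective φ := by
    rintro ⟨⟨a, ha, hPa⟩, ⟨b, hb, hPb⟩⟩ ⟨⟨a', ha', hPa'⟩, ⟨b', hb', hPb'⟩⟩ h
    simp only [φ, Prod.mk.injEq, Subtype.mk.injEq] at h ⊢
    obtain ⟨⟨h1, h2⟩, h3⟩ := h
    have e : i a b = i a' b' := le_antisymm
      (key a' b' a b (ha'.trans ha.symm) h1.symm h2.symm h3.symm)
      (key a b a' b' (ha.trans ha'.symm) h1 h2 h3)
    obtain ⟨h4, h5⟩ := List.append_inj h3 (by simp [hi, ← e, (e ▸ hi a' b' : i a b ≤ a'.length)])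
    constructor
    · rw [← List.take_append_drop (i a b) a, h4, h1, List.take_append_drop]
    · rw [← List.take_append_drop (j a b) b, h5, h2, List.take_append_drop]
  have h1 := ENNReal.tsum_comp_le_tsum_of_injective hφ
    (fun t => wt J l t.1.1.1 * wt J l t.1.2.1 * wt J l t.2.1)
  rw [ENNReal.tsum_prod', ENNReal.tsum_prod', ENNReal.tsum_prod'] at h1
  simp only [ENNReal.tsum_mul_left, ENNReal.tsum_mul_right] at h1
  refine le_trans (le_of_eq ?_) h1
  rw [walkG_eq, walkG_eq, ← ENNReal.tsum_mul_right]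
  refine tsum_congr fun a => ?_
  rw [← ENNReal.tsum_mul_left]
  refine tsum_congr fun b => ?_
  simp only [φ, wt_append]
  have e1 : wt J l a.1 = wt J l (a.1.take (i a.1 b.1)) * wt J l (a.1.drop (i a.1 b.1)) := by
    rw [← wt_append, List.take_append_drop]
  have e2 : wt J l b.1 = wt J l (b.1.take (j a.1 b.1)) * wt J l (b.1.drop (j a.1 b.1)) := by
    rw [← wt_append, List.take_append_drop]
  rw [e1, e2]
  ring

lemma walkG_pos (hP : Hered P) (hJ : ∀ x, x ≠ 0 → 0 < J x) {l : ℝ} (hl : 0 < l) (x : Site d) :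
    0 < walkG J P l x := by
  rw [walkG_eq]
  by_cases hx : x = 0
  · refine lt_of_lt_of_le ?_ (ENNReal.le_tsum ⟨[], by simp [hx], hP.nil⟩)
    simp [wt]
  · refine lt_of_lt_of_le ?_ (ENNReal.le_tsum ⟨[x], by simp, hP.single x hx⟩)
    simpa [wt] using mul_pos hl (hJ x hx)

lemma one_le_chi (hP : Hered P) (l : ℝ) : 1 ≤ chi J P l := by
  refine le_trans ?_ (ENNReal.le_tsum (f := fun γ : {γ : List (Site d) // P γ} => wt J l γ.1)
    ⟨[], hP.nil⟩)
  simp [wt]

lemma chi_mono (hJ : ∀ x, 0 ≤ J x) {a b : ℝ} (ha : 0 ≤ a) (hab : a ≤ b) :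
    chi J P a ≤ chi J P b := ENNReal.tsum_le_tsum fun γ => wt_mono hJ ha hab γ.1

theorem corr_walk (hP : Hered P) (hJ0 : ∀ x, 0 ≤ J x) (hJ : ∀ x, x ≠ 0 → 0 < J x) {I : Set ℝ}
    (hI : IsOpen I) (hpos : ∀ l ∈ I, 0 < l) (hfin : ∀ l ∈ I, ∃ l', l < l' ∧ chi J P l' < ∞) :
    CorrContinuous (fun l x => (walkG J P l x).toReal) I := by
  have hc : ∀ l ∈ I, chi J P l ≠ ∞ := fun l hl => by
    obtain ⟨l', h1, h2⟩ := hfin l hl
    exact ((chi_mono hJ0 (hpos l hl).le h1.le).trans_lt h2).ne
  have hw : ∀ l ∈ I, ∀ x, walkG J P l x ≠ ∞ := fun l hl x =>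
    ne_top_of_le_ne_top (hc l hl) (walkG_le_chi l x)
  refine corr_of_split hI (fun l hl => ⟨(chi J P l * chi J P l).toReal, fun x => ?_, fun x => ?_,
    fun x y => ?_⟩) (fun a ha b hb hab x => ?_) (fun l hl p => ?_)
  · exact ENNReal.toReal_pos (walkG_pos hP hJ (hpos l hl) x).ne' (hw l hl x)
  · refine ENNReal.toReal_mono (ENNReal.mul_ne_top (hc l hl) (hc l hl)) ?_
    exact (walkG_le_chi l x).trans (le_mul_of_one_le_right' (one_le_chi hP l))
  · rw [← ENNReal.toReal_mul, ← ENNReal.toReal_mul]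
    exact ENNReal.toReal_mono
      (ENNReal.mul_ne_top (ENNReal.mul_ne_top (hc l hl) (hc l hl)) (hw l hl _))
      (walkG_mul hP l x y)
  · exact ENNReal.toReal_mono (hw b hb x)
      (ENNReal.tsum_le_tsum fun γ => wt_mono hJ0 (hpos a ha).le hab γ.1)
  · obtain ⟨l', h1, h2⟩ := hfin l hl
    have hl0 := hpos l hl
    obtain ⟨η, hη, H⟩ := exists_eta (f := fun t => t.1 * (t.2 / t.1) ^ (p + 1)) (l := l) (c := l')
      (by fun_prop (disch := exact hl0.ne')) (by simpa [hl0.ne'] using h1)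
    refine ⟨η, hη, fun a ha b hb h3 h4 hab => ⟨(chi J P l').toReal, fun x T hT => ?_⟩⟩
    have ha0 := hpos a ha
    have hb0 := hpos b hb
    have h5 : a * (b / a) ^ (p + 1) ≤ l' := (H a b h3 h4).le
    have h6 : ∀ γ, wt J b γ ≤ ENNReal.ofReal T * wt J a γ +
        ENNReal.ofReal (1 / T ^ p) * wt J l' γ := by
      intro γ
      have hπ := prod_nonneg' hJ0 γ
      rw [wt_eq hJ0 hb0.le, wt_eq hJ0 ha0.le, wt_eq hJ0 (hl0.trans h1).le,
        ← ENNReal.ofReal_mul hT.le, ← ENNReal.ofReal_mul (by positivity),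
        ← ENNReal.ofReal_add (by positivity) (by have := hl0.trans h1; positivity)]
      refine ENNReal.ofReal_le_ofReal ?_
      set n := γ.length
      have h7 := pow_le_split (r := (b / a) ^ n) (by positivity) hT p
      have h8 : a ^ n * ((b / a) ^ n) ^ (p + 1) ≤ l' ^ n := by
        rw [← pow_mul, mul_comm n, pow_mul, ← mul_pow]
        exact pow_le_pow_left₀ (by positivity) h5 n
      have h9 : b ^ n = a ^ n * (b / a) ^ n := by rw [← mul_pow]; congr 1; field_simp
      have h10 : b ^ n ≤ T * a ^ n + 1 / T ^ p * l' ^ n := by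
        rw [h9]
        calc a ^ n * (b / a) ^ n ≤ a ^ n * (T + ((b / a) ^ n) ^ (p + 1) / T ^ p) := by gcongr
          _ = T * a ^ n + 1 / T ^ p * (a ^ n * ((b / a) ^ n) ^ (p + 1)) := by ring
          _ ≤ _ := by gcongr
      nlinarith [mul_le_mul_of_nonneg_right h10 hπ]
    have h7 : walkG J P b x ≤ ENNReal.ofReal T * walkG J P a x +
        ENNReal.ofReal (1 / T ^ p) * chi J P l' := by
      refine le_trans ?_ (add_le_add_right (mul_le_mul_right (walkG_le_chi l' x) _) _)
      simp only [walkG_eq]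
      rw [← ENNReal.tsum_mul_left, ← ENNReal.tsum_mul_left, ← ENNReal.tsum_add]
      exact ENNReal.tsum_le_tsum fun γ => h6 γ.1
    have h8 := ENNReal.toReal_mono (ENNReal.add_ne_top.2
      ⟨ENNReal.mul_ne_top ENNReal.ofReal_ne_top (hw a ha x),
        ENNReal.mul_ne_top ENNReal.ofReal_ne_top h2.ne⟩) h7
    rw [ENNReal.toReal_add (ENNReal.mul_ne_top ENNReal.ofReal_ne_top (hw a ha x))
      (ENNReal.mul_ne_top ENNReal.ofReal_ne_top h2.ne), ENNReal.toReal_mul, ENNReal.toReal_mul,
      ENNReal.toReal_ofReal hT.le, ENNReal.toReal_ofReal (by positivity)] at h8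
    refine h8.trans (le_of_eq ?_)
    ring

lemma hered_true : Hered (d := d) fun _ => True :=
  ⟨trivial, fun _ _ => trivial, fun _ _ _ => trivial, fun _ _ _ => trivial,
    fun _ _ _ _ _ _ _ _ _ _ => trivial⟩

lemma sum_take_add (γ : List (Site d)) (i k : ℕ) :
    (γ.take (i + k)).sum = (γ.take i).sum + ((γ.drop i).take k).sum := by
  rw [List.take_add, List.sum_append]

lemma hered_saw : Hered (d := d) SelfAvoiding := by
  refine ⟨fun i j h1 h2 => ?_, fun x hx i j h1 h2 => ?_, fun γ i h a b h1 h2 => ?_,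
    fun γ i h a b h1 h2 => ?_, fun a b i j ha hb hi hj he hm u v h1 h2 => ?_⟩
  · simp at h2; omega
  · simp only [List.length_singleton] at h2
    obtain rfl : j = 1 := by omega
    obtain rfl : i = 0 := by omega
    simpa using hx.symm
  · intro e
    simp only [List.length_drop] at h2
    refine h (i + a) (i + b) (by omega) (by omega) ?_
    rw [sum_take_add, sum_take_add, e]
  · simp only [List.length_take] at h2
    rw [List.take_take, List.take_take, min_eq_left (by omega), min_eq_left (by omega)]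
    exact h a b h1 (by omega)
  · have hl : (a.take i).length = i := by simp [hi]
    simp only [List.length_append, hl, List.length_drop] at h2
    have A : ∀ u ≤ i, ((a.take i ++ b.drop j).take u).sum = (a.take u).sum := fun u hu => by
      rw [List.take_append_of_le_length (by omega), List.take_take, min_eq_left hu]
    have B : ∀ u, i ≤ u → ((a.take i ++ b.drop j).take u).sum =
        a.sum + (b.take (j + (u - i))).sum := fun u hu => by
      rw [List.take_append, List.take_of_length_le (by omega), List.sum_append, he, hl,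
        sum_take_add, add_assoc]
    by_cases hv : v ≤ i
    · rw [A u (by omega), A v hv]
      exact ha u v h1 (by omega)
    · by_cases hu : u < i
      · rw [A u hu.le, B v (by omega)]
        exact hm u hu _ (by omega)
      · rw [B u (by omega), B v (by omega)]
        intro e
        exact hb _ _ (by omega) (by omega) (add_left_cancel e)

lemma chi_true_lt (hJ0 : ∀ x, 0 ≤ J x) (hs : HasSum J 1) {l : ℝ} (hl0 : 0 ≤ l) (hl : l < 1) :
    chi J (fun _ => True) l < ∞ := by
  have h1 : ∑' y, ENNReal.ofReal (l * J y) = ENNReal.ofReal l := by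
    rw [← ENNReal.ofReal_tsum_of_nonneg (fun y => mul_nonneg hl0 (hJ0 y))
      (hs.summable.mul_left l), (hs.mul_left l).tsum_eq, mul_one]
  have h2 : ∀ n : ℕ, ∑' γ : {γ : List (Site d) // γ.length = n}, wt J l γ.1 ≤
      ENNReal.ofReal l ^ n := by
    intro n
    induction n with
    | zero =>
      rw [tsum_eq_single (⟨[], rfl⟩ : {γ : List (Site d) // γ.length = 0}) (fun γ hγ => absurd
        (Subtype.ext (List.eq_nil_of_length_eq_zero γ.2)) hγ)]
      simp [wt]
    | succ n ih =>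
      have := ENNReal.tsum_le_tsum_comp_of_surjective
        (f := fun p : Site d × {γ : List (Site d) // γ.length = n} =>
          (⟨p.1 :: p.2.1, by simp [p.2.2]⟩ : {γ : List (Site d) // γ.length = n + 1}))
        (by
          rintro ⟨γ, hγ⟩
          cases γ with
          | nil => simp at hγ
          | cons y γ => exact ⟨(y, ⟨γ, by simpa using hγ⟩), rfl⟩)
        (fun γ => wt J l γ.1)
      refine this.trans ?_
      have e : ∀ p : Site d × {γ : List (Site d) // γ.length = n},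
          wt J l (p.1 :: p.2.1) = ENNReal.ofReal (l * J p.1) * wt J l p.2.1 := by
        intro p; simp [wt]
      simp only [e]
      rw [ENNReal.tsum_prod']
      simp only [ENNReal.tsum_mul_left, ENNReal.tsum_mul_right]
      rw [h1, pow_succ']
      exact mul_le_mul_right ih _
  have h3 : chi J (fun _ => True) l ≤
      ∑' n : ℕ, ∑' γ : {γ : List (Site d) // γ.length = n}, wt J l γ.1 := by
    rw [← ENNReal.tsum_sigma' (β := fun n : ℕ => {γ : List (Site d) // γ.length = n})
      (fun p => wt J l p.2.1)]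
    exact ENNReal.tsum_comp_le_tsum_of_injective
      (f := fun γ : {γ : List (Site d) // True} =>
        (⟨γ.1.length, ⟨γ.1, rfl⟩⟩ : Σ n : ℕ, {γ : List (Site d) // γ.length = n}))
      (fun a b h => Subtype.ext
        (congrArg (fun p : Σ n : ℕ, {γ : List (Site d) // γ.length = n} => p.2.1) h))
      (fun p => wt J l p.2.1)
  refine (h3.trans (ENNReal.tsum_le_tsum h2)).trans_lt ?_
  rw [ENNReal.tsum_geometric, ENNReal.inv_lt_top, tsub_pos_iff_lt]
  exact ENNReal.ofReal_lt_one.2 hl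

theorem corr_krw (hJ0 : ∀ x, 0 ≤ J x) (hJ : ∀ x, x ≠ 0 → 0 < J x) (hs : HasSum J 1) :
    CorrContinuous (fun l x => (walkG J (fun _ => True) l x).toReal) (below 1) := by
  refine corr_walk hered_true hJ0 hJ (isOpen_below _) (fun l hl => hl.1) fun l hl => ?_
  have h1 : l < 1 := ENNReal.ofReal_lt_one.1 hl.2
  exact ⟨(l + 1) / 2, by linarith, chi_true_lt hJ0 hs (by linarith [hl.1]) (by linarith)⟩

theorem corr_saw (hJ0 : ∀ x, 0 ≤ J x) (hJ : ∀ x, x ≠ 0 → 0 < J x) :
    CorrContinuous (fun l x => (walkG J SelfAvoiding l x).toReal) (below (sawThreshold J)) := by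
  refine corr_walk hered_saw hJ0 hJ (isOpen_below _) (fun l hl => hl.1) fun l hl => ?_
  have h1 := hl.2
  simp only [sawThreshold, lt_iSup_iff] at h1
  obtain ⟨l', ⟨h2, h3⟩, h4⟩ := h1
  exact ⟨l', (ENNReal.ofReal_lt_ofReal_iff_of_nonneg hl.1.le).1 h4, (chi_le_tsum l').trans_lt h3⟩

end Walk

end Pool.Agent.P.MP_5c18f4_pr
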