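import Pool.Agent.P.MP_5c18f4_pr.FKSharp
import Pool.Agent.P.MP_5c18f4_pr.Walk

open Finset Filter Topology MeasureTheory
open scoped ENNReal

namespace Pool.Agent.P.MP_5c18f4_pr

variable {d : ℕ}

lemma measurableSet_cyl (F P : Finset (Sym2 (Site d))) :
    MeasurableSet {ω : Set (Sym2 (Site d)) | ω ∩ F = P} := by
  have : {ω : Set (Sym2 (Site d)) | ω ∩ F = P} =
      ⋂ e, {ω : Set (Sym2 (Site d)) | (e ∈ ω ∧ e ∈ F) ↔ e ∈ P} := by
    ext ω; simp [Set.ext_iff]
  rw [this]
  refine MeasurableSet.iInter fun e => ?_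
  by_cases h1 : e ∈ F <;> by_cases h2 : e ∈ P
  · simpa [h1, h2] using measurableSet_mem e
  · simpa [h1, h2] using measurableSet_notMem e
  · simp [h1, h2]
  · simp [h1, h2]

lemma isClopen_cyl (F P : Finset (Sym2 (Site d))) :
    IsClopen {f : Sym2 (Site d) → Bool | {e | f e = true} ∩ (F : Set (Sym2 (Site d))) = P} := by
  by_cases h : P ⊆ F
  · have : {f : Sym2 (Site d) → Bool | {e | f e = true} ∩ (F : Set (Sym2 (Site d))) = P} =
        ⋂ e ∈ F, (fun f : Sym2 (Site d) → Bool => f e) ⁻¹' {decide (e ∈ P)} := by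
      ext f
      simp only [Set.ext_iff, Set.mem_ofPred_eq, Set.mem_inter_iff, mem_coe, Set.mem_iInter,
        Set.mem_preimage, Set.mem_singleton_iff]
      constructor
      · intro H e he
        have := H e
        by_cases hp : e ∈ P
        · simpa [hp, he] using this
        · simpa [hp, he] using this
      · intro H e
        exact ⟨fun h1 => by simpa [h1.1] using (H e h1.2).symm,
          fun h1 => ⟨by simpa [h1] using H e (h h1), h h1⟩⟩
    rw [this]
    exact isClopen_biInter_finset fun e _ => (isClopen_discrete _).preimage (continuous_apply e)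
  · have : {f : Sym2 (Site d) → Bool | {e | f e = true} ∩ (F : Set (Sym2 (Site d))) = P} = ∅ := by
      refine Set.eq_empty_of_forall_notMem fun f hf => h fun e he => ?_
      have : e ∈ ({e | f e = true} ∩ (F : Set (Sym2 (Site d)))) := by
        rw [hf]; exact he
      exact this.2
    rw [this]
    exact isClopen_empty

open Classical in
/-- indicator of an event -/
noncomputable def ev (p : Finset (Sym2 (Site d)) → Prop) (ω : Finset (Sym2 (Site d))) : ℝ :=
  if p ω then 1 else 0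

lemma ev_nonneg (p : Finset (Sym2 (Site d)) → Prop) (ω : Finset (Sym2 (Site d))) : 0 ≤ ev p ω := by
  unfold ev; split_ifs <;> norm_num

lemma ev_le (p : Finset (Sym2 (Site d)) → Prop) (ω : Finset (Sym2 (Site d))) : ev p ω ≤ 1 := by
  unfold ev; split_ifs <;> norm_num

lemma ev_le_ev {p p' : Finset (Sym2 (Site d)) → Prop} {s t : Finset (Sym2 (Site d))}
    (h : p s → p' t) : ev p s ≤ ev p' t := by
  unfold ev
  split_ifs with h1 h2
  · exact le_rfl
  · exact absurd (h h1) h2
  · exact zero_le_one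
  · exact le_rfl

lemma ev_congr {p p' : Finset (Sym2 (Site d)) → Prop} {s t : Finset (Sym2 (Site d))}
    (h : p s ↔ p' t) : ev p s = ev p' t := le_antisymm (ev_le_ev h.1) (ev_le_ev h.2)

lemma ev_mono {p : Finset (Sym2 (Site d)) → Prop} (hp : ∀ s t, s ⊆ t → p s → p t) :
    Monotone (ev p) := fun s t h => ev_le_ev (hp s t h)

lemma exists_finite_witness {ω : Set (Sym2 (Site d))} {x y : Site d} (h : y ∈ cluster ω x) :
    ∃ P : Finset (Sym2 (Site d)), ↑P ⊆ ω ∧ y ∈ cluster (P : Set (Sym2 (Site d))) x := by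
  refine cluster_subset
    (T := {y | ∃ P : Finset (Sym2 (Site d)), ↑P ⊆ ω ∧ y ∈ cluster (P : Set (Sym2 (Site d))) x})
    ⟨∅, by simp, self_mem_cluster _ _⟩ ?_ h
  rintro a b ⟨P, h1, h2⟩ hab
  refine ⟨insert s(a, b) P, by rw [coe_insert]; exact Set.insert_subset hab h1, ?_⟩
  exact cluster_step (cluster_mono (by simp) x h2) (by simp)

lemma exists_edges_box (P : Finset (Sym2 (Site d))) : ∃ m, P ⊆ (box d m).sym2 := by
  obtain ⟨m, hm⟩ := exists_subset_box (P.biUnion Sym2.toFinset)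
  refine ⟨m, fun e he => mem_sym2_iff.2 fun a ha => hm m le_rfl ?_⟩
  exact mem_biUnion.2 ⟨e, he, Sym2.mem_toFinset.2 ha⟩

open Classical in
lemma local_tendsto {J : Site d → ℝ} {q β : ℝ} {Φ : Measure (Set (Sym2 (Site d)))}
    (hΦ : IsFKLimit J q β Φ) (E : Finset (Sym2 (Site d))) (p : Finset (Sym2 (Site d)) → Prop) :
    Tendsto (fun n => fkExp J q β (box d n) fun ω => ev p (ω ∩ E)) atTop
      (𝓝 (Φ.real {ω | p (E.filter (· ∈ ω))})) := by
  have := hΦ.1
  have e1 : {ω : Set (Sym2 (Site d)) | p (E.filter (· ∈ ω))} =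
      ⋃ P ∈ E.powerset.filter p, {ω : Set (Sym2 (Site d)) | ω ∩ E = P} := by
    ext ω
    simp only [Set.mem_ofPred_eq, Set.mem_iUnion, mem_filter, mem_powerset, exists_prop]
    constructor
    · intro h
      exact ⟨_, ⟨filter_subset _ _, h⟩, by ext e; simp [and_comm]⟩
    · rintro ⟨P, ⟨_, h⟩, e⟩
      have : E.filter (· ∈ ω) = P := by
        apply coe_injective
        rw [← e]; ext e; simp [and_comm]
      rwa [this]
  rw [e1, measureReal_biUnion_finset ?_ (fun P _ => measurableSet_cyl E P)]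
  · refine (tendsto_finsetSum _ fun P _ => hΦ.2 E P).congr fun n => ?_
    simp only [fkExp_eq, ← Ex_sum]
    refine Ex_congr fun s _ => ?_
    simp [ev]
  · intro P _ Q _ hPQ
    refine Set.disjoint_left.2 fun ω h1 h2 => hPQ (coe_injective ?_)
    exact h1.symm.trans h2

namespace JOK

variable {J : Site d → ℝ} (hJ : JOK J) {q : ℝ} (hq : 1 ≤ q)
include hJ hq

lemma fk_le_one {β : ℝ} (hβ : 0 < β) (Λ : Finset (Site d)) (p : Finset (Sym2 (Site d)) → Prop) :
    fkExp J q β Λ (ev p) ≤ 1 :=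
  Ex_le (hJ.fw_nonneg hq hβ.le Λ) (hJ.latt hq hβ Λ).Zpos fun _ _ => ev_le _ _

lemma cyl_conv {β : ℝ} (hβ : 0 < β) (B : Finset (Sym2 (Site d))) : ∀ A : Finset (Sym2 (Site d)),
    ∃ L, Tendsto (fun n => fkExp J q β (box d n) (ev fun ω => A ⊆ ω ∧ Disjoint B ω)) atTop
      (𝓝 L) := by
  induction B using Finset.induction with
  | empty =>
    intro A
    refine ⟨_, tendsto_atTop_ciSup (fun m n h => hJ.vol_mono hq hβ (box_mono h)
      (ev_mono fun s t hst h => ⟨h.1.trans hst, by simp⟩)) ⟨1, ?_⟩⟩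
    rintro _ ⟨n, rfl⟩
    exact hJ.fk_le_one hq hβ _ _
  | insert e B _ ih =>
    intro A
    obtain ⟨L1, h1⟩ := ih A
    obtain ⟨L2, h2⟩ := ih (insert e A)
    refine ⟨_, (h1.sub h2).congr fun n => ?_⟩
    simp only [fkExp_eq, ← Ex_sub]
    refine Ex_congr fun s _ => ?_
    simp only [ev, insert_subset_iff, disjoint_insert_left]
    by_cases a1 : A ⊆ s <;> by_cases a2 : e ∈ s <;> by_cases a3 : Disjoint B s <;>
      simp [a1, a2, a3]

theorem exists_limit {β : ℝ} (hβ : 0 < β) : ∃ Φ, IsFKLimit J q β Φ := by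
  classical
  let χ : Finset (Sym2 (Site d)) → Sym2 (Site d) → Bool := fun ω e => decide (e ∈ ω)
  let m : ℕ → Measure (Sym2 (Site d) → Bool) := fun n => ∑ ω ∈ (edges (box d n)).powerset,
    ENNReal.ofReal (fw J q β (box d n) ω / ∑ s ∈ (edges (box d n)).powerset, fw J q β (box d n) s) •
      Measure.dirac (χ ω)
  have hm : ∀ n B, MeasurableSet B →
      m n B = ENNReal.ofReal (fkExp J q β (box d n) (ev fun ω => χ ω ∈ B)) := by
    intro n B hB
    have L := hJ.latt hq hβ (box d n)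
    simp only [m, Measure.finsetSum_apply, Measure.smul_apply, Measure.dirac_apply' _ hB, fkExp_eq,
      Ex, sum_div, smul_eq_mul]
    rw [ENNReal.ofReal_sum_of_nonneg fun s _ =>
      div_nonneg (mul_nonneg (L.nonneg s) (ev_nonneg _ _)) L.Zpos.le]
    refine sum_congr rfl fun s _ => ?_
    by_cases h : χ s ∈ B <;> simp [ev, h]
  have hp : ∀ n, IsProbabilityMeasure (m n) := fun n => ⟨by
    rw [hm n _ MeasurableSet.univ, fkExp_eq, Ex_congr (g := fun _ => 1) (fun s _ => by simp [ev]),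
      Ex_const (hJ.latt hq hβ _).Zpos, ENNReal.ofReal_one]⟩
  let μs : ℕ → ProbabilityMeasure (Sym2 (Site d) → Bool) := fun n => ⟨m n, hp n⟩
  obtain ⟨μ, -, hμ⟩ := isCompact_univ.ultrafilter_le_nhds ((Ultrafilter.of atTop).map μs) (by simp)
  have hμ' : Tendsto μs (Ultrafilter.of (atTop : Filter ℕ)) (𝓝 μ) := hμ
  have hT : Measurable fun f : Sym2 (Site d) → Bool => {e | f e = true} :=
    measurable_set_iff.2 fun e =>
      show Measurable fun f : Sym2 (Site d) → Bool => f e = true from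
        (measurable_pi_apply (X := fun _ : Sym2 (Site d) => Bool) e).eq_const true
  refine ⟨(μ : Measure (Sym2 (Site d) → Bool)).map fun f => {e | f e = true},
    Measure.isProbabilityMeasure_map hT.aemeasurable, fun F P => ?_⟩
  have hc := isClopen_cyl F P
  have h1 := ProbabilityMeasure.tendsto_measure_of_null_frontier_of_tendsto' hμ'
    (E := {f : Sym2 (Site d) → Bool | {e | f e = true} ∩ (F : Set (Sym2 (Site d))) = P})
    (by rw [hc.frontier_eq, measure_empty])
  have h2 := (ENNReal.tendsto_toReal (measure_ne_top _ _)).comp h1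
  have e1 : ∀ n, (((μs n : Measure (Sym2 (Site d) → Bool))
      {f : Sym2 (Site d) → Bool | {e | f e = true} ∩ (F : Set (Sym2 (Site d))) = P})).toReal =
      fkExp J q β (box d n) fun ω => if ω ∩ F = P then 1 else 0 := by
    intro n
    have := hm n _ hc.isOpen.measurableSet
    simp only [μs, ProbabilityMeasure.coe_mk]
    rw [this, fkExp_eq, fkExp_eq, ENNReal.toReal_ofReal
      (Ex_nonneg (hJ.fw_nonneg hq hβ.le _) fun s _ => ev_nonneg _ _)]
    refine Ex_congr fun s _ => ?_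
    have : ({e | χ s e = true} ∩ (F : Set (Sym2 (Site d))) = P) ↔ s ∩ F = P := by
      rw [← coe_inj, coe_inter]; simp [χ]
    simp only [ev, Set.mem_ofPred_eq, this]
  obtain ⟨L, hL⟩ : ∃ L, Tendsto (fun n => fkExp J q β (box d n)
      fun ω => if ω ∩ F = P then 1 else 0) atTop (𝓝 L) := by
    by_cases h : P ⊆ F
    · obtain ⟨L, hL⟩ := hJ.cyl_conv hq hβ (F \ P) P
      refine ⟨L, hL.congr fun n => Ex_congr fun s _ => ?_⟩
      have : (P ⊆ s ∧ Disjoint (F \ P) s) ↔ s ∩ F = P := by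
        simp only [subset_iff, disjoint_left, Finset.ext_iff, Finset.mem_sdiff, mem_inter]
        have h' := subset_iff.1 h
        grind
      simp only [ev, this]
    · refine ⟨0, tendsto_const_nhds.congr fun n => ?_⟩
      rw [fkExp_eq, Ex_congr (g := fun _ => 0)
        (fun s _ => if_neg fun (hs : s ∩ F = P) => h (hs ▸ inter_subset_right)),
        Ex_const (hJ.latt hq hβ _).Zpos]
  have h3 := tendsto_nhds_unique (hL.mono_left (Ultrafilter.of_le atTop)) (h2.congr e1)
  rw [map_measureReal_apply hT (measurableSet_cyl F P)]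
  rw [h3] at hL
  exact hL

variable {β : ℝ} (hβ : 0 < β) {Φ : Measure (Set (Sym2 (Site d)))} (hΦ : IsFKLimit J q β Φ)
include hβ hΦ

lemma fk_le_limit {p : Finset (Sym2 (Site d)) → Prop} (hp : ∀ s t, s ⊆ t → p s → p t)
    (Λ : Finset (Site d)) :
    fkExp J q β Λ (ev p) ≤ Φ.real {ω | ∃ P : Finset (Sym2 (Site d)), ↑P ⊆ ω ∧ p P} := by
  classical
  have := hΦ.1
  refine le_trans (ge_of_tendsto (local_tendsto hΦ (edges Λ) p) ?_)
    (measureReal_mono fun ω h => ⟨_, fun e he => by simpa using (mem_filter.1 he).2, h⟩)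
  filter_upwards [eventually_subset_box Λ] with n hn
  refine le_trans (le_of_eq (Ex_congr fun s hs => by
      rw [inter_eq_left.2 (show s ⊆ edges Λ from hs)]))
    (hJ.vol_mono hq hβ hn (F := fun ω => ev p (ω ∩ edges Λ)) fun s t hst =>
      ev_mono hp (inter_subset_inter_right hst))

lemma tendsto_limit {p : Finset (Sym2 (Site d)) → Prop} (hp : ∀ s t, s ⊆ t → p s → p t) :
    Tendsto (fun n => fkExp J q β (box d n) (ev p)) atTop
      (𝓝 (Φ.real {ω | ∃ P : Finset (Sym2 (Site d)), ↑P ⊆ ω ∧ p P})) := by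
  classical
  have := hΦ.1
  refine tendsto_atTop_isLUB (fun m n h => hJ.vol_mono hq hβ (box_mono h) (ev_mono hp))
    ⟨?_, fun c hc => ?_⟩
  · rintro _ ⟨n, rfl⟩
    exact hJ.fk_le_limit hq hβ hΦ hp _
  have e1 : {ω : Set (Sym2 (Site d)) | ∃ P : Finset (Sym2 (Site d)), ↑P ⊆ ω ∧ p P} =
      ⋃ m, {ω | p ((box d m).sym2.filter (· ∈ ω))} := by
    ext ω
    simp only [Set.mem_ofPred_eq, Set.mem_iUnion]
    constructor
    · rintro ⟨P, h1, h2⟩
      obtain ⟨m, hm⟩ := exists_edges_box P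
      exact ⟨m, hp _ _ (fun e he => mem_filter.2 ⟨hm he, h1 he⟩) h2⟩
    · rintro ⟨m, h⟩
      exact ⟨_, fun e he => by simpa using (mem_filter.1 he).2, h⟩
  have h1 := (ENNReal.tendsto_toReal (measure_ne_top Φ _)).comp
    (tendsto_measure_iUnion_atTop (μ := Φ)
      (s := fun m => {ω : Set (Sym2 (Site d)) | p ((box d m).sym2.filter (· ∈ ω))})
      fun m n h ω hω => hp _ _ (filter_subset_filter _ (sym2_mono (box_mono h))) hω)
  rw [e1]
  refine le_of_tendsto' h1 fun m => le_of_tendsto' (local_tendsto hΦ (box d m).sym2 p) fun n => ?_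
  exact le_trans (Ex_mono (hJ.fw_nonneg hq hβ.le _) fun s _ => ev_mono hp inter_subset_left)
    (hc ⟨n, rfl⟩)

lemma th_tendsto (h0 : Φ {ω | (cluster ω 0).Infinite} = 0) :
    Tendsto (th J q β) atTop (𝓝 0) := by
  have := hΦ.1
  let A : ℕ → Set (Set (Sym2 (Site d))) := fun n =>
    {ω | ∃ P : Finset (Sym2 (Site d)), ↑P ⊆ ω ∧ n ≤ (CE P 0).card}
  have hA : ∀ n, MeasurableSet (A n) := by
    intro n
    have : A n = ⋃ P : Finset (Sym2 (Site d)), ⋃ _ : n ≤ (CE P 0).card,
        ⋂ e ∈ P, {ω : Set (Sym2 (Site d)) | e ∈ ω} := by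
      ext ω
      simp [A, Set.subset_def, and_comm]
    rw [this]
    exact .iUnion fun P => .iUnion fun _ => P.measurableSet_biInter fun e _ => measurableSet_mem e
  have h1 := (ENNReal.tendsto_toReal (measure_ne_top Φ _)).comp
    (tendsto_measure_iInter_atTop (μ := Φ) (fun n => (hA n).nullMeasurableSet)
      (fun m n h ω ⟨P, h1, h2⟩ => ⟨P, h1, h.trans h2⟩) ⟨0, measure_ne_top _ _⟩)
  have h2 : Φ (⋂ n, A n) = 0 := by
    refine measure_mono_null (fun ω hω => ?_) h0
    intro hfin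
    obtain ⟨P, h3, h4⟩ := Set.mem_iInter.1 hω (hfin.toFinset.sym2.card + 1)
    have : CE P 0 ⊆ hfin.toFinset.sym2 := fun e he => mem_sym2_iff.2 fun a ha =>
      hfin.mem_toFinset.2 (cluster_mono h3 0 (mem_cluster_of_mem_CE he ha))
    have := card_le_card this
    omega
  rw [h2, ENNReal.toReal_zero] at h1
  refine squeeze_zero (fun n => ?_) (fun n => ?_) h1
  · exact le_trans (Ex_nonneg (hJ.fw_nonneg hq hβ.le ∅) fun s _ => fN_nonneg _ _ _)
      (hJ.le_th hq hβ ∅ n 0)
  · refine ciSup_le fun Λ => le_trans (le_of_eq (Ex_congr fun s _ => ?_))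
      (hJ.fk_le_limit hq hβ hΦ (p := fun P => n ≤ (CE P 0).card)
        (fun s t h h' => h'.trans (card_le_card (CE_mono h 0))) Λ)
    simp [fN, ev]

end JOK

/-- connection event -/
noncomputable def conn (x y : Site d) : Finset (Sym2 (Site d)) → ℝ :=
  ev fun ω => y ∈ cluster (ω : Set (Sym2 (Site d))) x

lemma conn_mono (x y : Site d) : Monotone (conn x y) :=
  ev_mono fun _ _ h h' => cluster_mono (coe_subset.2 h) x h'

lemma conn_set (x : Site d) : {ω : Set (Sym2 (Site d)) | x ∈ cluster ω 0} =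
    {ω | ∃ P : Finset (Sym2 (Site d)), ↑P ⊆ ω ∧ x ∈ cluster (P : Set (Sym2 (Site d))) 0} :=
  Set.ext fun _ => ⟨exists_finite_witness, fun ⟨_, h1, h2⟩ => cluster_mono h1 0 h2⟩

namespace JOK

variable {J : Site d → ℝ} (hJ : JOK J) {q : ℝ} (hq : 1 ≤ q)
include hJ hq

section
variable {β : ℝ} (hβ : 0 < β) {Φ : Measure (Set (Sym2 (Site d)))} (hΦ : IsFKLimit J q β Φ)
include hβ hΦ

lemma conn_tendsto (x : Site d) : Tendsto (fun n => fkExp J q β (box d n) (conn 0 x)) atTop
    (𝓝 (Φ.real {ω | x ∈ cluster ω 0})) := by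
  rw [conn_set]
  exact hJ.tendsto_limit hq hβ hΦ fun _ _ h h' => cluster_mono (coe_subset.2 h) 0 h'

lemma conn_le (Λ : Finset (Site d)) (x : Site d) :
    fkExp J q β Λ (conn 0 x) ≤ Φ.real {ω | x ∈ cluster ω 0} := by
  rw [conn_set]
  exact hJ.fk_le_limit hq hβ hΦ (fun _ _ h h' => cluster_mono (coe_subset.2 h) 0 h') Λ

lemma fk_good : Good (fun x => Φ.real {ω | x ∈ cluster ω 0}) 1 := by
  have := hΦ.1
  refine ⟨fun x => lt_of_lt_of_le ?_ (hJ.conn_le hq hβ hΦ {0, x} x), fun x => measureReal_le_one,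
    fun x y => ?_⟩
  · have L := hJ.latt hq hβ {0, x}
    refine div_pos (sum_pos' (fun s _ => mul_nonneg (L.nonneg s) (ev_nonneg _ _))
      ⟨edges {0, x}, mem_powerset.2 Subset.rfl, mul_pos (L.pos _ Subset.rfl) ?_⟩) L.Zpos
    have : x ∈ cluster (edges {0, x} : Set (Sym2 (Site d))) 0 := by
      by_cases hx : 0 = x
      · exact hx ▸ self_mem_cluster _ _
      · exact mem_cluster_of_edge (mk_mem_edges.2 ⟨by simp, by simp, hx⟩)
    simp [conn, ev, this]
  · rw [one_mul]
    refine le_of_tendsto' ((hJ.conn_tendsto hq hβ hΦ x).mul (hJ.conn_tendsto hq hβ hΦ y))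
      fun n => ?_
    have h1 := fkExp_map (J := J) (Equiv.addRight x) (fun a b => by simp) q β (box d n)
      (conn x (x + y))
    have h2 : (fun ω : Finset (Sym2 (Site d)) =>
        conn x (x + y) (ω.image (Sym2.map (Equiv.addRight x)))) = conn 0 y := by
      funext ω
      have := cluster_map (Equiv.addRight x) (ω : Set (Sym2 (Site d))) 0
      simp only [Equiv.coe_addRight, zero_add] at this
      refine ev_congr ?_
      rw [coe_image, Equiv.coe_addRight, this]
      simp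
    rw [h2] at h1
    rw [← h1]
    set Λ := box d n ∪ (box d n).image (Equiv.addRight x)
    have L := hJ.latt hq hβ Λ
    refine le_trans (mul_le_mul (hJ.vol_mono hq hβ (Λ' := Λ) subset_union_left (conn_mono _ _))
      (hJ.vol_mono hq hβ (Λ' := Λ) subset_union_right (conn_mono _ _))
      (Ex_nonneg (hJ.fw_nonneg hq hβ.le _) fun s _ => ev_nonneg _ _)
      (Ex_nonneg L.nonneg fun s _ => ev_nonneg _ _)) ?_
    refine (L.fkg (conn_mono 0 x) (conn_mono x (x + y))).trans
      (le_trans (Ex_mono L.nonneg fun s _ => ?_) (hJ.conn_le hq hβ hΦ Λ (x + y)))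
    by_cases a1 : x ∈ cluster (s : Set (Sym2 (Site d))) 0
    · by_cases a2 : x + y ∈ cluster (s : Set (Sym2 (Site d))) x
      · simp [conn, ev, a1, a2, cluster_trans a1 a2]
      · simpa [conn, ev, a1, a2] using ev_nonneg (fun ω => x + y ∈ cluster (ω : Set _) 0) s
    · simpa [conn, ev, a1] using ev_nonneg (fun ω => x + y ∈ cluster (ω : Set _) 0) s

end

theorem corr_fk {Φ : ℝ → Measure (Set (Sym2 (Site d)))}
    (hΦ : ∀ β, 0 < β → IsFKLimit J q β (Φ β)) :
    CorrContinuous (fun β x => (Φ β).real {ω | x ∈ cluster ω 0}) (below (fkThreshold Φ)) := by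
  refine corr_of_split (isOpen_below _) (fun l hl => ⟨1, hJ.fk_good hq hl.1 (hΦ l hl.1)⟩)
    (fun a ha b hb hab x => le_of_tendsto_of_tendsto' (hJ.conn_tendsto hq ha.1 (hΦ a ha.1) x)
      (hJ.conn_tendsto hq hb.1 (hΦ b hb.1) x)
      fun n => hJ.beta_mono hq ha.1 hab _ (conn_mono _ _)) fun l hl p => ?_
  obtain ⟨r, hr, hrI⟩ := Metric.isOpen_iff.1 (isOpen_below (fkThreshold Φ)) l hl
  have hl0 := hl.1
  have h2 : l + r / 2 ∈ below (fkThreshold Φ) :=
    hrI (by rw [Metric.mem_ball, Real.dist_eq, abs_lt]; constructor <;> linarith)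
  have h3 : Φ (l + r / 2) {ω | (cluster ω 0).Infinite} = 0 := by
    by_contra h
    exact absurd h2.2 (not_lt.2 (iInf₂_le_of_le (l + r / 2) ⟨h2.1, h⟩ le_rfl))
  obtain ⟨R, C, hR, hC⟩ := hJ.exp_moment hq (a := l + r / 4) (by linarith) (by linarith)
    (hJ.th_tendsto hq h2.1 (hΦ _ h2.1) h3)
  obtain ⟨η, hη, H⟩ := exists_eta
    (f := fun t => (1 + (t.2 - t.1) * Real.exp t.2 / t.1) ^ (p + 1)) (l := l) (c := R)
    (by fun_prop (disch := exact hl0.ne')) (by simpa using hR)
  refine ⟨min η (r / 4), lt_min hη (by positivity), fun a ha b hb h4 h5 hab =>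
    ⟨C, fun x T hT => ?_⟩⟩
  have h6 := (H a b (h4.trans_le (min_le_left _ _)) (h5.trans_le (min_le_left _ _))).le
  have h7 : a ≤ l + r / 4 := by linarith [(abs_lt.1 (h4.trans_le (min_le_right _ _))).2]
  refine le_of_tendsto' (hJ.conn_tendsto hq hb.1 (hΦ b hb.1) x) fun n => ?_
  have L := hJ.latt hq ha.1 (box d n)
  have e : conn 0 x = fun ω => conn 0 x (CE ω 0) := by
    funext ω; exact ev_congr (by rw [cluster_CE])
  have h8 := hJ.ratio hq ha.1 hab (zero_mem_box n) (conn 0 x) fun C => ev_nonneg _ _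
  rw [← e] at h8
  set ρ := 1 + (b - a) * Real.exp b / a with hρ
  have hρ0 : 0 ≤ ρ := by
    have := div_nonneg (mul_nonneg (sub_nonneg.2 hab) (Real.exp_pos b).le) ha.1.le
    linarith
  refine h8.trans ((Ex_mono (g := fun ω => T * conn 0 x ω + 1 / T ^ p * R ^ (CE ω 0).card)
    L.nonneg fun s _ => ?_).trans ?_)
  · have a1 := pow_le_split (pow_nonneg hρ0 (CE s 0).card) hT p
    have a2 : (ρ ^ (CE s 0).card) ^ (p + 1) ≤ R ^ (CE s 0).card := by
      rw [← pow_mul, mul_comm, pow_mul]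
      exact pow_le_pow_left₀ (pow_nonneg hρ0 _) h6 _
    have a3 : (ρ ^ (CE s 0).card) ^ (p + 1) / T ^ p ≤ 1 / T ^ p * R ^ (CE s 0).card := by
      rw [div_eq_mul_one_div, mul_comm]; gcongr
    have a4 : 0 ≤ 1 / T ^ p * R ^ (CE s 0).card := by positivity
    rw [← congrFun e s]
    unfold conn ev
    split_ifs <;> linarith
  · rw [Ex_add, Ex_mul, Ex_mul]
    have a1 := hJ.conn_le hq ha.1 (hΦ a ha.1) (box d n) x
    have a2 := (hJ.beta_mono hq ha.1 h7 (box d n) (F := fun ω => R ^ (CE ω 0).card)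
      fun s t h => pow_le_pow_right₀ hR.le (card_le_card (CE_mono h 0))).trans (hC _)
    rw [div_eq_mul_one_div C, mul_comm C]
    exact add_le_add (mul_le_mul_of_nonneg_left a1 hT.le)
      (mul_le_mul_of_nonneg_left a2 (by positivity))

end JOK

end Pool.Agent.P.MP_5c18f4_pr
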