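import Mathlib

open Finset Filter Topology

namespace Pool.Agent.P.MP_5c18f4_pr

/-- partial sums -/
noncomputable def SS (θ : ℕ → ℝ) (n : ℕ) : ℝ := 1 + 2 * ∑ m ∈ range n, θ (m + 1)

lemma one_le_SS {θ : ℕ → ℝ} (h0 : ∀ n, 0 ≤ θ n) (n : ℕ) : 1 ≤ SS θ n := by
  have := sum_nonneg (s := range n) fun m _ => h0 (m + 1)
  unfold SS
  linarith

lemma log_SS_le {θ : ℕ → ℝ} (h0 : ∀ n, 0 ≤ θ n) (h1 : ∀ n, θ n ≤ 1) (N : ℕ) :
    Real.log (SS θ N) ≤ 6 * ∑ m ∈ range N, θ (m + 1) / SS θ (m + 1) := by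
  induction N with
  | zero => simp [SS]
  | succ N ih =>
    have e : SS θ (N + 1) = SS θ N + 2 * θ (N + 1) := by
      simp only [SS, sum_range_succ]; ring
    have a1 := one_le_SS h0 N
    have a2 := one_le_SS h0 (N + 1)
    have a3 := Real.log_le_sub_one_of_pos (x := SS θ (N + 1) / SS θ N) (by positivity)
    rw [Real.log_div (by positivity) (by positivity)] at a3
    have a4 : SS θ (N + 1) / SS θ N - 1 ≤ 6 * (θ (N + 1) / SS θ (N + 1)) := by
      rw [div_sub_one (by positivity), ← mul_div_assoc,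
        div_le_div_iff₀ (by positivity) (by positivity), e]
      nlinarith [h0 (N + 1), h1 (N + 1), mul_nonneg (h0 (N + 1)) (sub_nonneg.2 a1),
        mul_nonneg (h0 (N + 1)) (sub_nonneg.2 (h1 (N + 1)))]
    rw [sum_range_succ]
    linarith

lemma exp_neg_le {y : ℝ} (h0 : 0 ≤ y) (h1 : y ≤ 1) : Real.exp (-y) ≤ 1 - y / 2 := by
  have a1 := Real.add_one_le_exp y
  have a2 : Real.exp (-y) * Real.exp y = 1 := by rw [← Real.exp_add]; simp
  have a3 := Real.exp_pos (-y)
  have a4 : Real.exp (-y) * (y + 1) ≤ 1 := by nlinarith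
  nlinarith

section sharp

variable {θ : ℝ → ℕ → ℝ} (h0 : ∀ b, 0 < b → ∀ n, 0 ≤ θ b n) (h1 : ∀ b, 0 < b → ∀ n, θ b n ≤ 1)
  (hm : ∀ a b, 0 < a → a ≤ b → ∀ n, θ a n ≤ θ b n)
  (hD : ∀ a b, 0 < a → a ≤ b → ∀ n : ℕ, 1 ≤ n → θ a n ≤ θ b n *
    Real.exp (-((n / (2 * SS (θ b) n) - 1 / 2) * (Real.log b - Real.log a))))

include h0 h1 hm hD

lemma sharp_step {a b : ℝ} (ha : 0 < a) (hab : a < b) (N : ℕ) :
    (Real.log b - Real.log a) / 24 * Real.log (SS (θ a) N) ≤
      Real.exp ((Real.log b - Real.log a) / 2) * ∑ m ∈ range N, θ b (m + 1) / (m + 1) := by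
  set l := Real.log b - Real.log a with hl
  have hl0 : 0 < l := sub_pos.2 (Real.log_lt_log ha hab)
  obtain ⟨K, hK⟩ := exists_nat_gt (l * N)
  have hK0 : (0 : ℝ) < K := lt_of_le_of_lt (by positivity) hK
  set L := l / K with hL
  have hL0 : 0 < L := by positivity
  have hLN : L * N ≤ 1 := by
    rw [hL, div_mul_eq_mul_div, div_le_one hK0]; exact hK.le
  set A := Real.log (SS (θ a) N) with hA
  have hA0 : 0 ≤ A := Real.log_nonneg (one_le_SS (h0 a ha) N)
  let T : ℝ → ℝ := fun c => ∑ m ∈ range N, θ c (m + 1) / (m + 1)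
  have key : ∀ i : ℕ, i * L / 24 * A ≤ Real.exp (i * L / 2) * T (a * Real.exp (i * L)) := by
    intro i
    induction i with
    | zero =>
      simp only [Nat.cast_zero, zero_mul, zero_div, Real.exp_zero, one_mul, mul_one]
      exact sum_nonneg fun m _ => div_nonneg (h0 a ha _) (by positivity)
    | succ i ih =>
      set c := a * Real.exp (i * L) with hc
      set c' := a * Real.exp (((i + 1 : ℕ) : ℝ) * L) with hc'
      have c0 : 0 < c := by positivity
      have e1 : c' = c * Real.exp L := by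
        rw [hc, hc', mul_assoc, ← Real.exp_add]; push_cast; congr 2; ring
      have c1 : c ≤ c' := by
        rw [e1]; exact le_mul_of_one_le_right c0.le (Real.one_le_exp hL0.le)
      have c2 : a ≤ c := le_mul_of_one_le_right ha.le (Real.one_le_exp (by positivity))
      have c0' : 0 < c' := c0.trans_le c1
      have e2 : Real.log c' - Real.log c = L := by
        rw [e1, Real.log_mul c0.ne' (Real.exp_pos _).ne', Real.log_exp]; ring
      have b1 : ∀ m ∈ range N, θ c (m + 1) / (m + 1) ≤ Real.exp (L / 2) *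
          (θ c' (m + 1) / (m + 1) - L / 4 * (θ c' (m + 1) / SS (θ c') (m + 1))) := by
        intro m hmN
        have hS := one_le_SS (h0 c' c0') (m + 1)
        have d1 := hD c c' c0 c1 (m + 1) (by omega)
        rw [e2] at d1
        set S := SS (θ c') (m + 1)
        have hm1 : (0 : ℝ) < m + 1 := by positivity
        have hmN' : (m + 1 : ℝ) ≤ N := by exact_mod_cast mem_range.1 hmN
        have y0 : 0 ≤ (m + 1 : ℝ) / (2 * S) * L := by positivity
        have y1 : (m + 1 : ℝ) / (2 * S) * L ≤ 1 := by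
          rw [div_mul_eq_mul_div, div_le_one (by positivity)]
          nlinarith
        have d2 := exp_neg_le y0 y1
        have d3 : Real.exp (-((((m + 1 : ℕ) : ℝ) / (2 * S) - 1 / 2) * L)) =
            Real.exp (L / 2) * Real.exp (-((m + 1 : ℝ) / (2 * S) * L)) := by
          rw [← Real.exp_add]; push_cast; congr 1; ring
        rw [d3] at d1
        have d4 : θ c (m + 1) ≤ θ c' (m + 1) * (Real.exp (L / 2) *
            (1 - (m + 1 : ℝ) / (2 * S) * L / 2)) :=
          d1.trans (mul_le_mul_of_nonneg_left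
            (mul_le_mul_of_nonneg_left d2 (Real.exp_pos _).le) (h0 c' c0' _))
        rw [div_le_iff₀ hm1]
        refine d4.trans (le_of_eq ?_)
        field_simp
        ring
      have b2 := sum_le_sum b1
      rw [← mul_sum, sum_sub_distrib, ← mul_sum] at b2
      have b3 := log_SS_le (h0 c' c0') (h1 c' c0') N
      have b4 : A ≤ Real.log (SS (θ c') N) := by
        refine Real.log_le_log (by linarith [one_le_SS (h0 a ha) N]) ?_
        have := sum_le_sum (s := range N) fun m _ => hm a c' ha (c2.trans c1) (m + 1)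
        unfold SS
        linarith
      have b5 : T c ≤ Real.exp (L / 2) * (T c' - L / 24 * A) := by
        refine b2.trans (mul_le_mul_of_nonneg_left ?_ (Real.exp_pos _).le)
        have := mul_le_mul_of_nonneg_left (b4.trans b3) hL0.le
        simp only [T]
        linarith
      have b6 : Real.exp ((i : ℝ) * L / 2) * Real.exp (L / 2) =
          Real.exp (((i + 1 : ℕ) : ℝ) * L / 2) := by
        rw [← Real.exp_add]; push_cast; congr 1; ring
      have b7 : 1 ≤ Real.exp (((i + 1 : ℕ) : ℝ) * L / 2) := Real.one_le_exp (by positivity)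
      have b8 := mul_le_mul_of_nonneg_left b5 (Real.exp_pos ((i : ℝ) * L / 2)).le
      rw [← mul_assoc, b6] at b8
      have b9 := mul_le_mul_of_nonneg_right b7 (show 0 ≤ L / 24 * A by positivity)
      push_cast at b8 b9 ⊢
      nlinarith
  have e3 : (K : ℝ) * L = l := by rw [hL]; field_simp
  have e4 : a * Real.exp l = b := by
    rw [hl, Real.exp_sub, Real.exp_log ha, Real.exp_log (ha.trans hab)]; field_simp
  have := key K
  rwa [e3, e4] at this

lemma sharp_sq {a b : ℝ} (ha : 0 < a) (hab : a < b) (hb : Tendsto (θ b) atTop (𝓝 0)) :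
    ∃ C, 0 < C ∧ ∀ N : ℕ, 1 ≤ N → SS (θ a) N ^ 2 ≤ C * N := by
  set l := Real.log b - Real.log a with hl
  have hl0 : 0 < l := sub_pos.2 (Real.log_lt_log ha hab)
  set ε := l / 48 / Real.exp (l / 2) with hε
  have hε0 : 0 < ε := by positivity
  obtain ⟨n₀, hn₀⟩ := eventually_atTop.1 (hb.eventually (gt_mem_nhds hε0))
  refine ⟨Real.exp (48 / l * Real.exp (l / 2) * (n₀ + ε)), Real.exp_pos _, fun N hN => ?_⟩
  have hN0 : (0 : ℝ) < N := by exact_mod_cast hN
  have a1 := sharp_step h0 h1 hm hD ha hab N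
  have a2 : ∑ m ∈ range N, θ b (m + 1) / (m + 1) ≤ n₀ + ε * (1 + Real.log N) := by
    have b1 : ∀ m ∈ range N, θ b (m + 1) / (m + 1) ≤
        (if m ∈ range n₀ then 1 else 0) + ε * ((m + 1 : ℝ))⁻¹ := by
      intro m _
      have hm1 : (1 : ℝ) ≤ m + 1 := by linarith [Nat.cast_nonneg (α := ℝ) m]
      split_ifs with h
      · have : θ b (m + 1) / (m + 1) ≤ 1 := by
          rw [div_le_one (by positivity)]
          exact (h1 b (ha.trans hab) _).trans hm1
        have : 0 ≤ ε * ((m + 1 : ℝ))⁻¹ := by positivity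
        linarith
      · rw [zero_add, ← div_eq_mul_inv]
        exact div_le_div_of_nonneg_right
          (hn₀ (m + 1) (by simp only [mem_range] at h; omega)).le (by positivity)
    refine (sum_le_sum b1).trans ?_
    rw [sum_add_distrib, ← mul_sum]
    have b2 : ∑ m ∈ range N, (if m ∈ range n₀ then (1 : ℝ) else 0) ≤ n₀ := by
      rw [sum_ite_mem, sum_const, nsmul_eq_mul, mul_one]
      exact_mod_cast (card_le_card inter_subset_right).trans_eq (card_range n₀)
    have b3 : ∑ m ∈ range N, ((m + 1 : ℝ))⁻¹ ≤ 1 + Real.log N := by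
      have := harmonic_le_one_add_log N
      simpa [harmonic] using this
    exact add_le_add b2 (mul_le_mul_of_nonneg_left b3 hε0.le)
  have hS := one_le_SS (h0 a ha) N
  have a3 : 2 * Real.log (SS (θ a) N) ≤ 48 / l * Real.exp (l / 2) * (n₀ + ε) + Real.log N := by
    have b1 := a1.trans (mul_le_mul_of_nonneg_left a2 (Real.exp_pos _).le)
    have b2 := mul_le_mul_of_nonneg_left b1 (show 0 ≤ 48 / l by positivity)
    rw [← hl] at b2
    have e1 : 48 / l * (l / 24 * Real.log (SS (θ a) N)) = 2 * Real.log (SS (θ a) N) := by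
      field_simp; ring
    have e2 : 48 / l * (Real.exp (l / 2) * (n₀ + ε * (1 + Real.log N))) =
        48 / l * Real.exp (l / 2) * (n₀ + ε) + Real.log N := by
      rw [hε]; field_simp; ring
    rwa [e1, e2] at b2
  have a4 := Real.exp_le_exp.2 a3
  rw [Real.exp_add, Real.exp_log hN0, two_mul, Real.exp_add, Real.exp_log (by linarith)] at a4
  rwa [sq]

omit hm in
lemma sharp_bdd {a b C : ℝ} (ha : 0 < a) (hab : a < b) (hC : 0 < C)
    (hb : ∀ N : ℕ, 1 ≤ N → SS (θ b) N ^ 2 ≤ C * N) : ∃ B, ∀ N, SS (θ a) N ≤ B := by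
  set l := Real.log b - Real.log a with hl
  have hl0 : 0 < l := sub_pos.2 (Real.log_lt_log ha hab)
  have hb0 := ha.trans hab
  set c := Real.exp (l / 2) * 24 / (l ^ 2 / (4 * C)) ^ 2 with hc
  have a1 : ∀ m : ℕ, θ a (m + 1) ≤ c * (1 / ((m + 1 : ℕ) : ℝ) ^ 2) := by
    intro m
    have d1 := hD a b ha hab.le (m + 1) (by omega)
    have hS := one_le_SS (h0 b hb0) (m + 1)
    have d2 := hb (m + 1) (by omega)
    rw [← hl] at d1
    set S := SS (θ b) (m + 1)
    set n : ℝ := ((m + 1 : ℕ) : ℝ)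
    have hn : 0 < n := by positivity
    set y := n / (2 * S) * l with hy
    have y0 : 0 < y := by positivity
    have d3 : Real.exp (-((n / (2 * S) - 1 / 2) * l)) = Real.exp (l / 2) / Real.exp y := by
      rw [← Real.exp_sub]; congr 1; ring
    have d4 : y ^ 4 / 24 ≤ Real.exp y := by
      have := Real.pow_div_factorial_le_exp y y0.le 4
      simpa [Nat.factorial] using this
    have d5 : l ^ 2 / (4 * C) * n ≤ y ^ 2 := by
      have : y ^ 2 = l ^ 2 / 4 * n * (n / S ^ 2) := by rw [hy]; field_simp; ring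
      rw [this]
      have h2 : 1 / C ≤ n / S ^ 2 := by
        rw [div_le_div_iff₀ hC (by positivity)]; linarith
      calc l ^ 2 / (4 * C) * n = l ^ 2 / 4 * n * (1 / C) := by field_simp
        _ ≤ _ := by gcongr
    have d6 : (l ^ 2 / (4 * C)) ^ 2 * n ^ 2 ≤ y ^ 4 := by
      rw [← mul_pow, show y ^ 4 = (y ^ 2) ^ 2 by ring]
      exact pow_le_pow_left₀ (by positivity) d5 2
    rw [d3] at d1
    calc θ a (m + 1) ≤ 1 * (Real.exp (l / 2) / Real.exp y) :=
          d1.trans (mul_le_mul_of_nonneg_right (h1 b hb0 _) (by positivity))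
      _ ≤ 1 * (Real.exp (l / 2) / ((l ^ 2 / (4 * C)) ^ 2 * n ^ 2 / 24)) := by
          gcongr
          linarith
      _ = _ := by rw [hc]; field_simp
  have hs : Summable fun m : ℕ => c * (1 / ((m + 1 : ℕ) : ℝ) ^ 2) :=
    ((summable_nat_add_iff 1).2 (Real.summable_one_div_nat_pow.2 one_lt_two)).mul_left c
  refine ⟨1 + 2 * ∑' m : ℕ, c * (1 / ((m + 1 : ℕ) : ℝ) ^ 2), fun N => ?_⟩
  have a2 := (sum_le_sum (s := range N) fun m _ => a1 m).trans
    (hs.sum_le_tsum (range N) fun m _ => by positivity)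
  unfold SS
  linarith

theorem sharp {a b : ℝ} (ha : 0 < a) (hab : a < b) (hb : Tendsto (θ b) atTop (𝓝 0)) :
    ∃ C t, 0 < t ∧ ∀ n : ℕ, θ a n ≤ C * Real.exp (-(t * n)) := by
  have c1 : a < (2 * a + b) / 3 := by linarith
  have c2 : (2 * a + b) / 3 < (a + 2 * b) / 3 := by linarith
  have c3 : (a + 2 * b) / 3 < b := by linarith
  obtain ⟨C, hC, H⟩ := sharp_sq h0 h1 hm hD (ha.trans (c1.trans c2)) c3 hb
  obtain ⟨B, hB⟩ := sharp_bdd h0 h1 hD (ha.trans c1) c2 hC H
  set c := (2 * a + b) / 3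
  have hc0 := ha.trans c1
  set l := Real.log c - Real.log a with hl
  have hl0 : 0 < l := sub_pos.2 (Real.log_lt_log ha c1)
  have hB1 : 1 ≤ B := (one_le_SS (h0 c hc0) 0).trans (hB 0)
  refine ⟨Real.exp (l / 2), l / (2 * B), by positivity, fun n => ?_⟩
  rcases Nat.eq_zero_or_pos n with rfl | hn
  · simpa using (h1 a ha 0).trans (Real.one_le_exp (by positivity))
  have d1 := hD a c ha c1.le n hn
  rw [← hl] at d1
  refine (d1.trans (mul_le_mul_of_nonneg_right (h1 c hc0 _) (Real.exp_pos _).le)).trans ?_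
  rw [one_mul, ← Real.exp_add]
  refine Real.exp_le_exp.2 ?_
  have hS := one_le_SS (h0 c hc0) n
  have : l / (2 * B) * n ≤ n / (2 * SS (θ c) n) * l := by
    rw [div_mul_eq_mul_div, div_mul_eq_mul_div, mul_comm l]
    gcongr
    exact hB n
  linarith

end sharp

end Pool.Agent.P.MP_5c18f4_pr
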