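import Pool.Agent.P.MP_5c18f4_pr.FKBasic
import Pool.Agent.P.MP_5c18f4_pr.Sharp

open Finset Filter Topology

namespace Pool.Agent.P.MP_5c18f4_pr

variable {d : ℕ}

lemma ghost_disj {α : Type*} [DecidableEq α] {u A : Finset α} (hA : A ⊆ u) (h : ℝ) :
    ∑ Γ ∈ u.powerset, h ^ Γ.card * (1 - h) ^ (u \ Γ).card * (if Disjoint Γ A then 1 else 0) =
      (1 - h) ^ A.card := by
  have h1 := prod_add (fun e => if e ∈ A then 0 else h) (fun _ => 1 - h) u
  have h2 : ∏ e ∈ u, ((if e ∈ A then 0 else h) + (1 - h)) = (1 - h) ^ A.card := by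
    rw [← prod_subset hA (fun e _ he => by simp [he]), ← prod_const]
    exact prod_congr rfl fun e he => by simp [he]
  rw [← h2, h1]
  refine sum_congr rfl fun Γ _ => ?_
  rw [prod_const]
  by_cases hd : Disjoint Γ A
  · rw [if_pos hd, mul_one, ← prod_const]
    congr 1
    exact prod_congr rfl fun e he => by simp [disjoint_left.1 hd he]
  · rw [if_neg hd, mul_zero]
    obtain ⟨e, h1, h2⟩ := not_disjoint_iff.1 hd
    rw [prod_eq_zero h1 (by simp [h2]), zero_mul]

/-- the cluster of `x` has at least `n` edges -/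
noncomputable def fN (n : ℕ) (x : Site d) (ω : Finset (Sym2 (Site d))) : ℝ :=
  if n ≤ (CE ω x).card then 1 else 0

lemma fN_mono (n : ℕ) (x : Site d) : Monotone (fN n x) := by
  intro s t h
  unfold fN
  split_ifs with h1 h2
  · exact le_rfl
  · exact absurd (h1.trans (card_le_card (CE_mono h x))) h2
  · exact zero_le_one
  · exact le_rfl

lemma fN_nonneg (n : ℕ) (x : Site d) (ω : Finset (Sym2 (Site d))) : 0 ≤ fN n x ω := by
  unfold fN; split_ifs <;> norm_num

lemma fN_le (n : ℕ) (x : Site d) (ω : Finset (Sym2 (Site d))) : fN n x ω ≤ 1 := by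
  unfold fN; split_ifs <;> norm_num

/-- the cluster of `x` contains a green edge -/
noncomputable def gG (Γ : Finset (Sym2 (Site d))) (x : Site d) (ω : Finset (Sym2 (Site d))) : ℝ :=
  1 - if Disjoint Γ (CE ω x) then 1 else 0

/-- revealed edges -/
def Rev (Γ : Finset (Sym2 (Site d))) (e : Sym2 (Site d)) (ω : Finset (Sym2 (Site d))) : Prop :=
  e ∈ Γ ∨ ∃ y ∈ e, ¬Disjoint Γ (CE ω y)

lemma gG_det {Γ S u s ω₀ : Finset (Sym2 (Site d))} (hs : s ⊆ u) (h : s ∩ S = ω₀)
    (hno : ∀ e ∈ u, Rev Γ e ω₀ → e ∈ S) (x : Site d) : gG Γ x s = gG Γ x ω₀ := by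
  have h0 : ω₀ ⊆ s := h ▸ inter_subset_left
  have hin : ∀ e ∈ s, Rev Γ e ω₀ → e ∈ ω₀ := fun e he hr =>
    h ▸ mem_inter.2 ⟨he, hno e (hs he) hr⟩
  have key : Disjoint Γ (CE s x) ↔ Disjoint Γ (CE ω₀ x) := by
    refine ⟨fun hd => hd.mono_right (CE_mono h0 x), fun hd => ?_⟩
    by_contra hn
    obtain ⟨e, h1, h2⟩ := not_disjoint_iff.1 hn
    obtain ⟨h3, y, h4, h5⟩ := mem_CE.1 h2
    have h6 := cluster_subset (ω := (s : Set (Sym2 (Site d)))) (x := y)
      (T := {z | ¬Disjoint Γ (CE ω₀ z)})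
      (not_disjoint_iff.2 ⟨e, h1, mem_CE.2 ⟨hin e h3 (Or.inl h1), y, h4, self_mem_cluster _ _⟩⟩)
      (fun a b ha hab => by
        have := hin _ hab (Or.inr ⟨a, by simp, ha⟩)
        simp only [Set.mem_ofPred_eq]
        rwa [CE_eq_of_mem (mem_cluster_of_edge (x := a) (y := b) this)])
    exact h6 (cluster_symm h5) hd
  simp only [gG, key]

lemma one_sub_pow_le (n : ℕ) (hn : 1 ≤ n) (N : ℕ) :
    1 - (1 - 1 / (n : ℝ)) ^ N ≤ 1 / n * ∑ m ∈ range n, if m + 1 ≤ N then 1 else 0 := by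
  have hn' : (1 : ℝ) ≤ n := by exact_mod_cast hn
  have h0 : 0 ≤ 1 - 1 / (n : ℝ) := by rw [sub_nonneg, div_le_one (by linarith)]; exact hn'
  rcases le_total N n with h | h
  · have e : ∑ m ∈ range n, (if m + 1 ≤ N then (1 : ℝ) else 0) = N := by
      rw [← sum_filter, sum_const, nsmul_eq_mul, mul_one]
      congr 1
      rw [← card_range N]
      congr 1
      ext m
      simp only [mem_filter, mem_range, card_range]
      omega
    have := one_add_mul_le_pow (a := -(1 / (n : ℝ))) (by linarith) N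
    rw [e]
    rw [← sub_eq_add_neg] at this
    linarith
  · have e : ∑ m ∈ range n, (if m + 1 ≤ N then (1 : ℝ) else 0) = n := by
      rw [sum_congr rfl fun m hm => if_pos (by have := mem_range.1 hm; omega)]
      simp
    rw [e, one_div_mul_cancel (by linarith)]
    linarith [pow_nonneg h0 N]

lemma half_le_one_sub_pow (n : ℕ) (hn : 1 ≤ n) {N : ℕ} (h : n ≤ N) :
    1 / 2 ≤ 1 - (1 - 1 / (n : ℝ)) ^ N := by
  have hn' : (1 : ℝ) ≤ n := by exact_mod_cast hn
  have h0 : 0 ≤ 1 - 1 / (n : ℝ) := by rw [sub_nonneg, div_le_one (by linarith)]; exact hn'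
  have h1 : (1 - 1 / (n : ℝ)) ^ N ≤ (1 - 1 / (n : ℝ)) ^ n :=
    pow_le_pow_of_le_one h0 (by have : 0 ≤ 1 / (n : ℝ) := by positivity
                                linarith) h
  have h2 := Real.one_sub_div_pow_le_exp_neg (n := n) (t := 1) hn'
  have h3 := exp_neg_le (y := 1) zero_le_one le_rfl
  linarith

/-- supremum over volumes of the tail of the cluster size -/
noncomputable def th (J : Site d → ℝ) (q β : ℝ) (n : ℕ) : ℝ :=
  ⨆ Λ : Finset (Site d), fkExp J q β Λ (fN n 0)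

namespace JOK

variable {J : Site d → ℝ} (hJ : JOK J) {q : ℝ} (hq : 1 ≤ q)
include hJ hq

lemma osss_fk {β : ℝ} (hβ : 0 < β) (Λ : Finset (Site d)) {n : ℕ} (hn : 1 ≤ n) {S : ℝ}
    (hS : ∀ x, ∑ m ∈ range n, fkExp J q β Λ (fN (m + 1) x) ≤ S) :
    fkExp J q β Λ (fN n 0) * (1 / 2 - S / n) ≤ (1 + 2 * S) / n * ∑ e ∈ edges Λ,
      (fkExp J q β Λ (fun s => fN n 0 s * ind e s) -
        fkExp J q β Λ (fN n 0) * fkExp J q β Λ (ind e)) := by
  classical
  have L := hJ.latt hq hβ Λ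
  simp only [fkExp_eq] at hS ⊢
  set u := edges Λ
  set w := fw J q β Λ
  set f := fN (d := d) n 0
  have hn' : (1 : ℝ) ≤ n := by exact_mod_cast hn
  set h : ℝ := 1 / n with hh
  have h0 : 0 ≤ h := by positivity
  have h1 : h ≤ 1 := by rw [hh, div_le_one (by linarith)]; exact hn'
  let P : Finset (Sym2 (Site d)) → ℝ := fun Γ => h ^ Γ.card * (1 - h) ^ (u \ Γ).card
  have P0 : ∀ Γ, 0 ≤ P Γ := fun Γ => mul_nonneg (pow_nonneg h0 _) (pow_nonneg (by linarith) _)
  have P1 : ∑ Γ ∈ u.powerset, P Γ = 1 := by simpa using ghost_disj (empty_subset u) h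
  have Pg : ∀ x s, s ⊆ u → ∑ Γ ∈ u.powerset, P Γ * gG Γ x s = 1 - (1 - h) ^ (CE s x).card := by
    intro x s hs
    simp only [gG, mul_sub, mul_one, sum_sub_distrib, P1]
    rw [ghost_disj ((CE_subset s x).trans hs) h]
  have Pe : ∀ e ∈ u, ∑ Γ ∈ u.powerset, P Γ * ind e Γ = h := by
    intro e he
    have := ghost_disj (singleton_subset_iff.2 he) h
    have e1 : ∀ Γ : Finset (Sym2 (Site d)),
        ind e Γ = 1 - if Disjoint Γ {e} then 1 else 0 := fun Γ => by
      simp only [ind, disjoint_singleton_right]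
      split_ifs <;> norm_num
    simp only [e1, mul_sub, mul_one, sum_sub_distrib, P1]
    rw [this]
    simp
  have PM : ∀ x, Ex u w (fun s => ∑ Γ ∈ u.powerset, P Γ * gG Γ x s) ≤ S / n := by
    intro x
    refine (Ex_mono (g := fun s => 1 / n * ∑ m ∈ range n, fN (m + 1) x s) L.nonneg
      fun s hs => ?_).trans ?_
    · rw [Pg x s hs]
      exact one_sub_pow_le n hn _
    · rw [Ex_mul, Ex_sum, div_eq_mul_one_div S, mul_comm S]
      exact mul_le_mul_of_nonneg_left (hS x) h0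
  set cov : Sym2 (Site d) → ℝ := fun e =>
    Ex u w (fun s => f s * ind e s) - Ex u w f * Ex u w (ind e) with hcov
  have cov0 : ∀ e, 0 ≤ cov e := fun e => sub_nonneg.2 (L.fkg (fN_mono n 0) (ind_mono e))
  have k1 : ∀ Γ, Ex u w (fun s => f s * gG Γ 0 s) - Ex u w (gG Γ 0) * Ex u w f ≤
      ∑ e ∈ u, Ex u w (fun s => if Rev Γ e s then 1 else 0) * cov e := by
    intro Γ
    refine L.osss (fN_mono n 0) (fun e s => if Rev Γ e s then 1 else 0)
      (fun e s => by split_ifs <;> norm_num) fun S _ ξ => ?_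
    by_cases hc : ∃ e ∈ u, e ∉ S ∧ Rev Γ e (ξ ∩ S)
    · obtain ⟨e, he, heS, hr⟩ := hc
      refine Or.inr ⟨e, he, heS, fun s _ hs => if_pos ?_⟩
      rcases hr with hr | ⟨y, hy, hr⟩
      · exact Or.inl hr
      · exact Or.inr ⟨y, hy, fun hd => hr (hd.mono_right (CE_mono (hs ▸ inter_subset_left) y))⟩
    · refine Or.inl ⟨gG Γ 0 (ξ ∩ S), ?_, ?_, fun s hs hsS => gG_det hs hsS (fun e he hr => ?_) 0⟩
      · unfold gG; split_ifs <;> norm_num
      · unfold gG; split_ifs <;> norm_num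
      · by_contra hn
        exact hc ⟨e, he, hn, hr⟩
  have k2 := sum_le_sum (s := u.powerset) fun Γ _ => mul_le_mul_of_nonneg_left (k1 Γ) (P0 Γ)
  have k3 : ∑ Γ ∈ u.powerset,
      P Γ * (Ex u w (fun s => f s * gG Γ 0 s) - Ex u w (gG Γ 0) * Ex u w f) =
      Ex u w (fun s => f s * ∑ Γ ∈ u.powerset, P Γ * gG Γ 0 s) -
        Ex u w (fun s => ∑ Γ ∈ u.powerset, P Γ * gG Γ 0 s) * Ex u w f := by
    simp only [mul_sum, mul_left_comm (f _), Ex_sum, Ex_mul, sum_mul, ← sum_sub_distrib]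
    exact sum_congr rfl fun Γ _ => by ring
  have k4 : 1 / 2 * Ex u w f ≤ Ex u w (fun s => f s * ∑ Γ ∈ u.powerset, P Γ * gG Γ 0 s) := by
    rw [← Ex_mul]
    refine Ex_mono L.nonneg fun s hs => ?_
    rw [Pg 0 s hs]
    simp only [f, fN]
    split_ifs with hc
    · rw [mul_one, one_mul]
      exact half_le_one_sub_pow n hn hc
    · simp
  have f0 : 0 ≤ Ex u w f := Ex_nonneg L.nonneg fun s _ => fN_nonneg _ _ _
  have k5 := mul_le_mul_of_nonneg_right (PM 0) f0
  have k6 : ∑ Γ ∈ u.powerset, P Γ * ∑ e ∈ u, Ex u w (fun s => if Rev Γ e s then 1 else 0) * cov e ≤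
      (1 + 2 * S) / n * ∑ e ∈ u, cov e := by
    simp only [mul_sum]
    rw [sum_comm]
    refine sum_le_sum fun e he => ?_
    simp only [← mul_assoc]
    rw [← sum_mul]
    refine mul_le_mul_of_nonneg_right ?_ (cov0 e)
    induction e using Sym2.ind with
    | _ x y =>
    have a1 : ∀ Γ, Ex u w (fun s => if Rev Γ s(x, y) s then 1 else 0) ≤
        ind s(x, y) Γ + (Ex u w (gG Γ x) + Ex u w (gG Γ y)) := by
      intro Γ
      rw [← Ex_const L.Zpos (ind s(x, y) Γ), ← Ex_add, ← Ex_add]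
      refine Ex_mono L.nonneg fun s _ => ?_
      have b1 : ∀ z, 0 ≤ gG Γ z s := fun z => by unfold gG; split_ifs <;> norm_num
      have b2 := ind_nonneg s(x, y) Γ
      split_ifs with hr
      · rcases hr with hr | ⟨z, hz, hr⟩
        · have : ind s(x, y) Γ = 1 := if_pos hr
          linarith [b1 x, b1 y]
        · have : gG Γ z s = 1 := by simp [gG, hr]
          rcases Sym2.mem_iff.1 hz with rfl | rfl
          · linarith [b1 y]
          · linarith [b1 x]
      · linarith [b1 x, b1 y]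
    refine (sum_le_sum fun Γ _ => mul_le_mul_of_nonneg_left (a1 Γ) (P0 Γ)).trans ?_
    have a2 := PM x
    have a3 := PM y
    simp only [Ex_sum, Ex_mul] at a2 a3
    simp only [mul_add, sum_add_distrib]
    rw [Pe _ he, hh]
    have : (1 + 2 * S) / n = 1 / n + (S / n + S / n) := by ring
    linarith
  rw [k3] at k2
  nlinarith

lemma di_fin {a b : ℝ} (ha : 0 < a) (hab : a ≤ b) (Λ : Finset (Site d)) {n : ℕ} (hn : 1 ≤ n)
    {S : ℝ} (hS : ∀ x, ∑ m ∈ range n, fkExp J q b Λ (fN (m + 1) x) ≤ S) :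
    fkExp J q a Λ (fN n 0) ≤ fkExp J q b Λ (fN n 0) *
      Real.exp (-((n / (2 * (1 + 2 * S)) - 1 / 2) * (Real.log b - Real.log a))) := by
  set κ : ℝ := n / (2 * (1 + 2 * S)) - 1 / 2 with hκ
  have hn' : (1 : ℝ) ≤ n := by exact_mod_cast hn
  have hS0 : 0 ≤ S := le_trans (sum_nonneg fun m _ => Ex_nonneg
    (hJ.fw_nonneg hq (ha.le.trans hab) Λ) fun s _ => fN_nonneg _ _ _) (hS 0)
  have hder : ∀ β, 0 < β → β ≤ b → ∃ D, 0 ≤ D ∧ HasDerivAt
      (fun β => fkExp J q β Λ (fN n 0) * Real.exp (-(κ * Real.log β))) D β := by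
    intro β hβ hβb
    have h1 := hJ.hasDerivAt_fk hq hβ Λ (fN n 0)
    have h2 : HasDerivAt (fun β => Real.exp (-(κ * Real.log β)))
        (Real.exp (-(κ * Real.log β)) * -(κ * β⁻¹)) β :=
      ((Real.hasDerivAt_log hβ.ne').const_mul κ).neg.exp
    refine ⟨_, ?_, h1.mul h2⟩
    have h3 := hJ.osss_fk hq hβ Λ hn (S := S) fun x => le_trans
      (sum_le_sum fun m _ => hJ.beta_mono hq hβ hβb Λ (fN_mono _ _)) (hS x)
    have L := hJ.latt hq hβ Λ
    set f := fkExp J q β Λ (fN n 0)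
    have f0 : 0 ≤ f := Ex_nonneg L.nonneg fun s _ => fN_nonneg _ _ _
    set D := ∑ e ∈ edges Λ, (fkExp J q β Λ (fun s => fN n 0 s * ind e s) -
        f * fkExp J q β Λ (ind e))
    set f' := ∑ e ∈ edges Λ,
      edgeJ J e * Real.exp (β * edgeJ J e) / (Real.exp (β * edgeJ J e) - 1) *
        (fkExp J q β Λ (fun s => fN n 0 s * ind e s) - f * fkExp J q β Λ (ind e)) with hf'
    have h4 : D ≤ β * f' := by
      rw [hf', mul_sum]
      refine sum_le_sum fun e he => ?_
      rw [← mul_assoc]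
      exact le_mul_of_one_le_left (sub_nonneg.2 (L.fkg (fN_mono n 0) (ind_mono e)))
        (hJ.one_le_c hβ he)
    have h5 : κ * f ≤ D := by
      have e1 : f * (1 / 2 - S / n) = (1 + 2 * S) / n * ((κ + 1 / (2 * (1 + 2 * S))) * f) := by
        rw [hκ]; field_simp; ring
      rw [e1] at h3
      have h6 := le_of_mul_le_mul_left h3 (by positivity)
      have h7 : 0 ≤ 1 / (2 * (1 + 2 * S)) * f := by positivity
      linarith
    have e2 : f' * Real.exp (-(κ * Real.log β)) + f * (Real.exp (-(κ * Real.log β)) * -(κ * β⁻¹)) =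
        Real.exp (-(κ * Real.log β)) * β⁻¹ * (β * f' - κ * f) := by
      field_simp
      ring
    rw [e2]
    exact mul_nonneg (by positivity) (by linarith)
  have hmono : MonotoneOn (fun β => fkExp J q β Λ (fN n 0) * Real.exp (-(κ * Real.log β)))
      (Set.Icc a b) := by
    refine monotoneOn_of_deriv_nonneg (convex_Icc a b) (fun β hβ => ?_) (fun β hβ => ?_)
      (fun β hβ => ?_)
    · obtain ⟨D, _, h⟩ := hder β (ha.trans_le hβ.1) hβ.2
      exact h.continuousAt.continuousWithinAt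
    · have hβ' := interior_subset hβ
      obtain ⟨D, _, h⟩ := hder β (ha.trans_le hβ'.1) hβ'.2
      exact h.differentiableAt.differentiableWithinAt
    · have hβ' := interior_subset hβ
      obtain ⟨D, h0, h⟩ := hder β (ha.trans_le hβ'.1) hβ'.2
      rwa [h.deriv]
  have h1 := hmono (Set.left_mem_Icc.2 hab) (Set.right_mem_Icc.2 hab) hab
  have h2 := mul_le_mul_of_nonneg_right h1 (Real.exp_pos (κ * Real.log a)).le
  simp only [mul_assoc, ← Real.exp_add] at h2
  rw [neg_add_cancel, Real.exp_zero, mul_one] at h2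
  refine h2.trans (le_of_eq ?_)
  congr 2
  ring

lemma le_th {β : ℝ} (hβ : 0 < β) (Λ : Finset (Site d)) (n : ℕ) (x : Site d) :
    fkExp J q β Λ (fN n x) ≤ th J q β n := by
  have h1 := fkExp_map (J := J) (Equiv.addRight (-x)) (fun a b => by simp) q β Λ (fN n 0)
  have h2 : (fun ω : Finset (Sym2 (Site d)) => fN n 0 (ω.image (Sym2.map (Equiv.addRight (-x))))) =
      fN n x := by
    funext ω
    have := card_CE_map (Equiv.addRight (-x)) ω x
    simp only [Equiv.coe_addRight, add_neg_cancel] at this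
    simp only [fN, Equiv.coe_addRight, this]
  rw [h2] at h1
  rw [← h1]
  refine le_ciSup (f := fun Λ => fkExp J q β Λ (fN n 0)) ⟨1, ?_⟩ _
  rintro _ ⟨Λ, rfl⟩
  exact Ex_le (hJ.fw_nonneg hq hβ.le Λ) (hJ.latt hq hβ Λ).Zpos fun s _ => fN_le _ _ _

theorem th_sharp {a b : ℝ} (ha : 0 < a) (hab : a < b) (hb : Tendsto (th J q b) atTop (𝓝 0)) :
    ∃ C t, 0 < t ∧ ∀ n : ℕ, th J q a n ≤ C * Real.exp (-(t * n)) := by
  refine sharp (θ := th J q) (fun b hb n => ?_) (fun b hb n => ?_) (fun a b ha hab n => ?_)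
    (fun a b ha hab n hn => ?_) ha hab hb
  · exact le_trans (Ex_nonneg (hJ.fw_nonneg hq hb.le ∅) fun s _ => fN_nonneg _ _ _)
      (hJ.le_th hq hb ∅ n 0)
  · exact ciSup_le fun Λ =>
      Ex_le (hJ.fw_nonneg hq hb.le Λ) (hJ.latt hq hb Λ).Zpos fun s _ => fN_le _ _ _
  · exact ciSup_le fun Λ => (hJ.beta_mono hq ha hab Λ (fN_mono _ _)).trans
      (hJ.le_th hq (ha.trans_le hab) Λ n 0)
  · refine ciSup_le fun Λ => (hJ.di_fin hq ha hab Λ hn (S := ∑ m ∈ range n, th J q b (m + 1))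
      fun x => sum_le_sum fun m _ => hJ.le_th hq (ha.trans_le hab) Λ _ x).trans ?_
    exact mul_le_mul_of_nonneg_right (hJ.le_th hq (ha.trans_le hab) Λ n 0) (Real.exp_pos _).le

theorem exp_moment {a b : ℝ} (ha : 0 < a) (hab : a < b) (hb : Tendsto (th J q b) atTop (𝓝 0)) :
    ∃ R C, 1 < R ∧ ∀ Λ, fkExp J q a Λ (fun ω => R ^ (CE ω 0).card) ≤ C := by
  obtain ⟨C, t, ht, H⟩ := hJ.th_sharp hq ha hab hb
  have h1 : Real.exp (-(t / 2)) < 1 := Real.exp_lt_one_iff.2 (by linarith)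
  refine ⟨Real.exp (t / 2), |C| * (1 - Real.exp (-(t / 2)))⁻¹, Real.one_lt_exp_iff.2 (by linarith),
    fun Λ => ?_⟩
  have L := hJ.latt hq ha Λ
  rw [fkExp_eq]
  refine (Ex_mono (g := fun s => ∑ n ∈ range ((edges Λ).card + 1),
    Real.exp (t / 2) ^ n * fN n 0 s) L.nonneg fun s hs => ?_).trans ?_
  · refine le_trans ?_ (single_le_sum (f := fun n => Real.exp (t / 2) ^ n * fN n 0 s)
      (fun n _ => mul_nonneg (by positivity) (fN_nonneg _ _ _))
      (mem_range.2 (Nat.lt_succ_of_le (card_le_card ((CE_subset s 0).trans hs)))))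
    simp [fN]
  · simp only [Ex_sum, Ex_mul]
    rw [← tsum_geometric_of_lt_one (Real.exp_pos _).le h1, ← tsum_mul_left]
    refine le_trans (sum_le_sum fun n _ => ?_)
      (((summable_geometric_of_lt_one (Real.exp_pos _).le h1).mul_left |C|).sum_le_tsum
        (range ((edges Λ).card + 1)) fun n _ => by positivity)
    have h2 := ((hJ.le_th hq ha Λ n 0).trans (H n)).trans
      (mul_le_mul_of_nonneg_right (le_abs_self C) (Real.exp_pos _).le)
    refine (mul_le_mul_of_nonneg_left h2 (by positivity)).trans (le_of_eq ?_)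
    rw [← Real.exp_nat_mul, ← Real.exp_nat_mul, mul_left_comm, ← Real.exp_add]
    congr 2
    ring

end JOK

end Pool.Agent.P.MP_5c18f4_pr
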