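import Pool.Agent.P.MP_5c18f4_pr.FKLimit

open Finset Filter Topology MeasureTheory
open scoped ENNReal

namespace Pool.Agent.P.MP_5c18f4_pr

variable {d : ℕ}

lemma sum_edges (Λ : Finset (Site d)) (g : Sym2 (Site d) → ℝ) :
    ∑ x ∈ Λ, ∑ y ∈ Λ, (if x = y then 0 else g s(x, y)) = 2 * ∑ e ∈ edges Λ, g e := by
  have h1 : ∑ x ∈ Λ, ∑ y ∈ Λ, (if x = y then 0 else g s(x, y)) =
      ∑ p ∈ (Λ ×ˢ Λ).filter fun p => ¬p.1 = p.2, g s(p.1, p.2) := by
    rw [sum_filter, sum_product]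
    simp only [ite_not]
  rw [h1, ← sum_fiberwise_of_maps_to (t := edges Λ) (g := fun p => s(p.1, p.2)) (fun p hp => by
    simpa [mk_mem_edges, and_assoc] using hp), mul_sum]
  refine sum_congr rfl fun e he => ?_
  induction e using Sym2.ind with
  | _ a b =>
  obtain ⟨ha, hb, hab⟩ := mk_mem_edges.1 he
  have : ((Λ ×ˢ Λ).filter fun p => ¬p.1 = p.2).filter (fun p => s(p.1, p.2) = s(a, b)) =
      {(a, b), (b, a)} := by
    ext ⟨u, v⟩
    simp only [mem_filter, mem_product, Sym2.eq_iff, mem_insert, mem_singleton, Prod.mk.injEq]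
    constructor
    · exact fun h => h.2
    · rintro (⟨rfl, rfl⟩ | ⟨rfl, rfl⟩)
      · exact ⟨⟨⟨ha, hb⟩, hab⟩, Or.inl ⟨rfl, rfl⟩⟩
      · exact ⟨⟨⟨hb, ha⟩, Ne.symm hab⟩, Or.inr ⟨rfl, rfl⟩⟩
  rw [this, sum_pair (by simp [hab])]
  simp only [Sym2.eq_swap (a := b)]
  ring

lemma potts_weight {α : Type*} [DecidableEq α] {J : Site d → ℝ} (hJ : J 0 = 0) (β : ℝ)
    (Λ : Finset (Site d)) (σ : Λ → α) :
    Real.exp (β / 2 * ∑ i : Λ, ∑ j : Λ, if σ i = σ j then J (i.1 - j.1) else 0) =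
      ∑ ω ∈ (edges Λ).powerset, pw J β ω * ev (fun ω => Comp Λ ω σ) ω := by
  classical
  let δ : Sym2 (Site d) → ℝ := fun e => if ∀ a b : Λ, s(a.1, b.1) = e → σ a = σ b then 1 else 0
  have hδ : ∀ i j : Λ, δ s(i.1, j.1) = if σ i = σ j then 1 else 0 := by
    intro i j
    have : (∀ a b : Λ, s(a.1, b.1) = s(i.1, j.1) → σ a = σ b) ↔ σ i = σ j := by
      refine ⟨fun h => h i j rfl, fun h a b hab => ?_⟩
      rcases Sym2.eq_iff.1 hab with ⟨h1, h2⟩ | ⟨h1, h2⟩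
      · rw [Subtype.ext h1, Subtype.ext h2, h]
      · rw [Subtype.ext h1, Subtype.ext h2, h]
    simp only [δ, this]
  have h1 : ∑ i : Λ, ∑ j : Λ, (if σ i = σ j then J (i.1 - j.1) else 0) =
      2 * ∑ e ∈ edges Λ, edgeJ J e * δ e := by
    rw [← sum_edges, ← sum_coe_sort Λ]
    simp only [← sum_coe_sort Λ (fun y => if _ = y then _ else edgeJ J s(_, y) * δ s(_, y))]
    have h2 : ∑ i : Λ, ∑ j : Λ, (if σ i = σ j then J (i.1 - j.1) else 0) =
        ∑ i : Λ, ∑ j : Λ, (if σ i = σ j then J (j.1 - i.1) else 0) := by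
      rw [sum_comm]
      simp only [eq_comm]
    have h3 : ∑ i : Λ, ∑ j : Λ, (if i.1 = j.1 then 0 else edgeJ J s(i.1, j.1) * δ s(i.1, j.1)) =
        (∑ i : Λ, ∑ j : Λ, (if σ i = σ j then J (i.1 - j.1) else 0) +
          ∑ i : Λ, ∑ j : Λ, (if σ i = σ j then J (j.1 - i.1) else 0)) / 2 := by
      simp only [← sum_add_distrib, sum_div]
      refine sum_congr rfl fun i _ => sum_congr rfl fun j _ => ?_
      rw [hδ, edgeJ_mk]
      by_cases h : i.1 = j.1
      · simp [h, hJ]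
      · split_ifs <;> simp
    rw [h3, ← h2]
    ring
  rw [h1, show β / 2 * (2 * ∑ e ∈ edges Λ, edgeJ J e * δ e) =
    ∑ e ∈ edges Λ, β * edgeJ J e * δ e by simp only [mul_assoc, ← mul_sum]; ring, Real.exp_sum]
  have h4 : ∀ e, Real.exp (β * edgeJ J e * δ e) = 1 + (Real.exp (β * edgeJ J e) - 1) * δ e := by
    intro e
    simp only [δ]
    split_ifs <;> simp
  simp only [h4, prod_one_add, prod_mul_distrib]
  refine sum_congr rfl fun ω _ => ?_
  congr 1
  simp only [δ, prod_boole, ev]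
  congr 1
  exact propext ⟨fun h a b hab => h _ hab a b rfl, fun h e he a b hab => h a b (hab ▸ he)⟩

lemma sum_ev_card {β : Type*} [Fintype β] (p : β → Prop) (s : Finset (Sym2 (Site d))) :
    ∑ σ : β, ev (fun _ => p σ) s = Nat.card {σ // p σ} := by
  classical
  simp [ev, Nat.card_eq_fintype_card, Fintype.card_subtype]

lemma potts_eq {α : Type*} [Fintype α] [DecidableEq α] {J : Site d → ℝ} (hJ : JOK J)
    (hJ0 : J 0 = 0) {q : ℝ} (hq : 1 ≤ q) (hα : (Fintype.card α : ℝ) = q) {β : ℝ} (hβ : 0 < β)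
    (Λ : Finset (Site d)) (x y : Λ) (w : (Λ → α) → ℝ) (hw : ∀ σ, w σ =
      Real.exp (β / 2 * ∑ i : Λ, ∑ j : Λ, if σ i = σ j then J (i.1 - j.1) else 0)) :
    (∑ σ, if σ x = σ y then w σ else 0) / (∑ σ, w σ) =
      (1 - 1 / q) * fkExp J q β Λ (conn x.1 y.1) + 1 / q := by
  have hq0 : (0 : ℝ) < q := by linarith
  have hc : ∀ ω, ω ⊆ edges Λ → ∑ σ : Λ → α, ev (fun ω => Comp Λ ω σ) ω = q ^ kk Λ ω := by
    intro ω hω
    have := sum_ev_card (fun σ : Λ → α => Comp Λ ω σ) ω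
    rw [card_comp (hω.trans (edges_subset Λ)), Nat.card_eq_fintype_card, Nat.cast_pow, hα] at this
    exact this
  have h1 : ∑ σ, w σ = ∑ ω ∈ (edges Λ).powerset, fw J q β Λ ω := by
    simp only [hw, potts_weight hJ0]
    rw [sum_comm]
    exact sum_congr rfl fun ω hω => by rw [← mul_sum, hc ω (mem_powerset.1 hω), fw]
  have h2 : (∑ σ, if σ x = σ y then w σ else 0) =
      ∑ ω ∈ (edges Λ).powerset, fw J q β Λ ω * ((1 - 1 / q) * conn x.1 y.1 ω + 1 / q) := by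
    have e : ∀ σ : Λ → α, (if σ x = σ y then w σ else 0) =
        ∑ ω ∈ (edges Λ).powerset, pw J β ω * ev (fun ω => Comp Λ ω σ ∧ σ x = σ y) ω := by
      intro σ
      rw [hw, potts_weight hJ0]
      split_ifs with h
      · simp [h]
      · simp [h, ev]
    simp only [e]
    rw [sum_comm]
    refine sum_congr rfl fun ω hω => ?_
    have hω' := (mem_powerset.1 hω).trans (edges_subset Λ)
    rw [← mul_sum, fw, mul_assoc]
    congr 1
    by_cases h : y.1 ∈ cluster (ω : Set (Sym2 (Site d))) x.1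
    · rw [← hc ω (mem_powerset.1 hω)]
      simp only [conn, ev, h, if_true, mul_one, sub_add_cancel]
      refine sum_congr rfl fun σ _ => ?_
      congr 1
      exact propext ⟨fun h => h.1, fun h' => ⟨h', h'.eq_of_mem hω' h⟩⟩
    · have a1 := sum_ev_card (fun σ : Λ → α => Comp Λ ω σ ∧ σ x = σ y) ω
      have a2 := congrArg (Nat.cast : ℕ → ℝ) (card_comp_eq (β := α) hω' h)
      rw [Nat.cast_mul, Nat.cast_pow, Nat.card_eq_fintype_card (α := α), hα, ← a1] at a2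
      rw [← a2]
      simp only [conn, ev, h, if_false, mul_zero, zero_add]
      field_simp
  rw [h1, h2]
  change Ex (edges Λ) (fw J q β Λ) (fun ω => (1 - 1 / q) * conn x.1 y.1 ω + 1 / q) = _
  rw [Ex_add, Ex_mul, Ex_const (hJ.latt hq hβ Λ).Zpos, fkExp_eq]

lemma CorrContinuous.const_mul {G : ℝ → Site d → ℝ} {I : Set ℝ} (h : CorrContinuous G I) {c : ℝ}
    (hc : 0 < c) : CorrContinuous (fun l x => c * G l x) I := by
  refine ⟨fun l hl x => mul_pos hc (h.1 l hl x), fun s => ?_⟩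
  obtain ⟨ν, h1, h2⟩ := h.2 s
  refine ⟨ν, fun l hl => ?_, h2⟩
  have := (h1 l hl).sub (tendsto_const_div_atTop_nhds_zero_nat (Real.log c))
  rw [sub_zero] at this
  refine this.congr fun n => ?_
  rw [Real.log_mul hc.ne' (h.1 l hl _).ne']
  ring

lemma CorrContinuous.two_mul {G : ℝ → Site d → ℝ} {c : ℝ≥0∞} (h : CorrContinuous G (below c)) :
    CorrContinuous (fun l x => G (2 * l) x) (below (c / 2)) := by
  have hm : ∀ l ∈ below (c / 2), 2 * l ∈ below c := fun l hl => ⟨by linarith [hl.1], by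
    have := hl.2
    rw [ENNReal.lt_div_iff_mul_lt (by simp) (by simp)] at this
    rw [ENNReal.ofReal_mul zero_le_two, mul_comm]
    simpa using this⟩
  refine ⟨fun l hl x => h.1 _ (hm l hl) x, fun s => ?_⟩
  obtain ⟨ν, h1, h2⟩ := h.2 s
  exact ⟨fun l => ν (2 * l), fun l hl => h1 _ (hm l hl), h2.comp (by fun_prop) hm⟩

lemma isBoxLimit_of {g : ℝ → (Λ : Finset (Site d)) → Λ → Λ → ℝ} {G : ℝ → Site d → ℝ}
    (F : ℝ → Finset (Site d) → Site d → Site d → ℝ)
    (h : ∀ β, 0 < β → ∀ (Λ : Finset (Site d)) (x y : Λ), g β Λ x y = F β Λ x.1 y.1)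
    (hF : ∀ β, 0 < β → ∀ x, Tendsto (fun n => F β (box d n) 0 x) atTop (𝓝 (G β x))) :
    IsBoxLimit g G := by
  intro β hβ x
  refine (hF β hβ x).congr' ?_
  filter_upwards [eventually_subset_box {x}] with n hn
  rw [dif_pos ⟨zero_mem_box n, hn (mem_singleton_self x)⟩, h β hβ]

namespace JOK

variable {J : Site d → ℝ} (hJ : JOK J) (hJ0 : J 0 = 0)
include hJ hJ0

theorem corr_potts {k : ℕ} (hk : 2 ≤ k) {Φ : ℝ → Measure (Set (Sym2 (Site d)))}
    (hΦ : ∀ β, 0 < β → IsFKLimit J k β (Φ β)) :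
    ∃ G, IsBoxLimit (pottsCorr J k) G ∧ CorrContinuous G (below (fkThreshold Φ)) := by
  have hk' : (2 : ℝ) ≤ k := by exact_mod_cast hk
  have hq : (1 : ℝ) ≤ k := by linarith
  refine ⟨_, isBoxLimit_of (fun β Λ x y => (1 - 1 / k) * fkExp J k β Λ (conn x y))
    (fun β hβ Λ x y => ?_) (fun β hβ x => (hJ.conn_tendsto hq hβ (hΦ β hβ) x).const_mul _),
    (hJ.corr_fk hq hΦ).const_mul ?_⟩
  · have := potts_eq (α := Fin k) hJ hJ0 hq (by simp) hβ Λ x y _ (fun _ => rfl)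
    simp only [pottsCorr]
    rw [this]
    ring
  · rw [sub_pos, div_lt_one (by linarith)]
    linarith

theorem corr_ising {Φ : ℝ → Measure (Set (Sym2 (Site d)))}
    (hΦ : ∀ β, 0 < β → IsFKLimit J 2 β (Φ β)) :
    ∃ G, IsBoxLimit (isingCorr J) G ∧ CorrContinuous G (below (fkThreshold Φ / 2)) := by
  refine ⟨_, isBoxLimit_of (fun β Λ x y => fkExp J 2 (2 * β) Λ (conn x y))
    (fun β hβ Λ x y => ?_)
    (fun β hβ x => hJ.conn_tendsto one_le_two (by linarith) (hΦ (2 * β) (by linarith)) x),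
    (hJ.corr_fk one_le_two hΦ).two_mul⟩
  have h1 := potts_eq (α := ℤˣ) hJ hJ0 one_le_two (by simp) (β := 2 * β) (by linarith) Λ x y _
    (fun _ => rfl)
  have h2 : ∀ a b : ℤˣ, (((a : ℤ) : ℝ) * ((b : ℤ) : ℝ)) = 2 * (if a = b then 1 else 0) - 1 := by
    intro a b
    rcases Int.units_eq_one_or a with rfl | rfl <;> rcases Int.units_eq_one_or b with rfl | rfl <;>
      simp <;> norm_num
  set w : (Λ → ℤˣ) → ℝ := fun σ =>
    Real.exp (2 * β / 2 * ∑ i : Λ, ∑ j : Λ, if σ i = σ j then J (i.1 - j.1) else 0) with hw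
  set c := Real.exp (-(β / 2 * ∑ i : Λ, ∑ j : Λ, J (i.1 - j.1))) with hc
  have h3 : ∀ σ : Λ → ℤˣ, Real.exp (β / 2 * ∑ i : Λ, ∑ j : Λ,
      J (i.1 - j.1) * (((σ i : ℤ) : ℝ) * ((σ j : ℤ) : ℝ))) = c * w σ := by
    intro σ
    rw [hc, hw, ← Real.exp_add]
    congr 1
    simp only [h2, mul_sub, mul_one, sum_sub_distrib, mul_ite, mul_zero]
    have : ∑ i : Λ, ∑ j : Λ, (if σ i = σ j then J (i.1 - j.1) * 2 else 0) =
        2 * ∑ i : Λ, ∑ j : Λ, (if σ i = σ j then J (i.1 - j.1) else 0) := by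
      simp only [mul_sum]
      exact sum_congr rfl fun i _ => sum_congr rfl fun j _ => by split_ifs <;> ring
    rw [this]
    ring
  have hZ : 0 < ∑ σ, w σ := sum_pos (fun σ _ => Real.exp_pos _) univ_nonempty
  have hc0 : 0 < c := Real.exp_pos _
  simp only [isingCorr, h3]
  simp only [h2]
  have h4 : ∑ σ : Λ → ℤˣ, (2 * (if σ x = σ y then 1 else 0) - 1) * (c * w σ) =
      c * (2 * (∑ σ : Λ → ℤˣ, if σ x = σ y then w σ else 0) - ∑ σ, w σ) := by
    simp only [mul_sum, ← sum_sub_distrib]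
    refine sum_congr rfl fun σ _ => ?_
    split_ifs <;> ring
  rw [h4, ← mul_sum, mul_div_mul_left _ _ hc0.ne', sub_div, div_self hZ.ne', mul_div_assoc, h1]
  ring

end JOK

end Pool.Agent.P.MP_5c18f4_pr
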