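import Pool.Agent.P.MP_5c18f4_pr.Defs

open Filter Topology

namespace Pool.Agent.P.MP_5c18f4_pr

variable {d : ℕ}

/-- real vector of a site -/
abbrev toR (x : Site d) : Fin d → ℝ := fun i => (x i : ℝ)

lemma mem_box {n : ℕ} {x : Site d} : x ∈ box d n ↔ ∀ i, |x i| ≤ n := by
  simp [box, Fintype.mem_piFinset, abs_le]

lemma zero_mem_box (n : ℕ) : (0 : Site d) ∈ box d n := by simp [mem_box]

lemma box_mono {m n : ℕ} (h : m ≤ n) : box d m ⊆ box d n := by
  intro x hx
  rw [mem_box] at hx ⊢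
  intro i
  exact (hx i).trans (by exact_mod_cast h)

lemma exists_subset_box (Λ : Finset (Site d)) : ∃ n, ∀ m, n ≤ m → Λ ⊆ box d m := by
  refine ⟨Λ.sup fun x => Finset.univ.sup fun i => (x i).natAbs, fun m hm x hx => ?_⟩
  rw [mem_box]
  intro i
  have h1 : (x i).natAbs ≤ Finset.univ.sup fun i => (x i).natAbs :=
    Finset.le_sup (f := fun i => (x i).natAbs) (Finset.mem_univ i)
  have h2 : (Finset.univ.sup fun i => (x i).natAbs) ≤
      Λ.sup fun x => Finset.univ.sup fun i => (x i).natAbs :=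
    Finset.le_sup (f := fun x : Site d => Finset.univ.sup fun i => (x i).natAbs) hx
  have : (x i).natAbs ≤ m := h1.trans (h2.trans hm)
  rw [Int.abs_eq_natAbs]
  exact_mod_cast this

lemma eventually_subset_box (Λ : Finset (Site d)) : ∀ᶠ n in atTop, Λ ⊆ box d n := by
  obtain ⟨n, hn⟩ := exists_subset_box Λ
  exact eventually_atTop.2 ⟨n, hn⟩

lemma site_nsmul (n : ℕ) (x : Site d) : site ((n : ℝ) • toR x) = n • x := by
  funext i
  simp only [site, Pi.smul_apply, smul_eq_mul, nsmul_eq_mul]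
  rw [Int.floor_eq_iff]
  push_cast
  constructor <;> linarith

lemma site_close (x : Fin d → ℝ) (i : Fin d) : |(site x i : ℝ) - x i| ≤ 1 / 2 := by
  have h1 := Int.floor_le (x i + 1 / 2)
  have h2 := Int.lt_floor_add_one (x i + 1 / 2)
  simp only [site]
  rw [abs_le]
  constructor <;> linarith

lemma site_add_err (x y : Fin d → ℝ) (i : Fin d) : |(site (x + y) - site x - site y) i| ≤ 1 := by
  have h1 := abs_le.1 (site_close x i)
  have h2 := abs_le.1 (site_close y i)
  have h3 := abs_le.1 (site_close (x + y) i)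
  simp only [Pi.add_apply] at h3
  have : |((site (x + y) - site x - site y) i : ℝ)| < 2 := by
    simp only [Pi.sub_apply]
    push_cast
    rw [abs_lt]
    constructor <;> linarith
  have h4 : |(site (x + y) - site x - site y) i| < 2 := by exact_mod_cast this
  omega

lemma subadd_cube (U : Site d → ℝ) (hU : ∀ x y, U (x + y) ≤ U x + U y) :
    ∃ C, 0 ≤ C ∧ ∀ (m : ℕ) (y : Site d), (∀ i, |y i| ≤ m + 1) → U y ≤ C * (m + 1) := by
  refine ⟨∑ z ∈ box d 1, |U z|, Finset.sum_nonneg fun _ _ => abs_nonneg _, ?_⟩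
  have h0 : ∀ y : Site d, (∀ i, |y i| ≤ 1) → U y ≤ ∑ z ∈ box d 1, |U z| := by
    intro y hy
    refine (le_abs_self _).trans
      (Finset.single_le_sum (f := fun z => |U z|) (fun _ _ => abs_nonneg _) ?_)
    rw [mem_box]
    exact_mod_cast hy
  intro m
  induction m with
  | zero => intro y hy; simpa using h0 y (by simpa using hy)
  | succ m ih =>
    intro y hy
    have e : y = (fun i => Int.sign (y i)) + (y - fun i => Int.sign (y i)) := by abel
    have h1 := h0 (fun i => Int.sign (y i)) (fun i => by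
      rcases lt_trichotomy (y i) 0 with h | h | h
      · simp [Int.sign_eq_neg_one_of_neg h]
      · simp [h]
      · simp [Int.sign_eq_one_of_pos h])
    have h2 := ih (y - fun i => Int.sign (y i)) (fun i => by
      have := abs_le.1 (hy i)
      push_cast at this
      rw [abs_le]
      rcases lt_trichotomy (y i) 0 with h | h | h
      · simp only [Pi.sub_apply, Int.sign_eq_neg_one_of_neg h]; omega
      · simp only [Pi.sub_apply, h, Int.sign_zero]; omega
      · simp only [Pi.sub_apply, Int.sign_eq_one_of_pos h]; omega)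
    have h3 := hU (fun i => Int.sign (y i)) (y - fun i => Int.sign (y i))
    rw [← e] at h3
    push_cast
    linarith

/-- positive, bounded and supermultiplicative two-point function -/
structure Good (G : Site d → ℝ) (K : ℝ) : Prop where
  pos : ∀ x, 0 < G x
  le : ∀ x, G x ≤ K
  mul : ∀ x y, G x * G y ≤ K * G (x + y)

/-- the inverse correlation length -/
noncomputable def rate (G : Site d → ℝ) (s : Fin d → ℝ) : ℝ :=
  limUnder atTop fun n : ℕ => -Real.log (G (site ((n : ℝ) • s))) / n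

namespace Good

variable {G : Site d → ℝ} {K : ℝ} (h : Good G K)
include h

lemma Kpos : 0 < K := (h.pos 0).trans_le (h.le 0)

lemma U_nonneg (x : Site d) : 0 ≤ Real.log K - Real.log (G x) :=
  sub_nonneg.2 (Real.log_le_log (h.pos x) (h.le x))

lemma U_add (x y : Site d) : Real.log K - Real.log (G (x + y)) ≤
    (Real.log K - Real.log (G x)) + (Real.log K - Real.log (G y)) := by
  have h1 := Real.log_le_log (mul_pos (h.pos x) (h.pos y)) (h.mul x y)
  rw [Real.log_mul (h.pos x).ne' (h.pos y).ne', Real.log_mul h.Kpos.ne' (h.pos _).ne'] at h1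
  linarith

omit h in
lemma fek (u : ℕ → ℝ) (hu : Subadditive u) (h0 : ∀ n, 0 ≤ u n) (c : ℝ) :
    Tendsto (fun n : ℕ => (u n - c) / n) atTop (𝓝 hu.lim) ∧ hu.lim ≤ u 1 := by
  have hb : BddBelow (Set.range fun n : ℕ => u n / n) :=
    ⟨0, by rintro _ ⟨n, rfl⟩; exact div_nonneg (h0 n) (Nat.cast_nonneg n)⟩
  refine ⟨?_, by simpa using hu.lim_le_div hb one_ne_zero⟩
  have h1 := (hu.tendsto_lim hb).sub (tendsto_const_div_atTop_nhds_zero_nat c)
  rw [sub_zero] at h1
  exact h1.congr fun n => by rw [sub_div]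

lemma tendsto_rate (s : Fin d → ℝ) :
    Tendsto (fun n : ℕ => -Real.log (G (site ((n : ℝ) • s))) / n) atTop (𝓝 (rate G s)) := by
  obtain ⟨C, hC0, hC⟩ := subadd_cube (fun x => Real.log K - Real.log (G x)) h.U_add
  have hu : Subadditive fun n : ℕ => Real.log K - Real.log (G (site ((n : ℝ) • s))) + C := by
    intro m n
    have e : site (((m + n : ℕ) : ℝ) • s) = (site ((m : ℝ) • s) + site ((n : ℝ) • s)) +
        (site ((m : ℝ) • s + (n : ℝ) • s) - site ((m : ℝ) • s) - site ((n : ℝ) • s)) := by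
      rw [Nat.cast_add, add_smul]; abel
    have h1 := hC 0 (site ((m : ℝ) • s + (n : ℝ) • s) - site ((m : ℝ) • s) - site ((n : ℝ) • s))
      (fun i => by simpa using site_add_err ((m : ℝ) • s) ((n : ℝ) • s) i)
    have h2 := h.U_add (site ((m : ℝ) • s) + site ((n : ℝ) • s))
      (site ((m : ℝ) • s + (n : ℝ) • s) - site ((m : ℝ) • s) - site ((n : ℝ) • s))
    have h3 := h.U_add (site ((m : ℝ) • s)) (site ((n : ℝ) • s))
    rw [← e] at h2
    simp only [Nat.cast_zero, zero_add, mul_one] at h1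
    beta_reduce
    linarith
  have h1 := (fek _ hu (fun n => add_nonneg (h.U_nonneg _) hC0) (Real.log K + C)).1
  have h2 : Tendsto (fun n : ℕ => -Real.log (G (site ((n : ℝ) • s))) / n) atTop (𝓝 hu.lim) :=
    h1.congr fun n => by congr 1; ring
  exact tendsto_nhds_limUnder ⟨_, h2⟩

lemma rate_nonneg (s : Fin d → ℝ) : 0 ≤ rate G s := by
  have h1 := (h.tendsto_rate s).add (tendsto_const_div_atTop_nhds_zero_nat (Real.log K))
  rw [add_zero] at h1
  refine ge_of_tendsto' h1 fun n => ?_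
  rw [← add_div]
  exact div_nonneg (by linarith [h.U_nonneg (site ((n : ℝ) • s))]) (Nat.cast_nonneg n)

lemma tendsto_nu (x : Site d) :
    Tendsto (fun n : ℕ => -Real.log (G (n • x)) / n) atTop (𝓝 (rate G (toR x))) := by
  simpa only [site_nsmul] using h.tendsto_rate (toR x)

lemma le_exp (x : Site d) : G x ≤ K * Real.exp (-rate G (toR x)) := by
  have hu : Subadditive fun n : ℕ => Real.log K - Real.log (G (n • x)) := by
    intro m n
    have := h.U_add (m • x) (n • x)
    rwa [← add_smul] at this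
  obtain ⟨h1, h2⟩ := fek _ hu (fun n => h.U_nonneg _) (Real.log K)
  have h3 : Tendsto (fun n : ℕ => -Real.log (G (n • x)) / n) atTop (𝓝 hu.lim) :=
    h1.congr fun n => by congr 1; ring
  rw [tendsto_nhds_unique h3 (h.tendsto_nu x), one_smul] at h2
  have h4 : Real.log (G x) ≤ Real.log K + -rate G (toR x) := by linarith
  have h5 := Real.exp_le_exp.2 h4
  rwa [Real.exp_log (h.pos x), Real.exp_add, Real.exp_log h.Kpos] at h5

lemma nu_add (x y : Site d) : rate G (toR (x + y)) ≤ rate G (toR x) + rate G (toR y) := by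
  have h1 := ((h.tendsto_nu x).add (h.tendsto_nu y)).add
    (tendsto_const_div_atTop_nhds_zero_nat (Real.log K))
  rw [add_zero] at h1
  refine le_of_tendsto_of_tendsto' (h.tendsto_nu (x + y)) h1 fun n => ?_
  rw [← add_div, ← add_div, smul_add]
  exact div_le_div_of_nonneg_right (by linarith [h.U_add (n • x) (n • y)]) (Nat.cast_nonneg n)

lemma rate_nsmul (m : ℕ) (s : Fin d → ℝ) : rate G ((m : ℝ) • s) = m * rate G s := by
  rcases Nat.eq_zero_or_pos m with rfl | hm
  · have h1 := h.tendsto_rate (((0 : ℕ) : ℝ) • s)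
    simp only [Nat.cast_zero, zero_smul, smul_zero, zero_mul] at h1 ⊢
    exact tendsto_nhds_unique h1 (tendsto_const_div_atTop_nhds_zero_nat _)
  have h1 : Tendsto (fun n : ℕ => n * m) atTop atTop :=
    tendsto_id.atTop_mul_const' hm
  have h2 := ((h.tendsto_rate s).comp h1).const_mul (m : ℝ)
  refine tendsto_nhds_unique (h.tendsto_rate _) (h2.congr fun n => ?_)
  have hm' : (m : ℝ) ≠ 0 := by positivity
  simp only [Function.comp, Nat.cast_mul, smul_smul]
  rcases Nat.eq_zero_or_pos n with rfl | hn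
  · simp
  have hn' : (n : ℝ) ≠ 0 := by positivity
  field_simp

lemma nu_nsmul (m : ℕ) (x : Site d) : rate G (toR (m • x)) = m * rate G (toR x) := by
  rw [← h.rate_nsmul]
  congr 1
  funext i
  simp [toR]

lemma exists_rate_le_nu : ∃ C, ∀ s : Fin d → ℝ, rate G s ≤ rate G (toR (site s)) + C := by
  obtain ⟨C, hC0, hC⟩ := subadd_cube (fun x => Real.log K - Real.log (G x)) h.U_add
  refine ⟨C, fun s => ?_⟩
  have h1 := ((h.tendsto_nu (site s)).add (tendsto_const_div_atTop_nhds_zero_nat C)).add_const C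
  rw [add_zero] at h1
  refine le_of_tendsto_of_tendsto (h.tendsto_rate s) h1 ?_
  filter_upwards [eventually_gt_atTop 0] with n hn
  have hn' : (0 : ℝ) < n := by exact_mod_cast hn
  have h2 := hC n (site ((n : ℝ) • s) - n • site s) (fun i => by
    have a1 := abs_le.1 (site_close ((n : ℝ) • s) i)
    have a2 := abs_le.1 (site_close s i)
    simp only [Pi.smul_apply, smul_eq_mul] at a1
    have hn1 : (1 : ℝ) ≤ n := by exact_mod_cast hn
    have : |((site ((n : ℝ) • s) - n • site s) i : ℝ)| ≤ n + 1 := by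
      simp only [Pi.sub_apply, nsmul_eq_mul, Pi.mul_apply, Pi.natCast_apply]
      push_cast
      rw [abs_le]
      constructor <;> nlinarith [a2.1, a2.2]
    exact_mod_cast this)
  have h3 := h.U_add (n • site s) (site ((n : ℝ) • s) - n • site s)
  rw [add_sub_cancel] at h3
  rw [← add_div, div_add' _ _ _ hn'.ne']
  exact div_le_div_of_nonneg_right (by linarith) hn'.le

lemma nu_map (τ : Site d →+ Site d) (hτ : ∀ x, G (τ x) = G x) (x : Site d) :
    rate G (toR (τ x)) = rate G (toR x) := by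
  refine tendsto_nhds_unique (h.tendsto_nu _) ((h.tendsto_nu x).congr fun n => ?_)
  rw [← map_nsmul, hτ]

end Good

lemma rate_le_of_le {G G' : Site d → ℝ} {K K' : ℝ} (h : Good G K) (h' : Good G' K') {C θ : ℝ}
    (hle : ∀ x, Real.log (G' x) ≤ C + θ * Real.log (G x)) (s : Fin d → ℝ) :
    θ * rate G s ≤ rate G' s := by
  have h1 := ((h.tendsto_rate s).const_mul θ).sub (tendsto_const_div_atTop_nhds_zero_nat C)
  rw [sub_zero] at h1
  refine le_of_tendsto_of_tendsto' h1 (h'.tendsto_rate s) fun n => ?_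
  rw [← mul_div_assoc, ← sub_div]
  exact div_le_div_of_nonneg_right (by linarith [hle (site ((n : ℝ) • s))]) (Nat.cast_nonneg n)

lemma rate_anti {G G' : Site d → ℝ} {K K' : ℝ} (h : Good G K) (h' : Good G' K')
    (hle : ∀ x, G' x ≤ G x) (s : Fin d → ℝ) : rate G s ≤ rate G' s := by
  simpa using rate_le_of_le h h' (C := 0) (θ := 1)
    (fun x => by simpa using Real.log_le_log (h'.pos x) (hle x)) s

lemma cont_of_H {ν : ℝ → ℝ} {I : Set ℝ} (hI : IsOpen I) (h0 : ∀ l ∈ I, 0 ≤ ν l)
    (hanti : AntitoneOn ν I)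
    (H : ∀ l ∈ I, ∀ c > 0, ∀ δ > 0, δ < 1 → ∃ η > 0, ∀ a ∈ I, ∀ b ∈ I, |a - l| < η → |b - l| < η →
      a ≤ b → c ≤ ν a → (1 - δ) * ν a ≤ ν b) : ContinuousOn ν I := by
  intro l hl
  obtain ⟨r, hr, hrI⟩ := Metric.isOpen_iff.1 hI l hl
  have hl' : l - r / 2 ∈ I := hrI (by rw [Metric.mem_ball, Real.dist_eq, abs_lt]; constructor <;> linarith)
  set M := ν (l - r / 2) with hM
  have hM0 : 0 ≤ M := h0 _ hl'
  rw [Metric.continuousWithinAt_iff]
  intro ε hε
  obtain ⟨η, hη, H'⟩ := H l hl (ε / 2) (by positivity) (min (1 / 2) (ε / (2 * (M + 1))))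
    (lt_min (by norm_num) (by positivity)) ((min_le_left _ _).trans_lt (by norm_num))
  have key : ∀ a ∈ I, ∀ b ∈ I, |a - l| < min η (r / 2) → |b - l| < min η (r / 2) → a ≤ b →
      |ν a - ν b| < ε := by
    intro a ha b hb h1 h2 hab
    have h3 := hanti ha hb hab
    have h4 : ν a ≤ M := hanti hl' ha (by linarith [(abs_lt.1 (h1.trans_le (min_le_right _ _))).1])
    rw [abs_of_nonneg (by linarith)]
    by_cases hc : ε / 2 ≤ ν a
    · have h5 := H' a ha b hb (h1.trans_le (min_le_left _ _)) (h2.trans_le (min_le_left _ _)) hab hc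
      have h6 : min (1 / 2) (ε / (2 * (M + 1))) * ν a ≤ ε / (2 * (M + 1)) * (M + 1) :=
        mul_le_mul (min_le_right _ _) (by linarith) (h0 a ha) (by positivity)
      have h7 : ε / (2 * (M + 1)) * (M + 1) = ε / 2 := by field_simp
      nlinarith
    · linarith [h0 b hb]
  refine ⟨min η (r / 2), lt_min hη (by positivity), fun x hx hxl => ?_⟩
  rw [Real.dist_eq] at hxl ⊢
  have hll : |l - l| < min η (r / 2) := by simpa using ⟨hη, hr⟩
  rcases le_total x l with h | h
  · exact key x hx l hl hxl hll h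
  · rw [abs_sub_comm]; exact key l hl x hx hll hxl h

theorem corr_of_H {G : ℝ → Site d → ℝ} {I : Set ℝ} (hI : IsOpen I)
    (hG : ∀ l ∈ I, ∃ K, Good (G l) K)
    (hmono : ∀ a ∈ I, ∀ b ∈ I, a ≤ b → ∀ x, G a x ≤ G b x)
    (H : ∀ s, ∀ l ∈ I, ∀ c > 0, ∀ δ > 0, δ < 1 → ∃ η > 0, ∀ a ∈ I, ∀ b ∈ I, |a - l| < η →
      |b - l| < η → a ≤ b → c ≤ rate (G a) s → (1 - δ) * rate (G a) s ≤ rate (G b) s) :
    CorrContinuous G I := by
  refine ⟨fun l hl x => (hG l hl).elim fun K h => h.pos x, fun s => ⟨fun l => rate (G l) s,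
    fun l hl => (hG l hl).elim fun K h => h.tendsto_rate s, ?_⟩⟩
  refine cont_of_H hI (fun l hl => (hG l hl).elim fun K h => h.rate_nonneg s) ?_ (H s)
  intro a ha b hb hab
  obtain ⟨K, h⟩ := hG a ha
  obtain ⟨K', h'⟩ := hG b hb
  exact rate_anti h' h (hmono a ha b hb hab) s

lemma pow_le_split {r T : ℝ} (hr : 0 ≤ r) (hT : 0 < T) (p : ℕ) :
    r ≤ T + r ^ (p + 1) / T ^ p := by
  rcases le_total r T with h | h
  · have : 0 ≤ r ^ (p + 1) / T ^ p := by positivity
    linarith
  · have h1 : T ^ p ≤ r ^ p := pow_le_pow_left₀ hT.le h p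
    have h2 : r ≤ r ^ (p + 1) / T ^ p := by
      rw [le_div_iff₀ (by positivity), pow_succ']
      exact mul_le_mul_of_nonneg_left h1 hr
    linarith

theorem corr_of_split {G : ℝ → Site d → ℝ} {I : Set ℝ} (hI : IsOpen I)
    (hG : ∀ l ∈ I, ∃ K, Good (G l) K)
    (hmono : ∀ a ∈ I, ∀ b ∈ I, a ≤ b → ∀ x, G a x ≤ G b x)
    (H : ∀ l ∈ I, ∀ p : ℕ, ∃ η > 0, ∀ a ∈ I, ∀ b ∈ I, |a - l| < η → |b - l| < η → a ≤ b →
      ∃ C, ∀ x, ∀ T > 0, G b x ≤ T * G a x + C / T ^ p) :
    CorrContinuous G I := by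
  refine corr_of_H hI hG hmono fun s l hl c _ δ hδ _ => ?_
  obtain ⟨p, hp⟩ := exists_nat_one_div_lt hδ
  obtain ⟨η, hη, H'⟩ := H l hl p
  refine ⟨η, hη, fun a ha b hb h1 h2 hab _ => ?_⟩
  obtain ⟨C, hC⟩ := H' a ha b hb h1 h2 hab
  obtain ⟨K, h⟩ := hG a ha
  obtain ⟨K', h'⟩ := hG b hb
  have hp1 : (0 : ℝ) < p + 1 := by positivity
  have key := rate_le_of_le h h' (C := Real.log (1 + |C|)) (θ := p / (p + 1)) (fun x => by
    set u := Real.log (G a x) with hu
    have e : G a x = Real.exp u := (Real.exp_log (h.pos x)).symm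
    have h3 := hC x (Real.exp (-(u / (p + 1)))) (Real.exp_pos _)
    have h4 : Real.exp (-(u / (p + 1))) * G a x = Real.exp (p / (p + 1) * u) := by
      rw [e, ← Real.exp_add]; congr 1; field_simp; ring
    have h5 : C / Real.exp (-(u / (p + 1))) ^ p = C * Real.exp (p / (p + 1) * u) := by
      rw [← Real.exp_nat_mul, div_eq_mul_inv, ← Real.exp_neg]; congr 2; field_simp
    rw [h4, h5] at h3
    have h6 : G b x ≤ (1 + |C|) * Real.exp (p / (p + 1) * u) := by
      nlinarith [le_abs_self C, Real.exp_pos (p / (p + 1) * u)]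
    have h7 := Real.log_le_log (h'.pos x) h6
    rwa [Real.log_mul (by positivity) (Real.exp_pos _).ne', Real.log_exp] at h7) s
  have h8 : (1 - δ) ≤ p / (p + 1) := by
    have : (p : ℝ) / (p + 1) = 1 - 1 / (p + 1) := by field_simp; ring
    linarith
  exact (mul_le_mul_of_nonneg_right h8 (h.rate_nonneg s)).trans key

lemma isOpen_below (c : ENNReal) : IsOpen (below c) :=
  (isOpen_lt continuous_const continuous_id).inter
    (isOpen_lt ENNReal.continuous_ofReal continuous_const)

end Pool.Agent.P.MP_5c18f4_pr
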