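import Mathlib

open MeasureTheory Filter Topology Finset

namespace Pool.Agent.P.MP_5c18f4_pr

section general

variable {X : Type*} [TopologicalSpace X] [CompactSpace X] [MeasurableSpace X] [BorelSpace X]
  {μ : Measure X} [IsFiniteMeasure μ]

lemma cint {f : X → ℝ} (hf : Continuous f) : Integrable f μ :=
  hf.integrable_of_hasCompactSupport (HasCompactSupport.of_compactSpace f)

/-- the convex cone generated by a family of functions -/
inductive Cone {X : Type*} (G : (X → ℝ) → Prop) : (X → ℝ) → Prop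
  | gen {f : X → ℝ} : G f → Cone G f
  | add {f g : X → ℝ} : Cone G f → Cone G g → Cone G fun x => f x + g x
  | smul {f : X → ℝ} {c : ℝ} : 0 ≤ c → Cone G f → Cone G fun x => c * f x

/-- multiplicative family with nonnegative integrals -/
structure Gen (μ : Measure X) (G : (X → ℝ) → Prop) : Prop where
  one : G fun _ => 1
  mul : ∀ f g, G f → G g → G fun x => f x * g x
  cont : ∀ f, G f → Continuous f
  int : ∀ f, G f → 0 ≤ ∫ x, f x ∂μ

omit [TopologicalSpace X] [CompactSpace X] [MeasurableSpace X] [BorelSpace X] in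
lemma Cone.of_eq {G : (X → ℝ) → Prop} {f g : X → ℝ} (h : Cone G f) (e : ∀ x, g x = f x) :
    Cone G g := by
  rwa [show g = f from funext e]

namespace Gen

variable {G : (X → ℝ) → Prop} (h : Gen μ G)
include h

omit [CompactSpace X] [BorelSpace X] [IsFiniteMeasure μ] in
lemma cmul {f g : X → ℝ} (hf : Cone G f) (hg : Cone G g) : Cone G fun x => f x * g x := by
  induction hf with
  | gen hf =>
    induction hg with
    | gen hg => exact .gen (h.mul _ _ hf hg)
    | add _ _ h1 h2 => exact (h1.add h2).of_eq fun x => by ring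
    | smul hc _ h1 => exact (h1.smul hc).of_eq fun x => by ring
  | add _ _ h1 h2 => exact (h1.add h2).of_eq fun x => by ring
  | smul hc _ h1 => exact (h1.smul hc).of_eq fun x => by ring

omit [CompactSpace X] [BorelSpace X] [IsFiniteMeasure μ] in
lemma ccont {f : X → ℝ} (hf : Cone G f) : Continuous f := by
  induction hf with
  | gen hf => exact h.cont _ hf
  | add _ _ h1 h2 => exact h1.add h2
  | smul _ _ h1 => exact continuous_const.mul h1

lemma cnonneg {f : X → ℝ} (hf : Cone G f) : 0 ≤ ∫ x, f x ∂μ := by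
  induction hf with
  | gen hf => exact h.int _ hf
  | add a1 a2 h1 h2 =>
    rw [integral_add (cint (h.ccont a1)) (cint (h.ccont a2))]
    exact add_nonneg h1 h2
  | smul hc _ h1 =>
    rw [integral_const_mul]
    exact mul_nonneg hc h1

omit [CompactSpace X] [BorelSpace X] [IsFiniteMeasure μ] in
lemma csum {ι : Type*} (s : Finset ι) {f : ι → X → ℝ} (hf : ∀ i ∈ s, Cone G (f i)) :
    Cone G fun x => ∑ i ∈ s, f i x := by
  classical
  induction s using Finset.induction with
  | empty => exact ((Cone.gen h.one).smul le_rfl).of_eq fun x => by simp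
  | insert a s ha ih =>
    exact ((hf a (mem_insert_self a s)).add (ih fun i hi => hf i (mem_insert_of_mem hi))).of_eq
      fun x => by rw [sum_insert ha]

omit [CompactSpace X] [BorelSpace X] [IsFiniteMeasure μ] in
lemma cpow {f : X → ℝ} (hf : Cone G f) (n : ℕ) : Cone G fun x => f x ^ n := by
  induction n with
  | zero => exact (Cone.gen h.one).of_eq fun x => by simp
  | succ n ih => exact (h.cmul ih hf).of_eq fun x => by ring

lemma cexp {b f : X → ℝ} (hb : Cone G b) (hf : Cone G f) :
    0 ≤ ∫ x, b x * Real.exp (f x) ∂μ := by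
  have hc : ∀ n : ℕ, Cone G fun x => b x * ∑ k ∈ range n, f x ^ k / (k.factorial : ℝ) :=
    fun n => h.cmul hb (h.csum _ fun k _ =>
      ((h.cpow hf k).smul (c := (k.factorial : ℝ)⁻¹) (by positivity)).of_eq fun x => by ring)
  have h1 := h.ccont hb
  have h2 := h.ccont hf
  refine ge_of_tendsto' (tendsto_integral_of_dominated_convergence
    (F := fun n x => b x * ∑ k ∈ range n, f x ^ k / (k.factorial : ℝ))
    (fun x => |b x| * Real.exp |f x|) (fun n => (h.ccont (hc n)).aestronglyMeasurable)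
    (cint (by fun_prop)) (fun n => ae_of_all _ fun x => ?_) (ae_of_all _ fun x => ?_))
    fun n => h.cnonneg (hc n)
  · rw [Real.norm_eq_abs, abs_mul]
    refine mul_le_mul_of_nonneg_left ((abs_sum_le_sum_abs _ _).trans ?_) (abs_nonneg _)
    refine le_trans (le_of_eq ?_) (Real.sum_le_exp_of_nonneg (abs_nonneg (f x)) n)
    exact sum_congr rfl fun k _ => by rw [abs_div, abs_pow, Nat.abs_cast]
  · rw [Real.exp_eq_exp_ℝ]
    exact (NormedSpace.expSeries_div_hasSum_exp (f x)).tendsto_sum_nat.const_mul _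

end Gen

omit [CompactSpace X] [BorelSpace X] in
lemma gen_psd : Gen (μ.prod μ)
    fun f : X × X → ℝ => ∃ F : X → ℝ, Continuous F ∧ f = fun p => F p.1 * F p.2 := by
  refine ⟨⟨fun _ => 1, continuous_const, by simp⟩, ?_, ?_, ?_⟩
  · rintro _ _ ⟨F, hF, rfl⟩ ⟨F', hF', rfl⟩
    exact ⟨fun x => F x * F' x, hF.mul hF', funext fun p => by ring⟩
  · rintro _ ⟨F, hF, rfl⟩
    fun_prop
  · rintro _ ⟨F, hF, rfl⟩
    rw [integral_prod_mul]
    exact mul_self_nonneg _

omit [CompactSpace X] [BorelSpace X] in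
lemma Gen.tensor {G : (X → ℝ) → Prop} (h : Gen μ G) : Gen (μ.prod μ)
    fun f : X × X → ℝ => ∃ F F' : X → ℝ, G F ∧ G F' ∧ f = fun p => F p.1 * F' p.2 := by
  refine ⟨⟨fun _ => 1, fun _ => 1, h.one, h.one, by simp⟩, ?_, ?_, ?_⟩
  · rintro _ _ ⟨F, E, hF, hE, rfl⟩ ⟨F', E', hF', hE', rfl⟩
    exact ⟨_, _, h.mul _ _ hF hF', h.mul _ _ hE hE', funext fun p => by ring⟩
  · rintro _ ⟨F, E, hF, hE, rfl⟩
    have := h.cont _ hF
    have := h.cont _ hE
    fun_prop
  · rintro _ ⟨F, E, hF, hE, rfl⟩
    rw [integral_prod_mul]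
    exact mul_nonneg (h.int _ hF) (h.int _ hE)

lemma integral_prod_two [SecondCountableTopology X] {A B C D : X → ℝ} (hA : Continuous A)
    (hB : Continuous B) (hC : Continuous C) (hD : Continuous D) :
    ∫ p : X × X, (A p.1 * B p.2 - C p.1 * D p.2) ∂(μ.prod μ) =
      (∫ x, A x ∂μ) * (∫ x, B x ∂μ) - (∫ x, C x ∂μ) * ∫ x, D x ∂μ := by
  rw [integral_sub (cint (by fun_prop)) (cint (by fun_prop)), integral_prod_mul, integral_prod_mul]

end general

lemma hom_int {X Y : Type*} [TopologicalSpace X] [AddGroup X] [IsTopologicalAddGroup X]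
    [MeasurableSpace X] [BorelSpace X] [TopologicalSpace Y] [AddGroup Y] [IsTopologicalAddGroup Y]
    [CompactSpace Y] [MeasurableSpace Y] [BorelSpace Y] [SecondCountableTopology Y] {μ : Measure X}
    [μ.IsAddHaarMeasure] [IsProbabilityMeasure μ] {ν : Measure Y} [ν.IsAddHaarMeasure]
    [IsProbabilityMeasure ν] (f : X →+ Y) (hf : Continuous f) (hs : Function.Surjective f)
    {F : Y → ℝ} (hF : Continuous F) : ∫ x, F (f x) ∂μ = ∫ y, F y ∂ν := by
  have h := AddMonoidHom.measurePreserving (μ := μ) (ν := ν) hf hs (by simp)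
  rw [← h.map_eq, integral_map h.measurable.aemeasurable hF.aestronglyMeasurable]

instance factTwoPi : Fact (0 < 2 * Real.pi) := ⟨Real.two_pi_pos⟩

/-- the circle -/
abbrev T := AddCircle (2 * Real.pi)

/-- cosine on the circle -/
noncomputable def cs (t : T) : ℝ := Real.Angle.cos t

/-- sine on the circle -/
noncomputable def sn (t : T) : ℝ := Real.Angle.sin t

@[fun_prop] lemma continuous_cs : Continuous cs := Real.Angle.continuous_cos

@[fun_prop] lemma continuous_sn : Continuous sn := Real.Angle.continuous_sin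

lemma cs_add (a b : T) : cs (a + b) = cs a * cs b - sn a * sn b := Real.Angle.cos_add a b

lemma sn_add (a b : T) : sn (a + b) = sn a * cs b + cs a * sn b := Real.Angle.sin_add a b

lemma cs_neg (a : T) : cs (-a) = cs a := Real.Angle.cos_neg a

lemma sn_neg (a : T) : sn (-a) = -sn a := Real.Angle.sin_neg a

lemma cs_sub (a b : T) : cs (a - b) = cs a * cs b + sn a * sn b := by
  rw [sub_eq_add_neg, cs_add, cs_neg, sn_neg]; ring

lemma sn_sub (a b : T) : sn (a - b) = sn a * cs b - cs a * sn b := by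
  rw [sub_eq_add_neg, sn_add, cs_neg, sn_neg]; ring

lemma cs_sq (a : T) : cs a ^ 2 + sn a ^ 2 = 1 := Real.Angle.cos_sq_add_sin_sq a

lemma cs_coe (r : ℝ) : cs (r : T) = Real.cos r := Real.Angle.cos_coe r

lemma sn_coe (r : ℝ) : sn (r : T) = Real.sin r := Real.Angle.sin_coe r

lemma cs_le (a : T) : cs a ≤ 1 := by nlinarith [cs_sq a, sq_nonneg (sn a), sq_nonneg (cs a - 1)]

lemma neg_le_cs (a : T) : -1 ≤ cs a := by
  nlinarith [cs_sq a, sq_nonneg (sn a), sq_nonneg (cs a + 1)]

/-- Haar probability measure on the circle -/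
noncomputable abbrev mT : Measure T := AddCircle.haarAddCircle

/-- Haar probability measure on the torus -/
noncomputable abbrev mu (ι : Type*) [Fintype ι] : Measure (ι → T) := Measure.pi fun _ => mT

lemma mono_one (a b : ℕ) : 0 ≤ ∫ t, cs t ^ a * sn t ^ b ∂mT := by
  rcases Nat.even_or_odd b with hb | hb
  · rcases Nat.even_or_odd a with ha | ha
    · exact integral_nonneg fun t => mul_nonneg (ha.pow_nonneg _) (hb.pow_nonneg _)
    · have h1 := integral_add_right_eq_self (μ := mT) (fun t => cs t ^ a * sn t ^ b)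
        ((Real.pi : ℝ) : T)
      simp only [cs_add, sn_add, cs_coe, sn_coe, Real.cos_pi, Real.sin_pi, mul_zero, sub_zero,
        add_zero, mul_neg, mul_one, ha.neg_pow, hb.neg_pow, neg_mul, integral_neg] at h1
      linarith
  · have h1 := integral_neg_eq_self (fun t => cs t ^ a * sn t ^ b) mT
    simp only [cs_neg, sn_neg, hb.neg_pow, mul_neg, integral_neg] at h1
    linarith

variable {ι : Type*} [Fintype ι]

/-- monomials in the cosines and sines -/
def Mon (f : (ι → T) → ℝ) : Prop :=
  ∃ a b : ι → ℕ, f = fun θ => ∏ i, cs (θ i) ^ a i * sn (θ i) ^ b i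

lemma gen_mon : Gen (mu ι) Mon := by
  refine ⟨⟨0, 0, by simp⟩, ?_, ?_, ?_⟩
  · rintro _ _ ⟨a, b, rfl⟩ ⟨a', b', rfl⟩
    refine ⟨a + a', b + b', funext fun θ => ?_⟩
    rw [← prod_mul_distrib]
    exact prod_congr rfl fun i _ => by simp only [Pi.add_apply, pow_add]; ring
  · rintro _ ⟨a, b, rfl⟩
    fun_prop
  · rintro _ ⟨a, b, rfl⟩
    rw [integral_fintype_prod_eq_prod (fun i t => cs t ^ a i * sn t ^ b i)]
    exact prod_nonneg fun i _ => mono_one _ _

lemma mon_cs (i : ι) : Mon fun θ : ι → T => cs (θ i) := by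
  classical
  refine ⟨Pi.single i 1, 0, funext fun θ => ?_⟩
  rw [prod_eq_single i (fun j _ hj => by simp [hj]) (by simp)]
  simp

lemma mon_sn (i : ι) : Mon fun θ : ι → T => sn (θ i) := by
  classical
  refine ⟨0, Pi.single i 1, funext fun θ => ?_⟩
  rw [prod_eq_single i (fun j _ hj => by simp [hj]) (by simp)]
  simp

instance borelProd : BorelSpace ((ι → T) × (ι → T)) := Prod.borelSpace

instance haarMu : (mu ι).IsAddHaarMeasure := inferInstance

instance haarProd : ((mu ι).prod (mu ι)).IsAddHaarMeasure :=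
  Measure.prod.instIsAddHaarMeasure _ _

lemma dup {F : (ι → T) × (ι → T) → ℝ} (hF : Continuous F) :
    ∫ p, F (p.1 - p.2, p.1 + p.2) ∂((mu ι).prod (mu ι)) = ∫ p, F p ∂((mu ι).prod (mu ι)) := by
  refine hom_int ((AddMonoidHom.fst (ι → T) (ι → T) - AddMonoidHom.snd (ι → T) (ι → T)).prod
    (AddMonoidHom.fst (ι → T) (ι → T) + AddMonoidHom.snd (ι → T) (ι → T))) ?_ ?_ hF
  · exact (continuous_fst.sub continuous_snd).prodMk (continuous_fst.add continuous_snd)
  · rintro ⟨a, b⟩
    have : ∀ t : T, ∃ u : T, u + u = t := by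
      intro t
      induction t using QuotientAddGroup.induction_on with
      | _ r => exact ⟨((r / 2 : ℝ) : T), by rw [← AddCircle.coe_add, add_halves]⟩
    choose u hu using this
    refine ⟨(fun i => u (a i + b i), fun i => b i - u (a i + b i)), Prod.ext ?_ ?_⟩
    · funext i
      have := hu (a i + b i)
      simp only [AddMonoidHom.prod_apply, AddMonoidHom.sub_apply, AddMonoidHom.coe_fst,
        AddMonoidHom.coe_snd, Pi.sub_apply]
      rw [sub_sub_eq_add_sub, this, add_sub_cancel_right]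
    · funext i
      simp

end Pool.Agent.P.MP_5c18f4_pr
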