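import Pool.Agent.P.MP_5c18f4_pr.XY1

open MeasureTheory Filter Topology Finset

namespace Pool.Agent.P.MP_5c18f4_pr

variable {ι : Type*} [Fintype ι]

/-- energy -/
noncomputable def ham (K : ι → ι → ℝ) (θ : ι → T) : ℝ := ∑ i, ∑ j, K i j * cs (θ i - θ j)

/-- unnormalised expectation -/
noncomputable def II (K : ι → ι → ℝ) (F : (ι → T) → ℝ) : ℝ :=
  ∫ θ, F θ * Real.exp (ham K θ) ∂mu ι

/-- partition function -/
noncomputable def ZZ (K : ι → ι → ℝ) : ℝ := ∫ θ, Real.exp (ham K θ) ∂mu ι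

/-- Gibbs expectation -/
noncomputable def av (K : ι → ι → ℝ) (F : (ι → T) → ℝ) : ℝ := II K F / ZZ K

/-- two-point function -/
noncomputable def g2 (K : ι → ι → ℝ) (x y : ι) : ℝ := av K fun θ => cs (θ x - θ y)

@[fun_prop] lemma continuous_ham (K : ι → ι → ℝ) : Continuous (ham K) := by
  unfold ham; fun_prop

lemma ZZ_pos (K : ι → ι → ℝ) : 0 < ZZ K := integral_exp_pos (cint (by fun_prop))

section av

variable {K K' : ι → ι → ℝ} {F G : (ι → T) → ℝ}

lemma av_add (hF : Continuous F) (hG : Continuous G) :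
    av K (fun θ => F θ + G θ) = av K F + av K G := by
  simp only [av, II, add_mul]
  rw [integral_add (cint (by fun_prop)) (cint (by fun_prop)), add_div]

lemma av_sub (hF : Continuous F) (hG : Continuous G) :
    av K (fun θ => F θ - G θ) = av K F - av K G := by
  simp only [av, II, sub_mul]
  rw [integral_sub (cint (by fun_prop)) (cint (by fun_prop)), sub_div]

lemma av_mul (c : ℝ) (F : (ι → T) → ℝ) : av K (fun θ => c * F θ) = c * av K F := by
  simp only [av, II, mul_assoc, integral_const_mul, mul_div_assoc]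

lemma av_sum {κ : Type*} (s : Finset κ) {F : κ → (ι → T) → ℝ} (hF : ∀ k, Continuous (F k)) :
    av K (fun θ => ∑ k ∈ s, F k θ) = ∑ k ∈ s, av K (F k) := by
  simp only [av, II, sum_mul]
  rw [integral_finsetSum _ fun k _ => cint (by have := hF k; fun_prop), sum_div]

lemma av_const (c : ℝ) : av K (fun _ => c) = c := by
  have := (ZZ_pos K).ne'
  simp only [av, II, integral_const_mul]
  exact mul_div_cancel_right₀ c this

lemma av_mono (hF : Continuous F) (hG : Continuous G) (h : ∀ θ, F θ ≤ G θ) : av K F ≤ av K G :=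
  div_le_div_of_nonneg_right (integral_mono (cint (by fun_prop)) (cint (by fun_prop))
    fun θ => mul_le_mul_of_nonneg_right (h θ) (Real.exp_pos _).le) (ZZ_pos K).le

lemma av_congr (h : ∀ θ, F θ = G θ) : av K F = av K G := by rw [show F = G from funext h]

lemma av_shift (v : T) (F : (ι → T) → ℝ) : av K (fun θ => F fun i => θ i + v) = av K F := by
  have := integral_add_right_eq_self (μ := mu ι) (fun θ => F θ * Real.exp (ham K θ)) fun _ => v
  simp only [av, II, ← this]
  congr 2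
  funext θ
  simp only [ham, Pi.add_apply, add_sub_add_right_eq_sub]
  rfl

lemma av_rot (Φ : (ι → ℝ) → (ι → ℝ) → ℝ) :
    av K (fun θ => Φ (fun i => -sn (θ i)) fun i => cs (θ i)) =
      av K fun θ => Φ (fun i => cs (θ i)) fun i => sn (θ i) := by
  rw [← av_shift ((Real.pi / 2 : ℝ) : T) fun θ => Φ (fun i => cs (θ i)) fun i => sn (θ i)]
  simp [cs_add, sn_add, cs_coe, sn_coe]

lemma cone_cs (i : ι) : Cone Mon fun θ : ι → T => cs (θ i) := .gen (mon_cs i)

lemma cone_sn (i : ι) : Cone Mon fun θ : ι → T => sn (θ i) := .gen (mon_sn i)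

lemma cone_cs_sub (i j : ι) : Cone Mon fun θ : ι → T => cs (θ i - θ j) :=
  ((gen_mon.cmul (cone_cs i) (cone_cs j)).add (gen_mon.cmul (cone_sn i) (cone_sn j))).of_eq
    fun _ => cs_sub _ _

lemma av_mon (hK : ∀ i j, 0 ≤ K i j) (hF : Cone Mon F) : 0 ≤ av K F :=
  div_nonneg (gen_mon.cexp hF (gen_mon.csum _ fun i _ => gen_mon.csum _ fun j _ =>
    (cone_cs_sub i j).smul (hK i j))) (ZZ_pos K).le

lemma dup_nonneg {C : ((ι → T) × (ι → T) → ℝ) → Prop} (hC : Gen ((mu ι).prod (mu ι)) C)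
    (hH : Cone C fun p => ham K' (p.1 - p.2) + ham K (p.1 + p.2))
    {b : (ι → T) × (ι → T) → ℝ} (hb : Continuous b)
    (hb' : Cone C fun p => b (p.1 - p.2, p.1 + p.2)) :
    0 ≤ ∫ p, b p * (Real.exp (ham K' p.1) * Real.exp (ham K p.2)) ∂((mu ι).prod (mu ι)) := by
  rw [← dup (by fun_prop)]
  simp only [← Real.exp_add]
  exact hC.cexp hb' hH

omit [Fintype ι] in
lemma psd_gen {F : (ι → T) → ℝ} (hF : Continuous F) : Cone
    (fun f : (ι → T) × (ι → T) → ℝ => ∃ F : (ι → T) → ℝ, Continuous F ∧ f = fun p => F p.1 * F p.2)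
    fun p => F p.1 * F p.2 := .gen ⟨F, hF, rfl⟩

lemma psd_ham (hK : ∀ i j, 0 ≤ K i j) (hKK : ∀ i j, K i j ≤ K' i j) : Cone
    (fun f : (ι → T) × (ι → T) → ℝ => ∃ F : (ι → T) → ℝ, Continuous F ∧ f = fun p => F p.1 * F p.2)
    fun p => ham K' (p.1 - p.2) + ham K (p.1 + p.2) := by
  have h := gen_psd (μ := mu ι)
  refine (h.csum univ fun i _ => h.csum univ fun j _ =>
    ((psd_gen (F := fun θ => cs (θ i - θ j)) (by fun_prop)).smul (c := K' i j + K i j)
      (by linarith [hK i j, hKK i j])).add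
    ((psd_gen (F := fun θ => sn (θ i - θ j)) (by fun_prop)).smul (c := K' i j - K i j)
      (by linarith [hKK i j]))).of_eq fun p => ?_
  simp only [ham, ← sum_add_distrib]
  refine sum_congr rfl fun i _ => sum_congr rfl fun j _ => ?_
  simp only [Pi.sub_apply, Pi.add_apply]
  rw [sub_sub_sub_comm, add_sub_add_comm, cs_sub (_ - _), cs_add]
  ring

omit [Fintype ι] in
lemma psd_diff (x y : ι) : Cone
    (fun f : (ι → T) × (ι → T) → ℝ => ∃ F : (ι → T) → ℝ, Continuous F ∧ f = fun p => F p.1 * F p.2)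
    fun p => cs ((p.1 - p.2) x - (p.1 - p.2) y) - cs ((p.1 + p.2) x - (p.1 + p.2) y) := by
  refine ((psd_gen (F := fun θ => sn (θ x - θ y)) (by fun_prop)).smul zero_le_two).of_eq
    fun p => ?_
  simp only [Pi.sub_apply, Pi.add_apply]
  rw [sub_sub_sub_comm, add_sub_add_comm, cs_sub (_ - _), cs_add]
  ring

lemma g2_mono (hK : ∀ i j, 0 ≤ K i j) (hKK : ∀ i j, K i j ≤ K' i j) (x y : ι) :
    g2 K x y ≤ g2 K' x y := by
  have h := dup_nonneg (gen_psd (μ := mu ι)) (psd_ham hK hKK)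
    (b := fun p => cs (p.1 x - p.1 y) - cs (p.2 x - p.2 y)) (by fun_prop) (psd_diff x y)
  have e := integral_prod_two (μ := mu ι) (A := fun θ => cs (θ x - θ y) * Real.exp (ham K' θ))
    (B := fun θ => Real.exp (ham K θ)) (C := fun θ => Real.exp (ham K' θ))
    (D := fun θ => cs (θ x - θ y) * Real.exp (ham K θ)) (by fun_prop) (by fun_prop) (by fun_prop)
    (by fun_prop)
  have h2 := h.trans_eq ((integral_congr_ae (ae_of_all _ fun p => by ring)).trans e)
  rw [g2, g2, av, av, div_le_div_iff₀ (ZZ_pos K) (ZZ_pos K')]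
  simp only [II, ZZ]
  linarith

lemma cov_int (hF : Continuous F) (hG : Continuous G) :
    ∫ p : (ι → T) × (ι → T), (F p.1 - F p.2) * (G p.1 - G p.2) *
      (Real.exp (ham K p.1) * Real.exp (ham K p.2)) ∂((mu ι).prod (mu ι)) =
      2 * ZZ K ^ 2 * (av K (fun θ => F θ * G θ) - av K F * av K G) := by
  have e1 := integral_prod_two (μ := mu ι) (A := fun θ => F θ * G θ * Real.exp (ham K θ))
    (B := fun θ => Real.exp (ham K θ)) (C := fun θ => F θ * Real.exp (ham K θ))
    (D := fun θ => G θ * Real.exp (ham K θ)) (by fun_prop) (by fun_prop) (by fun_prop)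
    (by fun_prop)
  have e2 := integral_prod_two (μ := mu ι) (A := fun θ => Real.exp (ham K θ))
    (B := fun θ => F θ * G θ * Real.exp (ham K θ)) (C := fun θ => G θ * Real.exp (ham K θ))
    (D := fun θ => F θ * Real.exp (ham K θ)) (by fun_prop) (by fun_prop) (by fun_prop)
    (by fun_prop)
  have e3 := congrArg₂ (· + ·) e1 e2
  rw [← integral_add (cint (by fun_prop)) (cint (by fun_prop))] at e3
  refine ((integral_congr_ae (ae_of_all _ fun p => by ring)).trans e3).trans ?_
  have := (ZZ_pos K).ne'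
  change II K (fun θ => F θ * G θ) * ZZ K - II K F * II K G +
    (ZZ K * II K (fun θ => F θ * G θ) - II K G * II K F) = _
  simp only [av]
  field_simp
  ring

lemma ginibre (hK : ∀ i j, 0 ≤ K i j) (x y u v : ι) :
    g2 K x y * g2 K u v ≤ av K fun θ => cs (θ x - θ y) * cs (θ u - θ v) := by
  have h := dup_nonneg (gen_psd (μ := mu ι)) (psd_ham hK fun _ _ => le_rfl)
    (b := fun p => (cs (p.1 x - p.1 y) - cs (p.2 x - p.2 y)) *
      (cs (p.1 u - p.1 v) - cs (p.2 u - p.2 v))) (by fun_prop)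
    ((gen_psd (μ := mu ι)).cmul (psd_diff x y) (psd_diff u v))
  rw [cov_int (F := fun θ => cs (θ x - θ y)) (G := fun θ => cs (θ u - θ v)) (by fun_prop)
    (by fun_prop)] at h
  exact sub_nonneg.1 (nonneg_of_mul_nonneg_right h (by have := ZZ_pos K; positivity))

lemma ten {F G : (ι → T) → ℝ} (hF : Cone Mon F) (hG : Cone Mon G) : Cone
    (fun f : (ι → T) × (ι → T) → ℝ => ∃ F F' : (ι → T) → ℝ, Mon F ∧ Mon F' ∧
      f = fun p => F p.1 * F' p.2) fun p => F p.1 * G p.2 := by
  induction hF with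
  | gen hF =>
    induction hG with
    | gen hG => exact .gen ⟨_, _, hF, hG, rfl⟩
    | add _ _ h1 h2 => exact (h1.add h2).of_eq fun x => by ring
    | smul hc _ h1 => exact (h1.smul hc).of_eq fun x => by ring
  | add _ _ h1 h2 => exact (h1.add h2).of_eq fun x => by ring
  | smul hc _ h1 => exact (h1.smul hc).of_eq fun x => by ring

lemma ccss_le (hK : ∀ i j, 0 ≤ K i j) (a b c d : ι) :
    av K (fun θ => cs (θ a) * cs (θ b) * (sn (θ c) * sn (θ d))) ≤
      av K (fun θ => cs (θ a) * cs (θ b)) * av K fun θ => sn (θ c) * sn (θ d) := by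
  have hT := (gen_mon (ι := ι)).tensor
  have m := fun {f g : (ι → T) → ℝ} => (gen_mon (ι := ι)).cmul (f := f) (g := g)
  have h := dup_nonneg (K := K) (K' := K) hT
    ((hT.csum univ fun i _ => hT.csum univ fun j _ =>
      (ten (cone_cs_sub i j) (cone_cs_sub i j)).smul (c := 2 * K i j)
        (by linarith [hK i j])).of_eq fun p => by
      simp only [ham, ← sum_add_distrib]
      refine sum_congr rfl fun i _ => sum_congr rfl fun j _ => ?_
      simp only [Pi.sub_apply, Pi.add_apply]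
      rw [sub_sub_sub_comm, add_sub_add_comm, cs_sub (_ - _), cs_add]
      ring)
    (b := fun p => (cs (p.1 a) * cs (p.1 b) - cs (p.2 a) * cs (p.2 b)) *
      (-(sn (p.1 c) * sn (p.1 d)) - -(sn (p.2 c) * sn (p.2 d)))) (by fun_prop)
    (((hT.cmul
      ((ten (m (cone_cs a) (cone_sn b)) (m (cone_cs a) (cone_sn b))).add
        (ten (m (cone_sn a) (cone_cs b)) (m (cone_sn a) (cone_cs b))))
      ((ten (m (cone_sn c) (cone_cs d)) (m (cone_cs c) (cone_sn d))).add
        (ten (m (cone_cs c) (cone_sn d)) (m (cone_sn c) (cone_cs d))))).smul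
      (c := 4) (by norm_num)).of_eq fun p => by
      simp only [Pi.sub_apply, Pi.add_apply, cs_sub, cs_add, sn_sub, sn_add]
      ring)
  rw [cov_int (F := fun θ => cs (θ a) * cs (θ b)) (G := fun θ => -(sn (θ c) * sn (θ d)))
    (by fun_prop) (by fun_prop)] at h
  have h2 := nonneg_of_mul_nonneg_right h (by have := ZZ_pos K; positivity)
  rw [av_congr (G := fun θ => -1 * (cs (θ a) * cs (θ b) * (sn (θ c) * sn (θ d)))) fun θ => by ring,
    av_congr (F := fun θ => -(sn (θ c) * sn (θ d))) (G := fun θ => -1 * (sn (θ c) * sn (θ d)))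
      fun θ => by ring, av_mul, av_mul] at h2
  linarith

lemma ss_eq (a b : ι) : av K (fun θ => sn (θ a) * sn (θ b)) = av K fun θ => cs (θ a) * cs (θ b) :=
  (av_congr fun θ => by ring).trans (av_rot fun c _ => c a * c b)

lemma g2_eq (a b : ι) : g2 K a b = 2 * av K fun θ => cs (θ a) * cs (θ b) := by
  simp only [g2, cs_sub]
  rw [av_add (by fun_prop) (by fun_prop), ss_eq]
  ring

/-- the mixed four-point function -/
noncomputable def m4 (K : ι → ι → ℝ) (a b c d : ι) : ℝ :=
  av K fun θ => cs (θ a) * cs (θ b) * (sn (θ c) * sn (θ d))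

lemma m4_le (hK : ∀ i j, 0 ≤ K i j) (a b c d : ι) : 4 * m4 K a b c d ≤ g2 K a b * g2 K c d := by
  have := ccss_le hK a b c d
  rw [ss_eq] at this
  rw [g2_eq, g2_eq, m4]
  linarith

lemma m4_nonneg (hK : ∀ i j, 0 ≤ K i j) (a b c d : ι) : 0 ≤ m4 K a b c d :=
  av_mon hK (gen_mon.cmul (gen_mon.cmul (cone_cs a) (cone_cs b))
    (gen_mon.cmul (cone_sn c) (cone_sn d)))

lemma m4_swap (a b c d : ι) : m4 K c d a b = m4 K a b c d :=
  ((av_congr fun θ => by ring).trans (av_rot fun x y => x c * x d * (y a * y b))).symm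

lemma ssss_eq (a b c d : ι) : av K (fun θ => sn (θ a) * sn (θ b) * (sn (θ c) * sn (θ d))) =
    av K fun θ => cs (θ a) * cs (θ b) * (cs (θ c) * cs (θ d)) :=
  (av_congr fun θ => by ring).trans (av_rot fun x _ => x a * x b * (x c * x d))

lemma cccc_eq (a b c d : ι) : av K (fun θ => cs (θ a) * cs (θ b) * (cs (θ c) * cs (θ d))) =
    m4 K a b c d + m4 K a c b d + m4 K a d b c := by
  have h1 := av_shift (K := K) ((Real.pi / 4 : ℝ) : T) fun θ => cs (θ a + θ b + θ c + θ d)
  have e : ∀ θ : ι → T, cs (θ a + ((Real.pi / 4 : ℝ) : T) + (θ b + ((Real.pi / 4 : ℝ) : T)) +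
      (θ c + ((Real.pi / 4 : ℝ) : T)) + (θ d + ((Real.pi / 4 : ℝ) : T))) =
      -1 * cs (θ a + θ b + θ c + θ d) := by
    intro θ
    have : θ a + ((Real.pi / 4 : ℝ) : T) + (θ b + ((Real.pi / 4 : ℝ) : T)) +
      (θ c + ((Real.pi / 4 : ℝ) : T)) + (θ d + ((Real.pi / 4 : ℝ) : T)) =
        θ a + θ b + θ c + θ d + ((Real.pi : ℝ) : T) := by
      have e : ((Real.pi : ℝ) : T) =
          ((Real.pi / 4 + Real.pi / 4 + Real.pi / 4 + Real.pi / 4 : ℝ) : T) := by
        congr 1; ring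
      rw [e]
      simp only [AddCircle.coe_add]
      abel
    rw [this, cs_add _ ((Real.pi : ℝ) : T), cs_coe, sn_coe]
    simp
  rw [av_congr e, av_mul] at h1
  have h2 : av K (fun θ => cs (θ a + θ b + θ c + θ d)) = av K fun θ =>
      cs (θ a) * cs (θ b) * (cs (θ c) * cs (θ d)) + sn (θ a) * sn (θ b) * (sn (θ c) * sn (θ d)) -
      cs (θ a) * cs (θ b) * (sn (θ c) * sn (θ d)) - cs (θ c) * cs (θ d) * (sn (θ a) * sn (θ b)) -
      cs (θ a) * cs (θ c) * (sn (θ b) * sn (θ d)) - cs (θ b) * cs (θ d) * (sn (θ a) * sn (θ c)) -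
      cs (θ a) * cs (θ d) * (sn (θ b) * sn (θ c)) - cs (θ b) * cs (θ c) * (sn (θ a) * sn (θ d)) :=
    av_congr fun θ => by simp only [cs_add, sn_add]; ring
  rw [av_sub (by fun_prop) (by fun_prop), av_sub (by fun_prop) (by fun_prop),
    av_sub (by fun_prop) (by fun_prop), av_sub (by fun_prop) (by fun_prop),
    av_sub (by fun_prop) (by fun_prop), av_sub (by fun_prop) (by fun_prop),
    av_add (by fun_prop) (by fun_prop), ssss_eq] at h2
  have e1 := m4_swap (K := K) a b c d
  have e2 := m4_swap (K := K) a c b d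
  have e3 := m4_swap (K := K) a d b c
  simp only [m4] at e1 e2 e3 ⊢
  linarith

lemma four_eq (a b c d : ι) : av K (fun θ => cs (θ a - θ b) * cs (θ c - θ d)) =
    4 * m4 K a b c d + 2 * m4 K a c b d + 2 * m4 K a d b c := by
  have h2 : av K (fun θ => cs (θ a - θ b) * cs (θ c - θ d)) = av K fun θ =>
      cs (θ a) * cs (θ b) * (cs (θ c) * cs (θ d)) + sn (θ a) * sn (θ b) * (sn (θ c) * sn (θ d)) +
      cs (θ a) * cs (θ b) * (sn (θ c) * sn (θ d)) + cs (θ c) * cs (θ d) * (sn (θ a) * sn (θ b)) :=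
    av_congr fun θ => by simp only [cs_sub]; ring
  rw [av_add (by fun_prop) (by fun_prop), av_add (by fun_prop) (by fun_prop),
    av_add (by fun_prop) (by fun_prop), ssss_eq, cccc_eq] at h2
  have e1 := m4_swap (K := K) a b c d
  simp only [m4] at e1 h2 ⊢
  linarith

lemma lebowitz (hK : ∀ i j, 0 ≤ K i j) (a b c d : ι) :
    av K (fun θ => cs (θ a - θ b) * cs (θ c - θ d)) - g2 K a b * g2 K c d ≤
      (g2 K a c * g2 K b d + g2 K a d * g2 K b c) / 2 := by
  rw [four_eq]
  linarith [m4_le hK a b c d, m4_le hK a c b d, m4_le hK a d b c]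

lemma g2_supermul (hK : ∀ i j, 0 ≤ K i j) (x y z : ι) :
    g2 K x y * g2 K y z ≤ 3 / 2 * g2 K x z := by
  have h1 := ginibre hK x y y z
  rw [four_eq] at h1
  have h2 : av K (fun θ => cs (θ x) * cs (θ z)) = av K fun θ =>
      cs (θ x) * cs (θ y) * (cs (θ y) * cs (θ z)) + cs (θ x) * cs (θ z) * (sn (θ y) * sn (θ y)) :=
    av_congr fun θ => by linear_combination (-(cs (θ x) * cs (θ z))) * cs_sq (θ y)
  rw [av_add (by fun_prop) (by fun_prop), cccc_eq] at h2
  have h3 := m4_nonneg hK x z y y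
  rw [g2_eq x z, h2]
  simp only [m4] at h1 h3 ⊢
  linarith

lemma g2_le_one (x y : ι) : g2 K x y ≤ 1 :=
  (av_mono (by fun_prop) continuous_const fun _ => cs_le _).trans_eq (av_const 1)

lemma g2_nonneg (hK : ∀ i j, 0 ≤ K i j) (x y : ι) : 0 ≤ g2 K x y := av_mon hK (cone_cs_sub x y)

lemma g2_symm (x y : ι) : g2 K x y = g2 K y x :=
  av_congr fun θ => by rw [← neg_sub, cs_neg]

lemma g2_self (x : ι) : g2 K x x = 1 :=
  (av_congr fun θ => by
    rw [sub_self, ← AddCircle.coe_zero, cs_coe, Real.cos_zero]).trans (av_const 1)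

end av

end Pool.Agent.P.MP_5c18f4_pr
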