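import Pool.Agent.P.MP_5c18f4_pr.XY2

open MeasureTheory Filter Topology Finset

namespace Pool.Agent.P.MP_5c18f4_pr

variable {ι κ : Type*} [Fintype ι] [Fintype κ]

lemma g2_embed {K : ι → ι → ℝ} {K' : κ → κ → ℝ} (e : ι → κ) (he : Function.Injective e)
    (hK : ∀ i j, 0 ≤ K i j) (hK' : ∀ i j, 0 ≤ K' i j) (h : ∀ i j, K i j ≤ K' (e i) (e j))
    (x y : ι) : g2 K x y ≤ g2 K' (e x) (e y) := by
  classical
  let L : κ → κ → ℝ := fun a b => ∑ i, ∑ j, if e i = a ∧ e j = b then K i j else 0
  have h1 : ∀ θ : κ → T, ham L θ = ham K (θ ∘ e) := by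
    intro θ
    simp only [ham, L, sum_mul, Function.comp]
    rw [sum_comm]
    simp only [sum_comm (s := (univ : Finset κ)) (t := (univ : Finset ι))]
    refine sum_congr rfl fun i _ => sum_congr rfl fun j _ => ?_
    simp [ite_and]
  have h2 : ∀ F : (ι → T) → ℝ, Continuous F →
      ∫ θ : κ → T, F (θ ∘ e) ∂mu κ = ∫ θ, F θ ∂mu ι := fun F hF =>
    hom_int (AddMonoidHom.pi fun i => Pi.evalAddMonoidHom (fun _ : κ => T) (e i))
      (continuous_pi fun i => continuous_apply (e i)) he.surjective_comp_right hF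
  have h3 : g2 K x y = g2 L (e x) (e y) := by
    simp only [g2, av, II, ZZ, h1]
    rw [← h2 _ (by fun_prop), ← h2 (fun θ => Real.exp (ham K θ)) (by fun_prop)]
    rfl
  rw [h3]
  refine g2_mono (fun a b => sum_nonneg fun i _ => sum_nonneg fun j _ => ?_) (fun a b => ?_) _ _
  · split_ifs
    · exact hK i j
    · exact le_rfl
  · by_cases hab : ∃ i j, e i = a ∧ e j = b
    · obtain ⟨i, j, rfl, rfl⟩ := hab
      simpa [L, he.eq_iff, ite_and] using h i j
    · push Not at hab
      refine le_trans (le_of_eq (sum_eq_zero fun i _ => sum_eq_zero fun j _ => ?_)) (hK' a b)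
      exact if_neg fun h => hab i j h.1 h.2

lemma g2_lower {K : ι → ι → ℝ} (hK : ∀ i j, 0 ≤ K i j) {x y : ι} (hxy : x ≠ y) {k : ℝ} (hk : 0 ≤ k)
    (h : k ≤ K x y) : k * Real.exp (-(2 * k)) / 2 ≤ g2 K x y := by
  classical
  let L : ι → ι → ℝ := fun a b => if a = x ∧ b = y then k else 0
  refine le_trans ?_ (g2_mono (K := L) (fun a b => by simp only [L]; split_ifs <;> linarith)
    (fun a b => ?_) x y)
  swap
  · simp only [L]
    split_ifs with hab
    · rw [hab.1, hab.2]; exact h
    · exact hK a b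
  have h1 : ∀ θ : ι → T, ham L θ = k * cs (θ x - θ y) := by
    intro θ
    simp [ham, L, ite_and]
  have h2 : ∀ F : T → ℝ, Continuous F → ∫ θ : ι → T, F (θ x - θ y) ∂mu ι = ∫ t, F t ∂mT :=
    fun F hF => hom_int
      (Pi.evalAddMonoidHom (fun _ : ι => T) x - Pi.evalAddMonoidHom (fun _ : ι => T) y)
      ((continuous_apply x).sub (continuous_apply y))
      (fun t => ⟨Pi.single x t, by simp [hxy.symm]⟩) hF
  simp only [g2, av, II, ZZ, h1]
  rw [h2 (fun t => cs t * Real.exp (k * cs t)) (by fun_prop),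
    h2 (fun t => Real.exp (k * cs t)) (by fun_prop)]
  have a1 : ∫ t, cs t ∂mT = 0 := by
    have := integral_add_right_eq_self (μ := mT) cs ((Real.pi : ℝ) : T)
    simp only [cs_add, cs_coe, sn_coe, Real.cos_pi, Real.sin_pi, mul_zero, sub_zero, mul_neg,
      mul_one, integral_neg] at this
    linarith
  have a2 : ∫ t, cs t ^ 2 ∂mT = 1 / 2 := by
    have b1 := integral_add_right_eq_self (μ := mT) (fun t => cs t ^ 2) ((Real.pi / 2 : ℝ) : T)
    simp only [cs_add, cs_coe, sn_coe, Real.cos_pi_div_two, Real.sin_pi_div_two, mul_zero, mul_one,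
      zero_sub, neg_sq] at b1
    have b2 : ∫ t, (cs t ^ 2 + sn t ^ 2) ∂mT = 1 := by simp [cs_sq]
    rw [integral_add (cint (by fun_prop)) (cint (by fun_prop))] at b2
    linarith
  have a3 : k * Real.exp (-k) / 2 ≤ ∫ t, cs t * Real.exp (k * cs t) ∂mT := by
    have b1 : ∫ t, (cs t + k * Real.exp (-k) * cs t ^ 2) ∂mT = k * Real.exp (-k) / 2 := by
      rw [integral_add (cint (by fun_prop)) (cint (by fun_prop)), integral_const_mul, a1, a2]
      ring
    rw [← b1]
    refine integral_mono (cint (by fun_prop)) (cint (by fun_prop)) fun t => ?_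
    have c1 := cs_le t
    have c2 := neg_le_cs t
    have c3 : Real.exp (-k) ≤ 1 := Real.exp_le_one_iff.2 (by linarith)
    have c4 := Real.add_one_le_exp (k * cs t)
    simp only
    rcases le_total 0 (cs t) with c | c
    · have d1 := mul_le_mul_of_nonneg_left c4 c
      have d2 := mul_le_mul_of_nonneg_left c3 (mul_nonneg hk (sq_nonneg (cs t)))
      nlinarith
    · have d1 := Real.add_one_le_exp (-(k * cs t))
      have d2 : Real.exp (k * cs t) * Real.exp (-(k * cs t)) = 1 := by
        rw [← Real.exp_add]; simp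
      have d3 : Real.exp (-k) ≤ Real.exp (k * cs t) := Real.exp_le_exp.2 (by nlinarith)
      have d4 := mul_le_mul_of_nonneg_left d1 (Real.exp_pos (k * cs t)).le
      have d5 : 0 ≤ -(k * cs t) := by nlinarith
      have d6 := mul_le_mul_of_nonneg_left d3 d5
      have d7 : -(k * cs t) * Real.exp (-k) ≤ 1 - Real.exp (k * cs t) := by nlinarith
      have d8 := mul_le_mul_of_nonneg_left d7 (neg_nonneg.2 c)
      nlinarith
  have a4 : ∫ t, Real.exp (k * cs t) ∂mT ≤ Real.exp k := by
    refine (integral_mono (cint (by fun_prop)) (integrable_const (Real.exp k))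
      fun t => Real.exp_le_exp.2 (by nlinarith [cs_le t])).trans_eq (by simp)
  have a5 : 0 < ∫ t, Real.exp (k * cs t) ∂mT := integral_exp_pos (cint (by fun_prop))
  rw [le_div_iff₀ a5]
  refine le_trans (mul_le_mul_of_nonneg_left a4 (by positivity)) (le_trans (le_of_eq ?_) a3)
  rw [div_mul_eq_mul_div, mul_assoc, ← Real.exp_add]
  congr 3
  ring

lemma ham_mul (β : ℝ) (K : ι → ι → ℝ) (θ : ι → T) :
    ham (fun i j => β * K i j) θ = β * ham K θ := by
  simp only [ham, mul_sum, mul_assoc]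

lemma hasDerivAt_II (K : ι → ι → ℝ) {F : (ι → T) → ℝ} (hF : Continuous F) (β : ℝ) :
    HasDerivAt (fun b => II (fun i j => b * K i j) F)
      (II (fun i j => β * K i j) fun θ => F θ * ham K θ) β := by
  simp only [II, ham_mul]
  refine (hasDerivAt_integral_of_dominated_loc_of_deriv_le (s := Set.Ioo (β - 1) (β + 1))
    (F := fun b θ => F θ * Real.exp (b * ham K θ))
    (F' := fun b θ => F θ * ham K θ * Real.exp (b * ham K θ))
    (bound := fun θ => |F θ * ham K θ| * Real.exp ((|β| + 1) * |ham K θ|))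
    (Ioo_mem_nhds (by linarith) (by linarith))
    (Eventually.of_forall fun b => Continuous.aestronglyMeasurable (by fun_prop))
    (cint (by fun_prop)) (Continuous.aestronglyMeasurable (by fun_prop))
    (ae_of_all _ fun θ b hb => ?_) (cint (by fun_prop)) (ae_of_all _ fun θ b _ => ?_)).2
  · rw [Real.norm_eq_abs, abs_mul, abs_of_pos (Real.exp_pos _)]
    refine mul_le_mul_of_nonneg_left (Real.exp_le_exp.2 ((le_abs_self _).trans ?_)) (abs_nonneg _)
    rw [abs_mul]
    refine mul_le_mul_of_nonneg_right (abs_le.2 ⟨?_, ?_⟩) (abs_nonneg _)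
    · linarith [hb.1, neg_abs_le β]
    · linarith [hb.2, le_abs_self β]
  · exact (((hasDerivAt_mul_const (ham K θ)).exp).const_mul (F θ)).congr_deriv (by ring)

lemma hasDerivAt_g2 (K : ι → ι → ℝ) (x y : ι) (β : ℝ) :
    HasDerivAt (fun b => g2 (fun i j => b * K i j) x y) (∑ u, ∑ v, K u v *
      (av (fun i j => β * K i j) (fun θ => cs (θ x - θ y) * cs (θ u - θ v)) -
        g2 (fun i j => β * K i j) x y * g2 (fun i j => β * K i j) u v)) β := by
  have h1 := hasDerivAt_II K (F := fun θ => cs (θ x - θ y)) (by fun_prop) β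
  have h2 := hasDerivAt_II K (F := fun _ => 1) continuous_const β
  have e : ∀ L : ι → ι → ℝ, II L (fun _ => 1) = ZZ L := fun L => by simp [II, ZZ]
  simp only [e, one_mul] at h2
  have hZ := (ZZ_pos fun i j => β * K i j).ne'
  refine (h1.div h2 hZ).congr_deriv ?_
  set L : ι → ι → ℝ := fun i j => β * K i j
  have e1 : av L (fun θ => cs (θ x - θ y) * ham K θ) =
      ∑ u, ∑ v, K u v * av L (fun θ => cs (θ x - θ y) * cs (θ u - θ v)) := by
    simp only [ham, mul_sum, ← av_mul]
    rw [av_sum _ fun u => by fun_prop]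
    refine sum_congr rfl fun u _ => ?_
    rw [av_sum _ fun v => by fun_prop]
    exact sum_congr rfl fun v _ => av_congr fun θ => by ring
  have e2 : av L (fun θ => ham K θ) = ∑ u, ∑ v, K u v * g2 L u v := by
    simp only [ham, g2, ← av_mul]
    rw [av_sum _ fun u => by fun_prop]
    exact sum_congr rfl fun u _ => av_sum _ fun v => by fun_prop
  have e3 : ∑ u, ∑ v, K u v * (av L (fun θ => cs (θ x - θ y) * cs (θ u - θ v)) -
      g2 L x y * g2 L u v) = av L (fun θ => cs (θ x - θ y) * ham K θ) -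
        g2 L x y * av L (fun θ => ham K θ) := by
    rw [e1, e2]
    simp only [mul_sum, ← sum_sub_distrib]
    exact sum_congr rfl fun u _ => sum_congr rfl fun v _ => by ring
  rw [e3]
  simp only [g2, av]
  field_simp

lemma chain_bound {g K W : ι → ι → ℝ} {m A : ℝ} (hg : ∀ i j, 0 ≤ g i j) (hK : ∀ i j, 0 ≤ K i j)
    (hW : ∀ i j, 0 ≤ W i j) (hm0 : 0 ≤ m) (hA0 : 0 ≤ A)
    (hWW : ∀ x y u v, W x y ≤ W x u * W u v * W v y) (hm : ∀ x, ∑ y, g x y * W x y ≤ m)
    (hA : ∀ u, ∑ v, K u v * W u v ≤ A) (x : ι) :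
    ∑ y, (∑ u, ∑ v, K u v * (g x u * g v y)) * W x y ≤ A * m ^ 2 := by
  calc ∑ y, (∑ u, ∑ v, K u v * (g x u * g v y)) * W x y
      ≤ ∑ y, ∑ u, ∑ v, g x u * W x u * (K u v * W u v * (g v y * W v y)) := by
        refine sum_le_sum fun y _ => ?_
        simp only [sum_mul]
        refine sum_le_sum fun u _ => sum_le_sum fun v _ => ?_
        refine (mul_le_mul_of_nonneg_left (hWW x y u v)
          (mul_nonneg (hK u v) (mul_nonneg (hg x u) (hg v y)))).trans_eq (by ring)
    _ = ∑ u, g x u * W x u * ∑ v, K u v * W u v * ∑ y, g v y * W v y := by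
        rw [sum_comm]
        refine sum_congr rfl fun u _ => ?_
        rw [sum_comm]
        simp only [mul_sum]
    _ ≤ ∑ u, g x u * W x u * (A * m) := by
        refine sum_le_sum fun u _ => mul_le_mul_of_nonneg_left ?_ (mul_nonneg (hg x u) (hW x u))
        refine (sum_le_sum fun v _ => mul_le_mul_of_nonneg_left (hm v)
          (mul_nonneg (hK u v) (hW u v))).trans ?_
        rw [← sum_mul]
        exact mul_le_mul_of_nonneg_right (hA u) hm0
    _ ≤ _ := by
        rw [← sum_mul]
        exact (mul_le_mul_of_nonneg_right (hm x) (mul_nonneg hA0 hm0)).trans_eq (by ring)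

theorem boot {K W : ι → ι → ℝ} {A M a b : ℝ} (hK : ∀ i j, 0 ≤ K i j) (hW : ∀ i j, 0 ≤ W i j)
    (hA0 : 0 ≤ A) (hM : 0 < M) (hWW : ∀ x y u v, W x y ≤ W x u * W u v * W v y)
    (hA : ∀ u, ∑ v, K u v * W u v ≤ A) (hA' : ∀ v, ∑ u, K u v * W v u ≤ A) (ha : 0 ≤ a)
    (hab : a ≤ b) (hs : 4 * A * M * (b - a) < 1)
    (h : ∀ x, ∑ y, g2 (fun i j => a * K i j) x y * W x y ≤ M) (x : ι) :
    ∑ y, g2 (fun i j => b * K i j) x y * W x y ≤ 2 * M := by
  have hne : (univ : Finset ι).Nonempty := ⟨x, mem_univ x⟩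
  let S : ι → ℝ → ℝ := fun x t => ∑ y, g2 (fun i j => t * K i j) x y * W x y
  have hS := fun x t => HasDerivAt.fun_sum (u := univ)
    fun y _ => (hasDerivAt_g2 K x y t).mul_const (W x y)
  have hSc : ∀ x, Continuous (S x) := fun x =>
    continuous_iff_continuousAt.2 fun t => (hS x t).continuousAt
  let m : ℝ → ℝ := fun t => univ.sup' hne fun x => S x t
  have hmc : Continuous m := Continuous.finset_sup'_apply hne fun x _ => hSc x
  have hle : ∀ x t, S x t ≤ m t := fun x t => le_sup' (fun x => S x t) (mem_univ x)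
  by_contra hc
  have h1 : 2 * M ∈ Set.Icc (m a) (m b) :=
    ⟨(sup'_le _ _ fun x _ => h x).trans (by linarith), (not_le.1 hc).le.trans (hle x b)⟩
  obtain ⟨t, ht, e⟩ := intermediate_value_Icc hab hmc.continuousOn h1
  have h2 : ∀ x, S x t - S x a ≤ A * (2 * M) ^ 2 * (t - a) := by
    intro x
    refine (convex_Icc a t).image_sub_le_mul_sub_of_deriv_le (hSc x).continuousOn
      (fun s _ => (hS x s).differentiableAt.differentiableWithinAt) (fun s hs => ?_) a
      (Set.left_mem_Icc.2 ht.1) t (Set.right_mem_Icc.2 ht.1) ht.1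
    have hs' := interior_subset hs
    have hs0 : 0 ≤ s := ha.trans hs'.1
    have hL : ∀ i j, 0 ≤ s * K i j := fun i j => mul_nonneg hs0 (hK i j)
    have hm : ∀ x, ∑ y, g2 (fun i j => s * K i j) x y * W x y ≤ 2 * M := fun x =>
      le_trans (sum_le_sum fun y _ => mul_le_mul_of_nonneg_right (g2_mono hL
        (fun i j => mul_le_mul_of_nonneg_right hs'.2 (hK i j)) x y) (hW x y))
        ((hle x t).trans_eq e)
    have b1 := chain_bound (g2_nonneg hL) hK hW (by linarith) hA0 hWW hm hA x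
    have b2 := chain_bound (K := fun v u => K u v) (g2_nonneg hL) (fun i j => hK j i) hW
      (by linarith) hA0 hWW hm hA' x
    rw [(hS x s).deriv]
    set g := g2 (fun i j => s * K i j) with hg
    refine le_trans (sum_le_sum fun y _ => mul_le_mul_of_nonneg_right (sum_le_sum fun u _ =>
      sum_le_sum fun v _ => mul_le_mul_of_nonneg_left (lebowitz hL x y u v) (hK u v))
      (hW x y)) ?_
    have e1 : ∑ y, (∑ u, ∑ v, K u v * ((g x u * g y v + g x v * g y u) / 2)) * W x y =
        (∑ y, (∑ u, ∑ v, K u v * (g x u * g v y)) * W x y +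
          ∑ y, (∑ v, ∑ u, K u v * (g x v * g u y)) * W x y) / 2 := by
      rw [← sum_add_distrib, sum_div]
      refine sum_congr rfl fun y _ => ?_
      rw [sum_comm (f := fun v u => K u v * (g x v * g u y)), ← add_mul, mul_div_right_comm,
        ← sum_add_distrib, sum_div]
      congr 1
      refine sum_congr rfl fun u _ => ?_
      rw [← sum_add_distrib, sum_div]
      refine sum_congr rfl fun v _ => ?_
      rw [hg, g2_symm y v, g2_symm y u]
      ring
    rw [e1]
    linarith
  have h3 : m t ≤ M + A * (2 * M) ^ 2 * (t - a) :=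
    sup'_le _ _ fun x _ => by linarith [h2 x, h x]
  have h4 : A * (2 * M) ^ 2 * (t - a) ≤ A * (2 * M) ^ 2 * (b - a) :=
    mul_le_mul_of_nonneg_left (by linarith [ht.2]) (by positivity)
  nlinarith

lemma cube_eq (K : ι → ι → ℝ) (x y : ι) :
    (∫ θ : ι → ℝ, Real.cos (θ x - θ y) * Real.exp (∑ i, ∑ j, K i j * Real.cos (θ i - θ j))
      ∂(Measure.pi fun _ => volume.restrict (Set.Ioc 0 (2 * Real.pi)))) /
    (∫ θ : ι → ℝ, Real.exp (∑ i, ∑ j, K i j * Real.cos (θ i - θ j))
      ∂(Measure.pi fun _ => volume.restrict (Set.Ioc 0 (2 * Real.pi)))) = g2 K x y := by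
  have h1 := measurePreserving_pi (fun _ : ι => volume.restrict (Set.Ioc 0 (2 * Real.pi)))
    (fun _ : ι => (volume : Measure T)) (f := fun _ => QuotientAddGroup.mk)
    fun _ => by simpa using AddCircle.measurePreserving_mk (2 * Real.pi) 0
  have h2 := Measure.isAddLeftInvariant_eq_smul (Measure.pi fun _ : ι => (volume : Measure T))
    (mu ι)
  have h3 := Measure.addHaarScalarFactor_pos_of_isAddHaarMeasure
    (Measure.pi fun _ : ι => (volume : Measure T)) (mu ι)
  set c := Measure.addHaarScalarFactor (Measure.pi fun _ : ι => (volume : Measure T)) (mu ι)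
  have h4 : ∀ F : (ι → T) → ℝ, Continuous F → ∫ θ : ι → ℝ, F (fun i => (θ i : T))
      ∂(Measure.pi fun _ => volume.restrict (Set.Ioc 0 (2 * Real.pi))) =
      c * ∫ θ, F θ ∂mu ι := by
    intro F hF
    rw [← integral_map h1.measurable.aemeasurable hF.aestronglyMeasurable, h1.map_eq, h2,
      integral_smul_nnreal_measure, NNReal.smul_def, smul_eq_mul]
  have e1 := h4 (fun θ => cs (θ x - θ y) * Real.exp (ham K θ)) (by fun_prop)
  have e2 := h4 (fun θ => Real.exp (ham K θ)) (by fun_prop)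
  simp only [ham, ← AddCircle.coe_sub, cs_coe] at e1 e2
  rw [e1, e2, mul_div_mul_left _ _ (by exact_mod_cast h3.ne')]
  rfl

end Pool.Agent.P.MP_5c18f4_pr
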