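import Pool.Agent.P.MP_5c18f4_pr.XY3
import Pool.Agent.P.MP_5c18f4_pr.Potts

open MeasureTheory Filter Topology Finset

namespace Pool.Agent.P.MP_5c18f4_pr

variable {d : ℕ}

/-- symmetric seminorm on the lattice -/
structure SymN (f : Site d → ℝ) : Prop where
  add : ∀ x y, f (x + y) ≤ f x + f y
  nsmul : ∀ (m : ℕ) x, f (m • x) = m * f x
  refl : ∀ i x, f (Function.update x i (-x i)) = f x
  perm : ∀ i j x, f (x ∘ Equiv.swap i j) = f x

namespace SymN

variable {f : Site d → ℝ} (h : SymN f)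
include h

lemma zero : f 0 = 0 := by simpa using h.nsmul 0 0

lemma single_eq (i j : Fin d) : f (Pi.single j 1) = f (Pi.single i 1) := by
  rw [← h.perm i j (Pi.single i 1)]
  congr 1
  funext k
  simp only [Function.comp, Pi.single_apply, Equiv.swap_apply_eq_iff, Equiv.swap_apply_left]

lemma single (j : Fin d) (k : ℤ) : f (Pi.single j k) = |(k : ℝ)| * f (Pi.single j 1) := by
  have h1 : ∀ m : ℕ, f (Pi.single j (m : ℤ)) = m * f (Pi.single j 1) := fun m => by
    rw [← h.nsmul, ← Pi.single_smul']; simp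
  obtain ⟨m, rfl | rfl⟩ := k.eq_nat_or_neg
  · simpa using h1 m
  · have := h.refl j (Pi.single j (m : ℤ))
    rw [h1] at this
    simp only [Pi.single_eq_same, Int.cast_neg, Int.cast_natCast, abs_neg, Nat.abs_cast] at this ⊢
    rw [← this]
    congr 1
    simp [Pi.single]

lemma upper (i : Fin d) (y : Site d) : f y ≤ (∑ j, |(y j : ℝ)|) * f (Pi.single i 1) := by
  have : ∀ s : Finset (Fin d), f (∑ j ∈ s, Pi.single j (y j)) ≤
      (∑ j ∈ s, |(y j : ℝ)|) * f (Pi.single i 1) := by
    intro s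
    induction s using Finset.induction with
    | empty => simp [h.zero]
    | insert a s ha ih =>
      rw [sum_insert ha, sum_insert ha, add_mul]
      refine (h.add _ _).trans (add_le_add (le_of_eq ?_) ih)
      rw [h.single, h.single_eq i]
  simpa only [univ_sum_single] using this univ

lemma lower (i : Fin d) (x : Site d) : (∑ j, |(x j : ℝ)|) * f (Pi.single i 1) ≤ d * f x := by
  have h1 : ∀ s : Finset (Fin d), f (fun j => if j ∈ s then -x j else x j) = f x := by
    intro s
    induction s using Finset.induction with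
    | empty => simp
    | insert a s ha ih =>
      rw [← ih, ← h.refl a (fun j => if j ∈ s then -x j else x j)]
      congr 1
      funext j
      by_cases hj : j = a
      · subst hj; simp [ha]
      · simp [hj]
  have h2 : ∀ j, |(x j : ℝ)| * f (Pi.single i 1) ≤ f x := by
    intro j
    have a1 := h.add x fun k => if k ∈ univ.erase j then -x k else x k
    have a2 : (x + fun k => if k ∈ univ.erase j then -x k else x k) = 2 • Pi.single j (x j) := by
      funext k
      by_cases hk : k = j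
      · subst hk; simp; ring
      · simp [hk]
    rw [h1, a2, h.nsmul, h.single, h.single_eq i] at a1
    push_cast at a1
    linarith
  rw [sum_mul]
  simpa using sum_le_sum fun j (_ : j ∈ (univ : Finset (Fin d))) => h2 j

end SymN

lemma exp_sum_bound {ε : ℝ} (hε : 0 < ε) : ∃ B, ∀ Λ : Finset (Site d),
    ∑ y ∈ Λ, Real.exp (-(ε * ∑ j, |(y j : ℝ)|)) ≤ B := by
  have h1 : Summable fun n : ℕ => Real.exp (-(ε * n)) := by
    refine (summable_geometric_of_lt_one (Real.exp_pos (-ε)).le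
      (Real.exp_lt_one_iff.2 (by linarith))).congr fun n => ?_
    rw [← Real.exp_nat_mul]; congr 1; ring
  have h2 : Summable fun k : ℤ => Real.exp (-(ε * |(k : ℝ)|)) :=
    Summable.of_nat_of_neg (by simpa using h1) (by simpa using h1)
  refine ⟨(∑' k : ℤ, Real.exp (-(ε * |(k : ℝ)|))) ^ d, fun Λ => ?_⟩
  obtain ⟨n, hn⟩ := exists_subset_box Λ
  refine (sum_le_sum_of_subset_of_nonneg (hn n le_rfl) fun _ _ _ => (Real.exp_pos _).le).trans ?_
  simp only [mul_sum, ← sum_neg_distrib, Real.exp_sum]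
  rw [box, ← prod_univ_sum (fun _ => Finset.Icc (-(n : ℤ)) n)
    (fun _ (k : ℤ) => Real.exp (-(ε * |(k : ℝ)|))), prod_const, card_univ, Fintype.card_fin]
  exact pow_le_pow_left₀ (sum_nonneg fun _ _ => (Real.exp_pos _).le)
    (h2.sum_le_tsum _ fun _ _ => (Real.exp_pos _).le) d

lemma sum_coe_le {Λ : Finset (Site d)} {F : Site d → ℝ} {B : ℝ} (hB : ∀ s, ∑ y ∈ s, F y ≤ B)
    (τ : Site d → Site d) (hτ : Function.Injective τ) : ∑ y : Λ, F (τ y.1) ≤ B := by
  rw [sum_coe_sort Λ fun y => F (τ y), ← sum_image fun a _ b _ h => hτ h]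
  exact hB _

/-- finite-volume two-point function of the XY model -/
noncomputable def xF (J : Site d → ℝ) (β : ℝ) (Λ : Finset (Site d)) (x y : Site d) : ℝ :=
  if h : x ∈ Λ ∧ y ∈ Λ then
    g2 (fun i j : Λ => β * (J (i.1 - j.1) / 2)) ⟨x, h.1⟩ ⟨y, h.2⟩ else 0

/-- infinite-volume two-point function of the XY model -/
noncomputable def xG (J : Site d → ℝ) (β : ℝ) (x : Site d) : ℝ := ⨆ n, xF J β (box d n) 0 x

lemma xF_coe (J : Site d → ℝ) (β : ℝ) (Λ : Finset (Site d)) (x y : Λ) :
    xF J β Λ x.1 y.1 = g2 (fun i j : Λ => β * (J (i.1 - j.1) / 2)) x y := dif_pos ⟨x.2, y.2⟩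

lemma xyCorr_eq (J : Site d → ℝ) (β : ℝ) (Λ : Finset (Site d)) (x y : Λ) :
    xyCorr J β Λ x y = xF J β Λ x.1 y.1 := by
  rw [xF_coe, ← cube_eq]
  have : ∀ θ : Λ → ℝ, β / 2 * ∑ i : Λ, ∑ j : Λ, J (i.1 - j.1) * Real.cos (θ i - θ j) =
      ∑ i : Λ, ∑ j : Λ, β * (J (i.1 - j.1) / 2) * Real.cos (θ i - θ j) := fun θ => by
    simp only [mul_sum]
    exact sum_congr rfl fun i _ => sum_congr rfl fun j _ => by ring
  simp only [xyCorr, this]

lemma xF_le_one (J : Site d → ℝ) (β : ℝ) (Λ : Finset (Site d)) (x y : Site d) :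
    xF J β Λ x y ≤ 1 := by
  unfold xF
  split_ifs
  · exact g2_le_one _ _
  · exact zero_le_one

namespace JOK

variable {J : Site d → ℝ} (hJ : JOK J)
include hJ

lemma K_nonneg {β : ℝ} (hβ : 0 ≤ β) (Λ : Finset (Site d)) (i j : Λ) :
    0 ≤ β * (J (i.1 - j.1) / 2) := mul_nonneg hβ (div_nonneg (hJ.nonneg _) zero_le_two)

lemma xF_le {a b : ℝ} (ha : 0 ≤ a) (hab : a ≤ b) {Λ Λ' : Finset (Site d)} (τ : Site d → Site d)
    (hτ : Function.Injective τ) (hτJ : ∀ x y, J (τ x - τ y) = J (x - y)) (h : ∀ x ∈ Λ, τ x ∈ Λ')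
    (x y : Site d) : xF J a Λ x y ≤ xF J b Λ' (τ x) (τ y) := by
  by_cases hxy : x ∈ Λ ∧ y ∈ Λ
  · rw [xF_coe J a Λ ⟨x, hxy.1⟩ ⟨y, hxy.2⟩, xF_coe J b Λ' ⟨τ x, h x hxy.1⟩ ⟨τ y, h y hxy.2⟩]
    refine g2_embed (fun i : Λ => (⟨τ i.1, h i.1 i.2⟩ : Λ'))
      (fun i j e => Subtype.ext (hτ (congrArg Subtype.val e))) (hJ.K_nonneg ha Λ)
      (hJ.K_nonneg (ha.trans hab) Λ') (fun i j => ?_) _ _
    simp only [hτJ]
    exact mul_le_mul_of_nonneg_right hab (div_nonneg (hJ.nonneg _) zero_le_two)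
  · unfold xF
    rw [dif_neg hxy]
    split_ifs
    · exact g2_nonneg (hJ.K_nonneg (ha.trans hab) Λ') _ _
    · exact le_rfl

lemma xF_tendsto {β : ℝ} (hβ : 0 ≤ β) (x : Site d) :
    Tendsto (fun n => xF J β (box d n) 0 x) atTop (𝓝 (xG J β x)) :=
  tendsto_atTop_ciSup (fun _ _ h => hJ.xF_le hβ le_rfl id Function.injective_id (fun _ _ => rfl)
    (fun _ hx => box_mono h hx) 0 x) ⟨1, by rintro _ ⟨n, rfl⟩; exact xF_le_one _ _ _ _ _⟩

lemma xF_le_xG' {a b : ℝ} (ha : 0 ≤ a) (hab : a ≤ b) (Λ : Finset (Site d)) (τ : Site d → Site d)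
    (hτ : Function.Injective τ) (hτJ : ∀ x y, J (τ x - τ y) = J (x - y)) {x : Site d}
    (hx : τ x = 0) (y : Site d) : xF J a Λ x y ≤ xG J b (τ y) := by
  obtain ⟨n, hn⟩ := exists_subset_box (Λ.image τ)
  have := hJ.xF_le ha hab τ hτ hτJ (fun z hz => hn n le_rfl (mem_image_of_mem τ hz)) x y
  rw [hx] at this
  exact this.trans (le_ciSup (f := fun n => xF J b (box d n) 0 (τ y))
    ⟨1, by rintro _ ⟨n, rfl⟩; exact xF_le_one _ _ _ _ _⟩ n)

lemma xF_le_xG {β : ℝ} (hβ : 0 ≤ β) (Λ : Finset (Site d)) (x y : Site d) :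
    xF J β Λ x y ≤ xG J β (y - x) :=
  hJ.xF_le_xG' hβ le_rfl Λ (· - x) sub_left_injective (fun a b => by simp) (sub_self x) y

lemma xG_mono {a b : ℝ} (ha : 0 ≤ a) (hab : a ≤ b) (x : Site d) : xG J a x ≤ xG J b x :=
  ciSup_le fun _ => hJ.xF_le_xG' ha hab _ id Function.injective_id (fun _ _ => rfl) rfl x

lemma xG_map {β : ℝ} (hβ : 0 ≤ β) (τ : Site d →+ Site d) (hτ : ∀ x, τ (τ x) = x)
    (hτJ : ∀ x, J (τ x) = J x) (x : Site d) : xG J β (τ x) = xG J β x := by
  have h : ∀ x, xG J β x ≤ xG J β (τ x) := fun x => ciSup_le fun _ =>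
    hJ.xF_le_xG' hβ le_rfl _ τ (Function.LeftInverse.injective hτ)
      (fun a b => by rw [← map_sub, hτJ]) (map_zero τ) x
  exact le_antisymm ((h (τ x)).trans_eq (by rw [hτ])) (h x)

lemma xG_lower (hJn : ∀ x, J (-x) = J x) {β : ℝ} (hβ : 0 ≤ β) {x : Site d} (hx : x ≠ 0) :
    β * Real.exp (-β) / 4 * J x ≤ xG J β x := by
  have h1 := hJ.xF_le_xG hβ {0, x} 0 x
  rw [sub_zero, xF_coe J β {0, x} ⟨0, by simp⟩ ⟨x, by simp⟩] at h1
  have h0 := hJ.nonneg x
  refine le_trans ?_ ((g2_lower (hJ.K_nonneg hβ {0, x}) (k := β * (J x / 2))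
    (fun e => hx (congrArg Subtype.val e).symm) (by positivity) (by simp [hJn])).trans h1)
  have h2 : Real.exp (-β) ≤ Real.exp (-(2 * (β * (J x / 2)))) :=
    Real.exp_le_exp.2 (by nlinarith [hJ.le_one x])
  have h3 := mul_le_mul_of_nonneg_left h2 (show 0 ≤ β * J x / 4 by positivity)
  linarith

lemma xy_good (hJn : ∀ x, J (-x) = J x) {β : ℝ} (hβ : 0 < β) : Good (xG J β) (3 / 2) := by
  refine ⟨fun x => ?_, fun x => (ciSup_le fun n => xF_le_one _ _ _ _ _).trans (by norm_num),
    fun x y => ?_⟩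
  · by_cases hx : x = 0
    · have h1 := hJ.xF_le_xG hβ.le {0} 0 0
      rw [sub_zero, xF_coe J β {0} ⟨0, by simp⟩ ⟨0, by simp⟩, g2_self] at h1
      rw [hx]; linarith
    · have := hJ.pos x hx
      exact lt_of_lt_of_le (by positivity) (hJ.xG_lower hJn hβ.le hx)
  · refine le_of_tendsto' ((hJ.xF_tendsto hβ.le x).mul (hJ.xF_tendsto hβ.le y)) fun n => ?_
    set Λ : Finset (Site d) := (box d n ∪ (box d n).image (· + x)) ∪ {0, x, x + y} with hΛ
    have m0 : (0 : Site d) ∈ Λ := by simp [hΛ]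
    have m1 : x ∈ Λ := by simp [hΛ]
    have m2 : x + y ∈ Λ := by simp [hΛ]
    have h1 := hJ.xF_le hβ.le le_rfl (Λ := box d n) (Λ' := Λ) id Function.injective_id
      (fun _ _ => rfl) (fun z hz => by simp [hΛ, hz]) 0 x
    have h2 := hJ.xF_le hβ.le le_rfl (Λ := box d n) (Λ' := Λ) (· + x) (add_left_injective x)
      (fun a b => by simp) (fun z hz => mem_union_left _ (mem_union_right _
        (mem_image_of_mem _ hz))) 0 y
    have h3 := hJ.xF_le_xG hβ.le Λ 0 (x + y)
    have h4 := g2_supermul (hJ.K_nonneg hβ.le Λ) ⟨0, m0⟩ ⟨x, m1⟩ ⟨x + y, m2⟩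
    simp only [← xF_coe] at h4
    simp only [id, zero_add, add_comm y x] at h1 h2
    rw [sub_zero] at h3
    have h5 := hJ.xF_le hβ.le le_rfl (Λ := ∅) (Λ' := box d n) id Function.injective_id
      (fun _ _ => rfl) (by simp) 0 y
    have h6 := hJ.xF_le hβ.le le_rfl (Λ := ∅) (Λ' := Λ) id Function.injective_id
      (fun _ _ => rfl) (by simp) 0 x
    rw [xF, dif_neg (by simp)] at h5 h6
    exact (mul_le_mul h1 h2 h5 h6).trans (by linarith)

end JOK

/-- reflection of one coordinate -/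
def reflH (i : Fin d) : Site d →+ Site d :=
  AddMonoidHom.mk' (fun x => Function.update x i (-x i)) fun a b => by
    funext j
    by_cases h : j = i
    · subst h; simp; ring
    · simp [h]

/-- transposition of two coordinates -/
def swapH (i j : Fin d) : Site d →+ Site d :=
  AddMonoidHom.mk' (fun x => x ∘ Equiv.swap i j) fun _ _ => rfl

namespace Admissible

variable {N : Seminorm ℝ (Fin d → ℝ)} {ψ : Site d → ℝ} (h : Admissible N ψ)
include h

omit h in
lemma J_zero : coupling N ψ 0 = 0 := if_pos rfl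

lemma jok : JOK (coupling N ψ) := by
  have h1 : ∀ x, x ≠ 0 → 0 < coupling N ψ x := fun x hx => by
    rw [coupling, if_neg hx]; exact mul_pos (h.pos x hx) (Real.exp_pos _)
  have h2 : ∀ x, 0 ≤ coupling N ψ x := fun x => by
    by_cases hx : x = 0
    · rw [hx, J_zero]
    · exact (h1 x hx).le
  exact ⟨h2, h1, fun x => le_hasSum h.total x fun y _ => h2 y⟩

lemma symN : SymN fun x : Site d => N (toR x) := by
  refine ⟨fun x y => ?_, fun m x => ?_, fun i x => ?_, fun i j x => h.norm_perm _ (toR x)⟩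
  · refine le_trans (le_of_eq ?_) (map_add_le_add N (toR x) (toR y))
    congr 1; funext i; simp [toR]
  · have : toR (m • x) = (m : ℝ) • toR x := by funext i; simp [toR]
    rw [this, map_smul_eq_mul]
    simp
  · rw [← h.norm_refl i (toR x)]
    congr 1
    funext j
    by_cases hj : j = i
    · subst hj; simp [toR]
    · simp [toR, hj]

lemma J_refl (i : Fin d) (x : Site d) : coupling N ψ (reflH i x) = coupling N ψ x := by
  by_cases hx : x = 0
  · rw [hx, map_zero]
  have hx' : reflH i x ≠ 0 := fun e => hx (funext fun j => by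
    have := congrFun e j
    by_cases hj : j = i
    · subst hj; simpa [reflH] using this
    · simpa [reflH, hj] using this)
  rw [coupling, coupling, if_neg hx, if_neg hx']
  exact congrArg₂ (fun a b => a * Real.exp (-b)) (h.psi_refl i x) (h.symN.refl i x)

lemma J_swap (i j : Fin d) (x : Site d) : coupling N ψ (swapH i j x) = coupling N ψ x := by
  by_cases hx : x = 0
  · rw [hx, map_zero]
  have hx' : swapH i j x ≠ 0 := fun e => hx (funext fun k => by
    simpa [swapH] using congrFun e (Equiv.swap i j k))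
  rw [coupling, coupling, if_neg hx, if_neg hx']
  exact congrArg₂ (fun a b => a * Real.exp (-b)) (h.psi_perm _ x) (h.symN.perm i j x)

lemma J_neg (x : Site d) : coupling N ψ (-x) = coupling N ψ x := by
  have h1 : ∀ s : Finset (Fin d),
      coupling N ψ (fun j => if j ∈ s then -x j else x j) = coupling N ψ x := by
    intro s
    induction s using Finset.induction with
    | empty => simp
    | insert a s ha ih =>
      rw [← ih, ← h.J_refl a (fun j => if j ∈ s then -x j else x j)]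
      congr 1
      funext j
      by_cases hj : j = a
      · subst hj; simp [reflH, ha]
      · simp [reflH, hj]
  rw [← h1 univ]
  congr 1
  funext j
  simp

lemma good {β : ℝ} (hβ : 0 < β) : Good (xG (coupling N ψ) β) (3 / 2) := h.jok.xy_good h.J_neg hβ

lemma symN_nu {β : ℝ} (hβ : 0 < β) : SymN fun x => rate (xG (coupling N ψ) β) (toR x) :=
  ⟨(h.good hβ).nu_add, (h.good hβ).nu_nsmul,
    fun i => (h.good hβ).nu_map (reflH i) (h.jok.xG_map hβ.le _ (fun x => funext fun j => by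
      by_cases hj : j = i
      · subst hj; simp [reflH]
      · simp [reflH, hj]) (h.J_refl i)),
    fun i j => (h.good hβ).nu_map (swapH i j) (h.jok.xG_map hβ.le _
      (fun x => funext fun k => by simp [swapH]) (h.J_swap i j))⟩

lemma N_pos {x : Site d} (hx : x ≠ 0) : 0 < N (toR x) :=
  lt_of_le_of_ne (apply_nonneg N _) fun e => hx (funext fun i => by
    simpa using congrFun (h.definite _ e.symm) i)

lemma nu_le_N {β : ℝ} (hβ : 0 < β) (x : Site d) :
    rate (xG (coupling N ψ) β) (toR x) ≤ N (toR x) := by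
  by_cases hx : x = 0
  · rw [hx, (h.symN_nu hβ).zero]; exact apply_nonneg N _
  have hi : Function.Injective fun n : ℕ => n • x := fun m n e => by
    obtain ⟨i, hi⟩ := Function.ne_iff.1 hx
    have := congrFun e i
    simp only [Pi.smul_apply, nsmul_eq_mul] at this
    exact_mod_cast mul_right_cancel₀ hi this
  have h1 := h.subexp.comp hi.tendsto_cofinite
  rw [Nat.cofinite_eq_atTop] at h1
  have h2 := ((tendsto_const_nhds (x := N (toR x))).sub (h1.mul_const (N (toR x)))).sub
    (tendsto_const_div_atTop_nhds_zero_nat (Real.log (β * Real.exp (-β) / 4)))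
  rw [zero_mul, sub_zero, sub_zero] at h2
  refine le_of_tendsto_of_tendsto ((h.good hβ).tendsto_nu x) h2 ?_
  filter_upwards [eventually_gt_atTop 0] with n hn
  have hn' : (0 : ℝ) < n := by exact_mod_cast hn
  have hnx : n • x ≠ 0 := smul_ne_zero hn.ne' hx
  have hψ := h.pos _ hnx
  have a1 := Real.log_le_log (mul_pos (by positivity) (h.jok.pos _ hnx))
    (h.jok.xG_lower h.J_neg hβ.le hnx)
  have a2 : N (toR (n • x)) = n * N (toR x) := h.symN.nsmul n x
  have a3 := h.N_pos hx
  rw [coupling, if_neg hnx, Real.log_mul (by positivity) (by positivity),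
    Real.log_mul hψ.ne' (Real.exp_pos _).ne', Real.log_exp] at a1
  simp only [Function.comp]
  change _ + (_ + -N (toR (n • x))) ≤ _ at a1
  change _ ≤ _ - Real.log (ψ (n • x)) / N (toR (n • x)) * _ - _
  rw [a2] at a1 ⊢
  rw [div_le_iff₀ hn']
  refine le_trans (by linarith) (le_of_eq (a := n * N (toR x) - Real.log (ψ (n • x)) -
    Real.log (β * Real.exp (-β) / 4)) ?_)
  field_simp

lemma nonempty_fin : Nonempty (Fin d) := by
  by_contra hn
  rw [not_nonempty_iff] at hn
  have : coupling N ψ = fun _ => 0 := funext fun x => by rw [Subsingleton.elim x 0, J_zero]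
  have h1 := h.total
  rw [this] at h1
  exact zero_ne_one (hasSum_zero.unique h1)

lemma J_weight {δ : ℝ} (hδ : 0 < δ) : ∃ A, ∀ Λ : Finset (Site d),
    ∑ z ∈ Λ, coupling N ψ z * Real.exp ((1 - δ) * N (toR z)) ≤ A := by
  classical
  obtain ⟨i⟩ := h.nonempty_fin
  have h1 := h.N_pos (x := Pi.single i 1) (by simp)
  have hd : (0 : ℝ) < d := by exact_mod_cast i.pos
  obtain ⟨B, hB⟩ := exp_sum_bound (d := d) (ε := δ / 2 * N (toR (Pi.single i 1)) / d)
    (by positivity)
  have h2 := h.subexp.eventually (gt_mem_nhds (show 0 < δ / 2 by positivity))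
  rw [eventually_cofinite] at h2
  set t : Site d → ℝ := fun z => coupling N ψ z * Real.exp ((1 - δ) * N (toR z)) with ht
  have t0 : ∀ z, 0 ≤ t z := fun z => mul_nonneg (h.jok.nonneg z) (Real.exp_pos _).le
  refine ⟨∑ z ∈ h2.toFinset, t z + B, fun Λ => ?_⟩
  have h3 : ∀ z ∈ Λ, t z ≤ (if z ∈ h2.toFinset then t z else 0) +
      Real.exp (-(δ / 2 * N (toR (Pi.single i 1)) / d * ∑ j, |(z j : ℝ)|)) := by
    intro z _
    split_ifs with hz
    · linarith [Real.exp_pos (-(δ / 2 * N (toR (Pi.single i 1)) / d * ∑ j, |(z j : ℝ)|))]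
    · by_cases hz0 : z = 0
      · simp only [ht, hz0, J_zero, zero_mul, zero_add]
        exact (Real.exp_pos _).le
      have a1 : Real.log (ψ z) / N (toR z) < δ / 2 := by simpa using hz
      have a2 := h.N_pos hz0
      have a3 := h.symN.lower i z
      rw [div_lt_iff₀ a2] at a1
      simp only [ht, coupling, if_neg hz0, zero_add]
      rw [← Real.exp_log (h.pos z hz0), ← Real.exp_add, ← Real.exp_add]
      refine Real.exp_le_exp.2 ?_
      have a4 : δ / 2 * N (toR (Pi.single i 1)) / d * ∑ j, |(z j : ℝ)| ≤ δ / 2 * N (toR z) := by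
        rw [div_mul_eq_mul_div, div_le_iff₀ hd]
        nlinarith
      change _ + -N (toR z) + _ ≤ _
      linarith
  refine (sum_le_sum h3).trans ?_
  rw [sum_add_distrib, sum_ite_mem]
  exact add_le_add (sum_le_sum_of_subset_of_nonneg inter_subset_right fun z _ _ => t0 z) (hB Λ)

lemma rate_le {β : ℝ} (hβ : 0 < β) (i : Fin d) (s : Fin d → ℝ) : rate (xG (coupling N ψ) β) s ≤
    (∑ j, |s j|) * rate (xG (coupling N ψ) β) (toR (Pi.single i 1)) := by
  have g := h.good hβ
  obtain ⟨C, hC⟩ := g.exists_rate_le_nu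
  set ν := rate (xG (coupling N ψ) β) (toR (Pi.single i 1))
  have hν : 0 ≤ ν := g.rate_nonneg _
  have h1 := (tendsto_const_div_atTop_nhds_zero_nat (d * ν + C)).const_add ((∑ j, |s j|) * ν)
  rw [add_zero] at h1
  refine ge_of_tendsto h1 ?_
  filter_upwards [eventually_gt_atTop 0] with n hn
  have hn' : (0 : ℝ) < n := by exact_mod_cast hn
  have a1 := hC ((n : ℝ) • s)
  have a2 := (h.symN_nu hβ).upper i (site ((n : ℝ) • s))
  have a3 : ∑ j, |(site ((n : ℝ) • s) j : ℝ)| ≤ n * ∑ j, |s j| + d := by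
    have : ∀ j, |(site ((n : ℝ) • s) j : ℝ)| ≤ n * |s j| + 1 := fun j => by
      have b1 := site_close ((n : ℝ) • s) j
      have b2 := abs_sub_abs_le_abs_sub (site ((n : ℝ) • s) j : ℝ) (((n : ℝ) • s) j)
      rw [Pi.smul_apply, smul_eq_mul, abs_mul, Nat.abs_cast] at b2
      rw [Pi.smul_apply, smul_eq_mul] at b1
      linarith
    simpa [sum_add_distrib, mul_sum] using sum_le_sum fun j (_ : j ∈ univ) => this j
  rw [g.rate_nsmul] at a1
  have a4 := mul_le_mul_of_nonneg_right a3 hν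
  rw [add_div' _ _ _ hn'.ne', le_div_iff₀ hn']
  nlinarith

theorem corr_xy : ∃ G, IsBoxLimit (xyCorr (coupling N ψ)) G ∧ CorrContinuous G (Set.Ioi 0) := by
  have hJ := h.jok
  refine ⟨xG (coupling N ψ), isBoxLimit_of (xF (coupling N ψ)) (fun β _ => xyCorr_eq _ β)
    fun β hβ => hJ.xF_tendsto hβ.le, corr_of_H isOpen_Ioi (fun l hl => ⟨_, h.good hl⟩)
    (fun a ha b _ hab => hJ.xG_mono (le_of_lt ha) hab) fun s l _ c hc δ hδ hδ1 => ?_⟩
  obtain ⟨i⟩ := h.nonempty_fin
  have hd : (0 : ℝ) < d := by exact_mod_cast i.pos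
  have hs : 0 ≤ ∑ j, |s j| := sum_nonneg fun _ _ => abs_nonneg _
  obtain ⟨A, hA⟩ := h.J_weight hδ
  obtain ⟨B, hB⟩ := exp_sum_bound (d := d) (ε := δ * (c / (∑ j, |s j| + 1)) / d) (by positivity)
  have hA0 : 0 ≤ A := by simpa using hA ∅
  have hB0 : 0 ≤ B := by simpa using hB ∅
  set M := 3 / 2 * B + 1 with hM
  have hM0 : 0 < M := by positivity
  refine ⟨1 / (8 * A * M + 1), by positivity, fun a ha b hb h1 h2 hab hca => ?_⟩
  have ha0 : 0 < a := ha
  have ga := h.good ha0
  have gb := h.good (β := b) hb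
  have hν := h.symN_nu ha0
  set ν : Site d → ℝ := fun x => rate (xG (coupling N ψ) a) (toR x) with hνd
  have ν1 : c / (∑ j, |s j| + 1) ≤ ν (Pi.single i 1) := by
    rw [div_le_iff₀ (by positivity)]
    have := ga.rate_nonneg (toR (Pi.single i 1))
    have := h.rate_le ha0 i s
    simp only [hνd]
    linarith
  have ν2 : ∀ z : Site d, xG (coupling N ψ) a z * Real.exp ((1 - δ) * ν z) ≤
      3 / 2 * Real.exp (-(δ * (c / (∑ j, |s j| + 1)) / d * ∑ j, |(z j : ℝ)|)) := by
    intro z
    refine (mul_le_mul_of_nonneg_right (ga.le_exp z) (Real.exp_pos _).le).trans ?_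
    rw [mul_assoc, ← Real.exp_add]
    refine mul_le_mul_of_nonneg_left (Real.exp_le_exp.2 ?_) (by norm_num)
    have a1 := hν.lower i z
    have a2 := mul_le_mul_of_nonneg_left ν1 (sum_nonneg (s := univ) fun j _ => abs_nonneg (z j : ℝ))
    have a3 : δ * (c / (∑ j, |s j| + 1)) / d * ∑ j, |(z j : ℝ)| ≤ δ * ν z := by
      rw [div_mul_eq_mul_div, div_le_iff₀ hd]
      nlinarith
    change -ν z + _ ≤ _
    linarith
  have ν3 : ∀ z w : Site d, N (toR w) = N (toR z) →
      coupling N ψ z / 2 * Real.exp ((1 - δ) * ν w) ≤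
        coupling N ψ z * Real.exp ((1 - δ) * N (toR z)) := fun z w e =>
    mul_le_mul (by linarith [hJ.nonneg z]) (Real.exp_le_exp.2 (mul_le_mul_of_nonneg_left
      ((h.nu_le_N ha0 w).trans_eq e) (by linarith))) (Real.exp_pos _).le (hJ.nonneg z)
  have ν4 : ∀ u v : Site d, N (toR (v - u)) = N (toR (u - v)) := fun u v => by
    rw [← map_neg_eq_map N]
    congr 1; funext j; simp [toR]
  have hs4 : 4 * A * M * (b - a) < 1 := by
    have a1 : b - a ≤ 2 * (1 / (8 * A * M + 1)) := by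
      linarith [(abs_lt.1 h1).1, (abs_lt.1 h2).2]
    have a2 := mul_le_mul_of_nonneg_left a1 (show 0 ≤ 4 * A * M by positivity)
    refine a2.trans_lt ?_
    rw [mul_one_div, ← mul_div_assoc, div_lt_one (by positivity)]
    linarith
  have key : ∀ y, xG (coupling N ψ) b y * Real.exp ((1 - δ) * ν y) ≤ 2 * M := by
    intro y
    refine le_of_tendsto ((hJ.xF_tendsto (le_of_lt hb) y).mul_const _) ?_
    filter_upwards [eventually_subset_box {y}] with n hn
    have hy : y ∈ box d n := hn (mem_singleton_self y)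
    have b1 := boot (ι := box d n) (K := fun i j => coupling N ψ (i.1 - j.1) / 2)
      (W := fun i j => Real.exp ((1 - δ) * ν (j.1 - i.1))) (A := A) (M := M)
      (fun i j => div_nonneg (hJ.nonneg _) zero_le_two) (fun _ _ => (Real.exp_pos _).le) hA0 hM0
      (fun x y u v => by
        rw [← Real.exp_add, ← Real.exp_add, ← mul_add, ← mul_add]
        refine Real.exp_le_exp.2 (mul_le_mul_of_nonneg_left ?_ (by linarith))
        have c1 := hν.add (u.1 - x.1) (v.1 - u.1)
        have c2 := hν.add (u.1 - x.1 + (v.1 - u.1)) (y.1 - v.1)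
        rw [show u.1 - x.1 + (v.1 - u.1) + (y.1 - v.1) = y.1 - x.1 by abel] at c2
        linarith)
      (fun u => le_trans (sum_le_sum fun v _ => ν3 _ _ (ν4 _ _))
        (sum_coe_le hA (fun v => u.1 - v) sub_right_injective))
      (fun v => le_trans (sum_le_sum fun u _ => ν3 _ _ rfl)
        (sum_coe_le hA (fun u => u - v.1) sub_left_injective))
      ha0.le hab hs4 (fun x => by
        refine le_trans (sum_le_sum fun y _ => (mul_le_mul_of_nonneg_right
          ((xF_coe _ _ _ x y).symm.trans_le (hJ.xF_le_xG ha0.le _ _ _))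
          (Real.exp_pos _).le).trans (ν2 _)) ?_
        rw [← mul_sum]
        have := sum_coe_le (Λ := box d n) hB (fun y => y - x.1) sub_left_injective
        linarith) ⟨0, zero_mem_box n⟩
    refine le_trans ?_ (le_trans (single_le_sum (fun j _ => mul_nonneg
      (g2_nonneg (hJ.K_nonneg (le_of_lt hb) _) _ _) (Real.exp_pos _).le) (mem_univ ⟨y, hy⟩)) b1)
    rw [← xF_coe]
    simp
  obtain ⟨C, hC⟩ := ga.exists_rate_le_nu
  have h3 := (tendsto_const_div_atTop_nhds_zero_nat
    (Real.log (2 * M) + (1 - δ) * C)).const_sub ((1 - δ) * rate (xG (coupling N ψ) a) s)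
  rw [sub_zero] at h3
  refine le_of_tendsto_of_tendsto h3 (gb.tendsto_rate s) ?_
  filter_upwards [eventually_gt_atTop 0] with n hn
  have hn' : (0 : ℝ) < n := by exact_mod_cast hn
  have a1 := hC ((n : ℝ) • s)
  rw [ga.rate_nsmul] at a1
  have a2 := Real.log_le_log (mul_pos (gb.pos _) (Real.exp_pos _)) (key (site ((n : ℝ) • s)))
  rw [Real.log_mul (gb.pos _).ne' (Real.exp_pos _).ne', Real.log_exp] at a2
  have a3 := mul_le_mul_of_nonneg_left a1 (show 0 ≤ 1 - δ by linarith)
  rw [sub_div' hn'.ne']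
  refine div_le_div_of_nonneg_right ?_ hn'.le
  simp only [hνd] at a2
  linarith

end Admissible

end Pool.Agent.P.MP_5c18f4_pr
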